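import Pool.Agent.MX.ElimMin

/-! The bound is `2 ^ O(E + Hc)`. -/

set_option autoImplicit false

namespace Pool.Agent.FixLam

open Pool.Agent.MX Pool.Agent.RElim

/-- PROOF: `BdD_le`: the exponent of `2` is linear in `4 Hc + 2 E`. -/
theorem bd_linY (p B Dg : ℕ) : ∃ κ : ℕ, ∀ E Hc : ℕ, BdD (4 * (p * B + 1)) (2 * p + 1)
      (2 ^ (20 * (p + 1) * (B + 1) + 4 * Hc + 2 * E)) ^ Dg ≤ 2 ^ (κ * (E + Hc + 1)) := by
  set D := 4 * (p * B + 1) with hD
  set n := 2 * p + 1 with hn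
  set N := (D + 1) ^ n with hN
  set E₀ := 20 * (p + 1) * (B + 1) with hE₀
  refine ⟨(N * N + ((D + E₀ + 5) * (D * n + 1) + 1) * N) * Dg, fun E Hc => ?_⟩
  have h1 := BdD_le D n (2 ^ (E₀ + 4 * Hc + 2 * E)) (E₀ + 4 * Hc + 2 * E) le_rfl
  calc BdD D n (2 ^ (E₀ + 4 * Hc + 2 * E)) ^ Dg
      ≤ (2 ^ (N * N + ((D + (E₀ + 4 * Hc + 2 * E) + 1) * (D * n + 1) + 1) * N)) ^ Dg :=
        Nat.pow_le_pow_left h1 _
    _ = 2 ^ ((N * N + ((D + (E₀ + 4 * Hc + 2 * E) + 1) * (D * n + 1) + 1) * N) * Dg) := by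
        rw [← pow_mul]
    _ ≤ _ := by
        refine Nat.pow_le_pow_right (by norm_num) ?_
        have h3 : D + (E₀ + 4 * Hc + 2 * E) + 1 ≤ (D + E₀ + 5) * (E + Hc + 1) := by
          calc D + (E₀ + 4 * Hc + 2 * E) + 1 ≤ (D + E₀ + 5) + 5 * (E + Hc) := by omega
            _ ≤ (D + E₀ + 5) + (D + E₀ + 5) * (E + Hc) :=
                Nat.add_le_add_left (Nat.mul_le_mul_right _ (by omega)) _
            _ = (D + E₀ + 5) * (E + Hc + 1) := by ring
        have h4 : (D + (E₀ + 4 * Hc + 2 * E) + 1) * (D * n + 1) + 1 ≤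
            ((D + E₀ + 5) * (D * n + 1) + 1) * (E + Hc + 1) := by
          have h5 := Nat.mul_le_mul_right (D * n + 1) h3
          have h6 : (D + E₀ + 5) * (E + Hc + 1) * (D * n + 1) =
            (D + E₀ + 5) * (D * n + 1) * (E + Hc + 1) := by ring
          rw [h6] at h5
          have h7 : ((D + E₀ + 5) * (D * n + 1) + 1) * (E + Hc + 1) =
            (D + E₀ + 5) * (D * n + 1) * (E + Hc + 1) + (E + Hc + 1) := by ring
          omega
        have h8 : N * N + ((D + (E₀ + 4 * Hc + 2 * E) + 1) * (D * n + 1) + 1) * N ≤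
            (N * N + ((D + E₀ + 5) * (D * n + 1) + 1) * N) * (E + Hc + 1) := by
          have h9 := Nat.mul_le_mul_right N h4
          have h10 : N * N ≤ N * N * (E + Hc + 1) :=
            Nat.le_mul_of_pos_right _ (Nat.succ_pos _)
          have h11 : (N * N + ((D + E₀ + 5) * (D * n + 1) + 1) * N) * (E + Hc + 1) =
            N * N * (E + Hc + 1) +
              ((D + E₀ + 5) * (D * n + 1) + 1) * (E + Hc + 1) * N := by ring
          rw [h11]
          exact add_le_add h10 h9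
        calc (N * N + ((D + (E₀ + 4 * Hc + 2 * E) + 1) * (D * n + 1) + 1) * N) * Dg
            ≤ (N * N + ((D + E₀ + 5) * (D * n + 1) + 1) * N) * (E + Hc + 1) * Dg :=
              Nat.mul_le_mul_right _ h8
          _ = (N * N + ((D + E₀ + 5) * (D * n + 1) + 1) * N) * Dg * (E + Hc + 1) := by ring

end Pool.Agent.FixLam
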