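import Pool.Agent.FixRec.Fld
import Pool.Agent.MX.CoefB

/-! Sizes of the coefficients of the solutions of arbitrary recurrences. -/

set_option autoImplicit false

namespace Pool.Agent.FixLam

open Complex Pool.Agent.FixRec Pool.Agent.DD7719.M Pool.Agent.MX

/-- A determinant with entries in a subfield lies in the subfield. -/
private theorem coefF_det_mem {k : ℕ} (F : IntermediateField ℚ ℂ)
    (N : Matrix (Fin k) (Fin k) ℂ) (h : ∀ i j, N i j ∈ F) : N.det ∈ F := by
  rw [Matrix.det_apply']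
  refine sum_mem fun σ _ => mul_mem ?_ (prod_mem fun i _ => h _ _)
  exact intCast_mem F _

/-- Cramer: the coefficients lie in the field of the roots. -/
private theorem coefF_mem (k : ℕ) (a u : ℕ → ℝ) (q : ℕ → ℚ) (hu : ∀ t, t < k → u t = (q t : ℝ))
    (l c : ℕ → ℂ) (ex : ℕ → ℕ) (hrd : RootData k a u l c ex)
    (F : IntermediateField ℚ ℂ) (hF : ∀ i, i < k → l i ∈ F) (i : Fin k) : c i ∈ F := by
  classical
  set M := vmat k fun i => (l i, ex i) with hM
  have hMm : ∀ n i, M n i ∈ F := fun n i =>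
    mul_mem (natCast_mem F _) (pow_mem (hF i i.2) _)
  have hum : ∀ n : Fin k, (u n : ℂ) ∈ F := fun n => by
    rw [hu n n.2]
    have h1 : (((q n : ℚ) : ℝ) : ℂ) = algebraMap ℚ ℂ (q n) := by simp
    rw [h1]
    exact F.algebraMap_mem _
  let Nm : Matrix (Fin k) (Fin k) ℂ := M.updateCol i fun n : Fin k => (u n : ℂ)
  have hNm : ∀ n j, Nm n j ∈ F := by
    intro n j
    simp only [Nm, Matrix.updateCol_apply]
    split_ifs
    · exact hum n
    · exact hMm n j
  have hdet0 : M.det ≠ 0 := hrd.det_ne_zero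
  have hcr : M.det * c i = Nm.det := by
    have h2 : M.mulVec (fun i : Fin k => c i) = fun n : Fin k => (u n : ℂ) := by
      ext n
      have h3 := hrd.2.2.2 n n.2
      rw [Finset.sum_range] at h3
      rw [← h3]
      simp only [Matrix.mulVec, dotProduct, vmat, hM]
      apply Finset.sum_congr rfl
      intro i _
      ring
    have h3 : Nm.det = (M.cramer fun n : Fin k => (u n : ℂ)) i :=
      (Matrix.cramer_apply _ _ _).symm
    rw [h3, ← h2, Matrix.cramer_eq_adjugate_mulVec, Matrix.mulVec_mulVec, Matrix.adjugate_mul,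
      Matrix.smul_mulVec, Matrix.one_mulVec]
    rfl
  have h4 : c i = Nm.det / M.det := by
    rw [← hcr, mul_div_cancel_left₀ _ hdet0]
  rw [h4]
  exact div_mem (coefF_det_mem F _ hNm) (coefF_det_mem F _ hMm)

/-- Conjugate root data. -/
private theorem coefF_conj (k : ℕ) (a u : ℕ → ℝ) (qa qu : ℕ → ℚ)
    (ha : ∀ t, t < k → a t = (qa t : ℝ)) (hu : ∀ t, t < k → u t = (qu t : ℝ))
    (l c : ℕ → ℂ) (ex : ℕ → ℕ) (hrd : RootData k a u l c ex)
    (F : IntermediateField ℚ ℂ) (hF : ∀ i, i < k → l i ∈ F) (hc : ∀ i, i < k → c i ∈ F)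
    (φ : F →ₐ[ℚ] ℂ) :
    RootData k a u (fun i => if h : i < k then φ ⟨l i, hF i h⟩ else 0)
      (fun i => if h : i < k then φ ⟨c i, hc i h⟩ else 0) ex := by
  classical
  have haC : ∀ t, t < k → (a t : ℂ) = ((qa t : ℚ) : ℂ) := by
    intro t ht
    rw [ha t ht]
    push_cast
    rfl
  have huC : ∀ t, t < k → (u t : ℂ) = ((qu t : ℚ) : ℂ) := by
    intro t ht
    rw [hu t ht]
    push_cast
    rfl
  refine ⟨hrd.1, ?_, ?_, ?_⟩
  · intro i hi j hj hij
    rcases hrd.2.1 i hi j hj hij with h | h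
    · left
      simp only [dif_pos hi, dif_pos hj]
      intro h1
      have h2 := φ.toRingHom.injective h1
      exact h (congrArg Subtype.val h2)
    · exact Or.inr h
  · intro i hi e he
    simp only [dif_pos hi]
    have h1 := hrd.2.2.1 i hi e he
    have h2 : ((k.choose e : ℕ) : F) * (⟨l i, hF i hi⟩ : F) ^ (k - e) =
        ∑ t ∈ Finset.range k, ((qa t : ℚ) : F) * ((k - 1 - t).choose e : F) *
          (⟨l i, hF i hi⟩ : F) ^ (k - 1 - t - e) := by
      apply (algebraMap F ℂ).injective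
      rw [map_mul, map_pow, map_natCast, map_sum]
      refine h1.trans ?_
      apply Finset.sum_congr rfl
      intro t ht
      rw [map_mul, map_mul, map_pow, map_natCast, map_ratCast, haC t (Finset.mem_range.mp ht)]
      rfl
    have h3 := congrArg φ h2
    simp only [map_mul, map_pow, map_natCast, map_sum, map_ratCast] at h3
    refine h3.trans ?_
    apply Finset.sum_congr rfl
    intro t ht
    rw [haC t (Finset.mem_range.mp ht)]
  · intro n hn
    have h1 := hrd.2.2.2 n hn
    rw [Finset.sum_range] at h1 ⊢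
    have h2 : ∑ i : Fin k, (⟨c i, hc i i.2⟩ : F) * ((n.choose (ex i) : ℕ) : F) *
        (⟨l i, hF i i.2⟩ : F) ^ (n - ex i) = ((qu n : ℚ) : F) := by
      apply (algebraMap F ℂ).injective
      rw [map_sum, map_ratCast, ← huC n hn, ← h1]
      apply Finset.sum_congr rfl
      intro i _
      rw [map_mul, map_mul, map_pow, map_natCast]
      rfl
    have h3 := congrArg φ h2
    simp only [map_mul, map_pow, map_natCast, map_sum, map_ratCast] at h3
    rw [huC n hn, ← h3]
    apply Finset.sum_congr rfl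
    intro i _
    simp only [dif_pos i.2]

/-- PROOF: `mem`: `c = M⁻¹ u` with `M = vmat k ...` invertible (`RootData.det_ne_zero`), whose
entries are in `F` (see the part `Cramer` of `coef_bound`: `M.det * c i = det (...)`), `u` rational.
`den`: second part of `coef_bound`. `size`: for `φ : F →ₐ[ℚ] ℂ` the functions
`φ (l i)`, `φ (c i)` (for `i < k`, `0` otherwise) are again root data for the same `a`, `u`
(rational numbers are fixed; distinctness by injectivity), so the first part of `coef_bound` bounds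
`‖φ (c i)‖`. -/
theorem coef_CB (k L : ℕ) (hkL : k ≤ L) (num numu : ℕ → ℤ) (den denu : ℕ → ℕ)
    (hden0 : ∀ t, t < k → 0 < den t) (hdenu0 : ∀ t, t < k → 0 < denu t)
    (hnum : ∀ t, t < k → (num t).natAbs ≤ 2 ^ L) (hden : ∀ t, t < k → den t ≤ 2 ^ L)
    (hnumu : ∀ t, t < k → (numu t).natAbs ≤ 2 ^ L) (hdenu : ∀ t, t < k → denu t ≤ 2 ^ L)
    (a u : ℕ → ℝ) (ha : ∀ t, t < k → a t = (num t : ℝ) / (den t : ℝ))
    (hu : ∀ t, t < k → u t = (numu t : ℝ) / (denu t : ℝ))
    (l c : ℕ → ℂ) (ex : ℕ → ℕ) (hrd : RootData k a u l c ex)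
    (F : IntermediateField ℚ ℂ) (hF : ∀ i, i < k → l i ∈ F) :
    CB F (fun i : Fin k => c i) (pcf L) := by
  classical
  have ha' : ∀ t, t < k → a t = (((num t : ℚ) / (den t : ℚ) : ℚ) : ℝ) := by
    intro t ht
    rw [ha t ht]
    push_cast
    rfl
  have hu' : ∀ t, t < k → u t = (((numu t : ℚ) / (denu t : ℚ) : ℚ) : ℝ) := by
    intro t ht
    rw [hu t ht]
    push_cast
    rfl
  have hc : ∀ i, i < k → c i ∈ F := fun i hi =>
    coefF_mem k a u (fun t => (numu t : ℚ) / (denu t : ℚ)) hu' l c ex hrd F hF ⟨i, hi⟩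
  obtain ⟨_, D0, hD0, hD0le, hD0i⟩ := coef_bound k L hkL num numu den denu hden0 hdenu0 hnum hden
    hnumu hdenu a u ha hu l c ex hrd
  refine ⟨fun i => hc i i.2, ⟨D0, hD0, hD0le, fun i => hD0i i i.2⟩, fun i h φ => ?_⟩
  have h1 := coefF_conj k a u _ _ ha' hu' l c ex hrd F hF hc φ
  have h2 := (coef_bound k L hkL num numu den denu hden0 hdenu0 hnum hden hnumu hdenu a u ha hu
    _ _ ex h1).1 i i.2
  simp only [dif_pos i.2] at h2
  exact h2

end Pool.Agent.FixLam
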