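import Pool.Agent.FixRec.Fld

/-!
# Positivity for recurrences with roots in a fixed finite set: definitions

THEOREM (library `FixLam`, helper62): one language in `∀ℝ` agrees, for every nonzero rational polynomial `Q`
and all but finitely many recurrences (of any order) all of whose characteristic roots are roots of `Q`,
with positivity and frozen positivity. The coefficients of the sequences are polynomials `P a` attached to
the distinct roots `l a`; their degrees are not bounded, the set of the roots is fixed.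
-/

set_option autoImplicit false

namespace Pool.Agent.FixLam

open Complex Polynomial Pool.Agent.FixRec

/-- Polynomials with coefficients in `F`, of degree at most `E`, with common denominator and all
conjugates at most `2 ^ H`. -/
structure PB (F : IntermediateField ℚ ℂ) {p : ℕ} (P : Fin p → ℂ[X]) (E H : ℕ) : Prop where
  deg : ∀ a, (P a).natDegree ≤ E
  mem : ∀ a e, (P a).coeff e ∈ F
  den : ∃ D0 : ℕ, 0 < D0 ∧ D0 ≤ 2 ^ H ∧ ∀ a e, IsIntegral ℤ ((D0 : ℂ) * (P a).coeff e)
  size : ∀ (a : Fin p) (e : ℕ) (h : (P a).coeff e ∈ F) (φ : F →ₐ[ℚ] ℂ),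
    ‖φ ⟨(P a).coeff e, h⟩‖ ≤ 2 ^ H

/-- distinct nonzero algebraic numbers, closed under complex conjugation -/
structure Roots {p : ℕ} (l : Fin p → ℂ) : Prop where
  inj : Function.Injective l
  ne : ∀ a, l a ≠ 0
  alg : ∀ a, IsIntegral ℚ (l a)
  conj : ∀ a, ∃ b, l b = (starRingEnd ℂ) (l a)

variable {p : ℕ}

/-- the sequence frozen at `x` -/
noncomputable def fr (l : Fin p → ℂ) (P : Fin p → ℂ[X]) (x : ℝ) (n : ℕ) : ℂ :=
  ∑ a, (P a).eval (x : ℂ) * l a ^ n

/-- the sequence frozen at `x` is ultimately positive -/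
def UPx (l : Fin p → ℂ) (P : Fin p → ℂ[X]) (x : ℝ) : Prop :=
  ∃ N : ℕ, ∀ n, N ≤ n → 0 < (fr l P x n).re

/-- symmetry under complex conjugation -/
def Sym (l : Fin p → ℂ) (P : Fin p → ℂ[X]) : Prop :=
  ∀ a b, l b = (starRingEnd ℂ) (l a) → P b = (P a).map (starRingEnd ℂ)

open scoped Classical in
/-- the polynomial coefficient of `X ^ m` along the class `j + n0 m` -/
noncomputable def gQ (l : Fin p → ℂ) (P : Fin p → ℂ[X]) (n0 j : ℕ) (z : ℂ) : ℂ[X] :=
  ∑ a with l a ^ n0 = z, C (l a ^ j) * P a

end Pool.Agent.FixLam
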