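import Pool.Agent.FixLam.Ev
import Pool.Agent.MX.ElimMin
import Pool.Agent.FixRec.ElimSup

/-! The minimum of a linear form on a torsion coset is an algebraic function of the parameter. -/

set_option autoImplicit false

namespace Pool.Agent.FixLam

open Pool.Agent.MX Pool.Agent.RElim Complex

/-- The linear form with a constant is bounded from below on the coset. -/
private theorem ElimY_min (p : ℕ) (c : Fin p → ℂ) (δ : ℝ) (S : Set (Fin p → ℤ))
    (ζ : (Fin p → ℤ) → ℂ)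
    (hpos : ∀ x : Fin p → ℂ, (∀ i, ‖x i‖ = 1) → (∀ g ∈ S, ∏ i, x i ^ g i = ζ g) →
      0 < (∑ i, c i * x i).re + δ) :
    ∃ m : ℝ, 0 < m ∧ ∀ x : Fin p → ℂ, (∀ i, ‖x i‖ = 1) →
      (∀ g ∈ S, ∏ i, x i ^ g i = ζ g) → m ≤ (∑ i, c i * x i).re + δ := by
  classical
  set K : Set (Fin p → Circle) := {y | ∀ g ∈ S, ∏ i, ((y i : Circle) : ℂ) ^ g i = ζ g} with hK
  have hKc : IsClosed K := by
    rw [hK, Set.ofPred_forall]
    refine isClosed_iInter fun g => ?_
    rw [Set.ofPred_forall]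
    refine isClosed_iInter fun _ => ?_
    refine isClosed_eq ?_ continuous_const
    refine continuous_finsetProd _ fun i _ => ?_
    refine Continuous.zpow₀ ?_ _ ?_
    · exact continuous_subtype_val.comp (continuous_apply i)
    · intro y
      exact Or.inl (Circle.coe_ne_zero _)
  have hKcomp : IsCompact K := hKc.isCompact
  have hf : Continuous fun y : Fin p → Circle => (∑ i, c i * ((y i : Circle) : ℂ)).re + δ := by
    refine Continuous.add ?_ continuous_const
    refine Complex.continuous_re.comp ?_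
    refine continuous_finsetSum _ fun i _ => ?_
    exact continuous_const.mul (continuous_subtype_val.comp (continuous_apply i))
  have hlift : ∀ x : Fin p → ℂ, (∀ i, ‖x i‖ = 1) →
      ∃ y : Fin p → Circle, ∀ i, ((y i : Circle) : ℂ) = x i := by
    intro x hx
    exact ⟨fun i => ⟨x i, by simp [Submonoid.unitSphere, hx i]⟩, fun i => rfl⟩
  rcases K.eq_empty_or_nonempty with he | hne
  · refine ⟨1, one_pos, ?_⟩
    intro x hx hx2
    obtain ⟨y, hy⟩ := hlift x hx
    exfalso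
    have : y ∈ K := by
      intro g hg
      simp only [hy]
      exact hx2 g hg
    rw [he] at this
    exact this
  · obtain ⟨y₀, hy₀, hmin⟩ := hKcomp.exists_isMinOn hne hf.continuousOn
    refine ⟨(∑ i, c i * ((y₀ i : Circle) : ℂ)).re + δ, ?_, ?_⟩
    · exact hpos (fun i => ((y₀ i : Circle) : ℂ)) (fun i => Circle.norm_coe _) hy₀
    · intro x hx hx2
      obtain ⟨y, hy⟩ := hlift x hx
      have hyK : y ∈ K := by
        intro g hg
        simp only [hy]
        exact hx2 g hg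
      have := hmin hyK
      simp only [Set.mem_ofPred_eq, hy] at this
      exact this

/-- The relation. PROOF: `exists_systemY` for `hfin.toFinset` (`S` is finite, see `elim_min` in
`MX/ElimMin.lean`) and `param_boundD` with the ring `Polynomial (Polynomial (RA F))`, the norm
`pn (pn (NR F))` (`isNrm_NR.pn.pn`), `D = 4 (p B + 1)`, the coordinate `none`, the evaluation
`evY F y δ` (`abs_evY_le`); `X = 1 / (2 D0 m)` with `m > 0` the minimum of `fY E c y x + δ` on the
coset (as `exists_min`); for a point `x` of the coset the zero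
`v none = 1 / (2 D0 (fY E c y x + δ))` gives the inequality. `BdD_mono` (`FixRec/ElimSup.lean`) for
the size. -/
theorem exists_relY (F : IntermediateField ℚ ℂ) [FiniteDimensional ℚ F]
    (hconj : ∀ z ∈ F, (starRingEnd ℂ) z ∈ F) (hI : I ∈ F) (p B E Hc D0 : ℕ) (hD0 : 0 < D0)
    (hD0' : D0 ≤ 2 ^ Hc) (c : Fin p → ℕ → F)
    (hcI : ∀ i, ∀ e ≤ E, IsIntegral ℤ ((D0 : ℂ) * (c i e : ℂ)))
    (hcb : ∀ i, ∀ e ≤ E, ∀ φ : F →ₐ[ℚ] ℂ, ‖φ (c i e)‖ ≤ 2 ^ Hc) (S : Set (Fin p → ℤ))
    (hS : ∀ g ∈ S, ∀ i, |g i| ≤ B) (ζ : (Fin p → ℤ) → F)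
    (hζ : ∀ g ∈ S, ∃ n : ℕ, 0 < n ∧ ζ g ^ n = 1) :
    ∃ q : Polynomial (Polynomial (RA F)), q ≠ 0 ∧
      pn (pn (NR F)) q ≤ BdD (4 * (p * B + 1)) (2 * p + 1)
        (2 ^ (20 * (p + 1) * (B + 1) + 4 * Hc + 2 * E)) ∧
      ∀ y δ : ℝ, |y| ≤ 1 → |δ| ≤ 1 →
        (∀ x : Fin p → ℂ, (∀ i, ‖x i‖ = 1) → (∀ g ∈ S, ∏ i, x i ^ g i = (ζ g : ℂ)) →
          0 < fY E c y x + δ) →
        ∀ x : Fin p → ℂ, (∀ i, ‖x i‖ = 1) → (∀ g ∈ S, ∏ i, x i ^ g i = (ζ g : ℂ)) →
          |evY F y δ q| ≤ BdD (4 * (p * B + 1)) (2 * p + 1)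
            (2 ^ (20 * (p + 1) * (B + 1) + 4 * Hc + 2 * E)) * (2 * D0 * (fY E c y x + δ)) := by
  classical
  have hfin : S.Finite := by
    refine (Set.finite_Icc (fun _ : Fin p => -(B : ℤ)) (fun _ => (B : ℤ))).subset ?_
    intro g hg
    rw [Set.mem_Icc, Pi.le_def, Pi.le_def]
    exact ⟨fun i => (abs_le.mp (hS g hg i)).1, fun i => (abs_le.mp (hS g hg i)).2⟩
  obtain ⟨h, hdeg, hmn, hnn, hzero⟩ := exists_systemY F hconj hI p B E Hc D0 hD0 hD0' c hcI hcb
    hfin.toFinset (fun g hg => hS g (hfin.mem_toFinset.mp hg)) ζ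
    (fun g hg => hζ g (hfin.mem_toFinset.mp hg))
  obtain ⟨q, hq0, hqN, hq⟩ := param_boundD (isNrm_NR (F := F)).pn.pn (4 * (p * B + 1)) (by omega)
    ⟨2 * (p * B + 1), by ring⟩ h hdeg none
  have hcard : Fintype.card (Option (Fin p ⊕ Fin p)) = 2 * p + 1 := by
    rw [Fintype.card_option, Fintype.card_sum, Fintype.card_fin]
    ring
  rw [hcard] at hqN hq
  have hmono := FixRec.BdD_mono (4 * (p * B + 1)) (2 * p + 1) hmn
  set Bd := BdD (4 * (p * B + 1)) (2 * p + 1) (mn (pn (pn (NR F))) h) with hBd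
  refine ⟨q, hq0, hqN.trans hmono, ?_⟩
  intro y δ hy hδ hpos x hx hx2
  obtain ⟨m, hm, hmin⟩ := ElimY_min p
    (fun i => ∑ e ∈ Finset.range (E + 1), (c i e : ℂ) * (y : ℂ) ^ (E - e)) δ S
    (fun g => (ζ g : ℂ)) hpos
  have hD0r : (0 : ℝ) < D0 := by exact_mod_cast hD0
  have hq' := hq (evY F y δ) (abs_evY_le F y δ hy hδ) (hnn y δ) (1 / (2 * D0 * m)) (by
    intro v hv
    obtain ⟨h1, h2, h3⟩ := (hzero y δ v).mp hv
    have h4 : m ≤ fY E c y (ptx v) + δ :=
      hmin (ptx v) h1 (fun g hg => h2 g (hfin.mem_toFinset.mpr hg))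
    set f := fY E c y (ptx v) + δ with hf
    have h5 : 0 < f := lt_of_lt_of_le hm h4
    have h6 : v none = 1 / (2 * D0 * f) := by
      rw [eq_div_iff (by positivity)]
      exact h3
    rw [h6]
    exact one_div_le_one_div_of_le (by positivity) (mul_le_mul_of_nonneg_left h4 (by positivity)))
  have hfx := hpos x hx hx2
  set f := fY E c y x + δ with hf
  let v : Option (Fin p ⊕ Fin p) → ℝ := fun o => match o with
    | none => 1 / (2 * D0 * f)
    | some (Sum.inl i) => (x i).re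
    | some (Sum.inr i) => (x i).im
  have hpt : ptx v = x := by
    funext i
    exact Complex.re_add_im (x i)
  have hv0 : h.eval₂ (evY F y δ) v = 0 := by
    rw [hzero y δ v, hpt]
    refine ⟨hx, fun g hg => hx2 g (hfin.mem_toFinset.mp hg), ?_⟩
    show 1 / (2 * D0 * f) * (2 * D0 * f) = 1
    exact one_div_mul_cancel (by positivity)
  have h1 : |evY F y δ q| * (1 / (2 * D0 * f)) ≤ Bd := hq' v hv0
  rw [mul_one_div, div_le_iff₀ (by positivity)] at h1
  refine h1.trans (mul_le_mul_of_nonneg_right ?_ (by positivity))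
  exact_mod_cast hmono

end Pool.Agent.FixLam
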