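import Pool.Agent.FixLam.SysY

/-! Evaluation of polynomials in two parameters. -/

set_option autoImplicit false

namespace Pool.Agent.FixLam

open Pool.Agent.MX Pool.Agent.RElim Complex

private theorem abs_eval₂_Ev {R : Type*} [CommRing R] (N : R → ℕ) (φ : R →+* ℝ)
    (h : ∀ a, |φ a| ≤ N a) (y : ℝ) (hy : |y| ≤ 1) (p : Polynomial R) :
    |p.eval₂ φ y| ≤ pn N p := by
  rw [Polynomial.eval₂_def, Polynomial.sum_def, pn]
  push_cast
  refine (Finset.abs_sum_le_sum_abs _ _).trans (Finset.sum_le_sum fun i _ => ?_)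
  rw [abs_mul, abs_pow]
  calc |φ (p.coeff i)| * |y| ^ i ≤ (N (p.coeff i) : ℝ) * 1 :=
        mul_le_mul (h _) (pow_le_one₀ (abs_nonneg _) hy) (by positivity) (Nat.cast_nonneg _)
    _ = N (p.coeff i) := mul_one _

/-- PROOF: `pn_eq`/definition of `pn` (sum of the norms of the coefficients), `abs_le_NR`, `|y| ≤ 1`, `|δ| ≤ 1`. -/
theorem abs_evY_le (F : IntermediateField ℚ ℂ) [FiniteDimensional ℚ F] (y δ : ℝ) (hy : |y| ≤ 1)
    (hδ : |δ| ≤ 1) (a : Polynomial (Polynomial (RA F))) : |evY F y δ a| ≤ pn (pn (NR F)) a := by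
  rw [evY, Polynomial.coe_eval₂RingHom]
  refine abs_eval₂_Ev (pn (NR F)) _ (fun b => ?_) δ hδ a
  rw [Polynomial.coe_eval₂RingHom]
  exact abs_eval₂_Ev (NR F) _ (fun c => abs_le_NR c) y hy b

/-- PROOF: `evY F y δ a` is a polynomial in `y` and `δ` (`Polynomial.eval₂_eq_sum_range`). -/
theorem continuous_evY (F : IntermediateField ℚ ℂ) (a : Polynomial (Polynomial (RA F))) :
    Continuous fun t : ℝ × ℝ => evY F t.1 t.2 a := by
  have h1 : ∀ b : Polynomial (RA F), Continuous fun t : ℝ × ℝ => b.eval₂ (RA F).subtype t.1 := by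
    intro b
    simp only [Polynomial.eval₂_eq_sum_range]
    exact continuous_finsetSum _ fun j _ => continuous_const.mul (continuous_fst.pow j)
  have h2 : (fun t : ℝ × ℝ => evY F t.1 t.2 a) = fun t =>
      ∑ i ∈ Finset.range (a.natDegree + 1), (a.coeff i).eval₂ (RA F).subtype t.1 * t.2 ^ i := by
    funext t
    rw [evY, Polynomial.coe_eval₂RingHom, Polynomial.eval₂_eq_sum_range]
    rfl
  rw [h2]
  exact continuous_finsetSum _ fun i _ => (h1 (a.coeff i)).mul (continuous_snd.pow i)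

/-- The smallest positive root. PROOF: let `a ≠ 0` be the trailing coefficient of `g`, of index `s`. From `g (y) = 0`, divided by
`y ^ s`: `|a| ≤ y * Bd` (the other coefficients have sum of absolute values at most `Bd`, `y ≤ 1`); `1 ≤ |a| * NR a ^ (Dg - 1)`
(`one_le_mul_NR`), `NR a ≤ Bd`. -/
theorem root_evY (F : IntermediateField ℚ ℂ) [FiniteDimensional ℚ F] (g : Polynomial (RA F))
    (hg : g ≠ 0) (Bd Dg : ℕ) (hBd : pn (NR F) g ≤ Bd) (hDg : Module.finrank ℚ F ≤ Dg) (y : ℝ)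
    (hy0 : 0 < y) (hy1 : y ≤ 1) (h : g.eval₂ (RA F).subtype y = 0) : 1 ≤ y * (Bd : ℝ) ^ Dg := by
  classical
  set s := g.natTrailingDegree with hs
  have hss : s ∈ g.support := Polynomial.natTrailingDegree_mem_support_of_nonzero hg
  have ha : g.coeff s ≠ 0 := Polynomial.mem_support_iff.1 hss
  have hN : ∀ i ∈ g.support.erase s, |(RA F).subtype (g.coeff i) * y ^ i| ≤
      (NR F (g.coeff i) : ℝ) * y ^ (s + 1) := by
    intro i hi
    rw [Finset.mem_erase] at hi
    have h1 : s ≤ i := Polynomial.natTrailingDegree_le_of_mem_supp i hi.2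
    have h2 : s + 1 ≤ i := by omega
    rw [abs_mul, abs_pow, abs_of_pos hy0]
    exact mul_le_mul (abs_le_NR _) (pow_le_pow_of_le_one hy0.le hy1 h2) (by positivity)
      (Nat.cast_nonneg _)
  have hNa : NR F (g.coeff s) ≤ Bd := by
    refine le_trans ?_ hBd
    rw [pn]
    exact Finset.single_le_sum (f := fun i => NR F (g.coeff i)) (fun _ _ => Nat.zero_le _) hss
  have hsum : ∑ i ∈ g.support.erase s, (NR F (g.coeff i) : ℝ) ≤ Bd := by
    have h1 : ∑ i ∈ g.support.erase s, NR F (g.coeff i) ≤ Bd := by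
      refine le_trans ?_ hBd
      rw [pn]
      exact Finset.sum_le_sum_of_subset (Finset.erase_subset _ _)
    exact_mod_cast h1
  rw [Polynomial.eval₂_def, Polynomial.sum_def, ← Finset.add_sum_erase _ _ hss] at h
  have h1 : |(RA F).subtype (g.coeff s)| * y ^ s ≤ Bd * y ^ (s + 1) := by
    calc |(RA F).subtype (g.coeff s)| * y ^ s = |(RA F).subtype (g.coeff s) * y ^ s| := by
          rw [abs_mul, abs_pow, abs_of_pos hy0]
      _ = |∑ i ∈ g.support.erase s, (RA F).subtype (g.coeff i) * y ^ i| := by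
          rw [eq_neg_of_add_eq_zero_left h, abs_neg]
      _ ≤ ∑ i ∈ g.support.erase s, |(RA F).subtype (g.coeff i) * y ^ i| :=
          Finset.abs_sum_le_sum_abs _ _
      _ ≤ ∑ i ∈ g.support.erase s, (NR F (g.coeff i) : ℝ) * y ^ (s + 1) := Finset.sum_le_sum hN
      _ = (∑ i ∈ g.support.erase s, (NR F (g.coeff i) : ℝ)) * y ^ (s + 1) := by
          rw [Finset.sum_mul]
      _ ≤ Bd * y ^ (s + 1) := by gcongr
  have h2 : |(RA F).subtype (g.coeff s)| ≤ y * Bd := by
    have h3 : 0 < y ^ s := pow_pos hy0 s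
    have h4 : |(RA F).subtype (g.coeff s)| * y ^ s ≤ (y * Bd) * y ^ s := by
      refine h1.trans (le_of_eq ?_)
      ring
    exact le_of_mul_le_mul_right h4 h3
  have h3 := one_le_mul_NR (g.coeff s) ha Dg hDg
  have hD1 : 1 ≤ Dg := le_trans (Nat.succ_le_of_lt Module.finrank_pos) hDg
  calc (1 : ℝ) ≤ |((RA F).subtype (g.coeff s) : ℝ)| * (NR F (g.coeff s) : ℝ) ^ (Dg - 1) := h3
    _ ≤ (y * Bd) * (Bd : ℝ) ^ (Dg - 1) := by
        have h5 : (NR F (g.coeff s) : ℝ) ≤ Bd := by exact_mod_cast hNa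
        gcongr
    _ = y * (Bd : ℝ) ^ Dg := by
        obtain ⟨d, rfl⟩ : ∃ d, Dg = d + 1 := ⟨Dg - 1, by omega⟩
        rw [Nat.add_sub_cancel, pow_succ]
        ring

end Pool.Agent.FixLam
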