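import Pool.Agent.FixLam.Defs

/-! Grouping of the roots with the same power. -/

set_option autoImplicit false

namespace Pool.Agent.FixLam

open Complex Polynomial Finset Pool.Agent.FixRec

variable {p : ℕ}

/-- PROOF: `Sym` and `Roots.conj`: conjugation permutes the roots (`Roots.inj`), and the terms. -/
theorem fr_real (l : Fin p → ℂ) (hl : Roots l) (P : Fin p → ℂ[X]) (hP : Sym l P) (x : ℝ) (n : ℕ) :
    fr l P x n = (((fr l P x n).re : ℝ) : ℂ) := by
  choose π hπ using hl.conj
  have hinj : Function.Injective π := by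
    intro a b hab
    have h1 := hπ a
    rw [hab, hπ b] at h1
    exact hl.inj ((starRingEnd ℂ).injective h1).symm
  have hbij : Function.Bijective π := Finite.injective_iff_bijective.mp hinj
  have hconj : (starRingEnd ℂ) (fr l P x n) = fr l P x n := by
    unfold fr
    rw [map_sum, ← Function.Bijective.sum_comp hbij (fun a => (P a).eval (x : ℂ) * l a ^ n)]
    refine Finset.sum_congr rfl fun a _ => ?_
    rw [map_mul, map_pow, ← hπ a, hP a (π a) (hπ a), Polynomial.eval_map]
    congr 1
    rw [← Polynomial.eval₂_hom, Complex.conj_ofReal]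
  exact (Complex.conj_eq_iff_re.1 hconj).symm

open scoped Classical in
/-- PROOF: as `sum_grp` in `FrozenUP/Poly.lean`. -/
theorem sum_gQ (l : Fin p → ℂ) (P : Fin p → ℂ[X]) (n0 j : ℕ) (q : Fin p → Prop) [DecidablePred q]
    (hq : ∀ a b, l a ^ n0 = l b ^ n0 → q a → q b) (y : ℂ) (T : ℂ → ℂ) :
    ∑ a, (if q a then (P a).eval y * l a ^ j * T (l a ^ n0) else 0) =
      ∑ z ∈ (univ.filter q).image (fun a => l a ^ n0), (gQ l P n0 j z).eval y * T z := by
  rw [← Finset.sum_filter,
    ← Finset.sum_fiberwise_of_maps_to (t := (univ.filter q).image (fun a => l a ^ n0))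
      (g := fun a => l a ^ n0) (fun a ha => Finset.mem_image_of_mem _ ha)]
  refine Finset.sum_congr rfl fun X hX => ?_
  obtain ⟨i0, hi0, rfl⟩ := Finset.mem_image.mp hX
  have hqi0 : q i0 := (Finset.mem_filter.mp hi0).2
  rw [gQ, eval_finsetSum, Finset.sum_mul]
  refine Finset.sum_congr ?_ fun i hi => ?_
  · ext i
    simp only [Finset.mem_filter, Finset.mem_univ, true_and]
    constructor
    · exact fun h => h.2
    · exact fun h => ⟨hq i0 i h.symm hqi0, h⟩
  · have h1 : l i ^ n0 = l i0 ^ n0 := (Finset.mem_filter.mp hi).2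
    rw [h1, eval_mul, eval_C]
    ring

open scoped Classical in
/-- PROOF: as `gP_eval_eq_zero` in `FrozenUP/Poly.lean` (`FiveNum.Bk.exp_poly_zero` or a Vandermonde argument for the distinct
nonzero numbers `l a ^ n0`). -/
theorem gQ_eval_zero (l : Fin p → ℂ) (P : Fin p → ℂ[X]) (n0 j : ℕ) (q : Fin p → Prop) [DecidablePred q]
    (hq : ∀ a b, l a ^ n0 = l b ^ n0 → q a → q b) (hq0 : ∀ a, q a → l a ≠ 0) (y : ℂ)
    (h : ∀ m, ∑ a, (if q a then (P a).eval y * l a ^ (j + n0 * m) else 0) = 0) (a : Fin p)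
    (ha : q a) : (gQ l P n0 j (l a ^ n0)).eval y = 0 := by
  set B := (univ.filter q).image (fun i => l i ^ n0) with hB
  have h1 := FiveNum.Bk.exp_poly_zero B id (by
      intro b hb
      obtain ⟨i0, hi0, rfl⟩ := Finset.mem_image.mp hb
      exact pow_ne_zero _ (hq0 i0 (Finset.mem_filter.mp hi0).2)) (fun b _ b' _ h => h)
    (∑ b ∈ B, 1) (fun _ => 1)
    (fun b => C ((gQ l P n0 j b).eval y)) le_rfl (by
      intro b _
      refine lt_of_le_of_lt Polynomial.degree_C_le ?_
      norm_num) (by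
      intro t _
      have h2 : ∑ a, (if q a then (P a).eval y * l a ^ j * (fun z => z ^ t) (l a ^ n0)
          else 0) = 0 := by
        refine Eq.trans (Finset.sum_congr rfl fun i _ => ?_) (h t)
        by_cases hqi : q i
        · rw [if_pos hqi, if_pos hqi, pow_add, pow_mul, mul_assoc]
        · rw [if_neg hqi, if_neg hqi]
      rw [← h2, sum_gQ l P n0 j q hq y (fun z => z ^ t)]
      refine Finset.sum_congr rfl fun b _ => ?_
      simp only [id, eval_C]) (l a ^ n0)
      (Finset.mem_image_of_mem _ (by simpa using ha))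
  have h2 := congrArg (Polynomial.eval 0) h1
  simpa using h2

open scoped Classical in
/-- PROOF: `sum_gQ` with `T z = z ^ m`. -/
theorem sum_zero_of_gQ (l : Fin p → ℂ) (P : Fin p → ℂ[X]) (n0 j : ℕ) (q : Fin p → Prop)
    [DecidablePred q] (hq : ∀ a b, l a ^ n0 = l b ^ n0 → q a → q b)
    (h : ∀ a, q a → gQ l P n0 j (l a ^ n0) = 0) (y : ℂ) (m : ℕ) :
    ∑ a, (if q a then (P a).eval y * l a ^ (j + n0 * m) else 0) = 0 := by
  have h1 := sum_gQ l P n0 j q hq y (fun z => z ^ m)
  refine (Finset.sum_congr rfl fun i _ => ?_).trans (h1.trans ?_)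
  · by_cases hqi : q i
    · rw [if_pos hqi, if_pos hqi, pow_add, pow_mul, mul_assoc]
    · rw [if_neg hqi, if_neg hqi]
  · apply Finset.sum_eq_zero
    intro X hX
    obtain ⟨i0, hi0, rfl⟩ := Finset.mem_image.mp hX
    rw [h i0 (Finset.mem_filter.mp hi0).2, eval_zero, zero_mul]

end Pool.Agent.FixLam
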