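import Pool.Agent.FixLam.Defs
import Pool.Agent.FrozenUP.Expand
import Pool.Agent.FrozenUP.Real

/-! The polynomial coefficients attached to the distinct roots. -/

set_option autoImplicit false

namespace Pool.Agent.FixLam

open Complex Polynomial Pool.Agent.FixRec Pool.Agent.FrUP Finset

variable {p : ℕ}

/-- The coefficients of the falling factorials. -/
private theorem PolyB_desc (d : ℕ) : ∀ e, |(descPochhammer ℤ d).coeff e| ≤ (d.factorial : ℤ) := by
  induction d with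
  | zero =>
    intro e
    rw [descPochhammer_zero, coeff_one]
    split_ifs <;> simp
  | succ n ih =>
    intro e
    have hn0 : (0 : ℤ) ≤ n := Int.natCast_nonneg n
    have h1 : (descPochhammer ℤ (n + 1)).coeff e =
        (descPochhammer ℤ n * X).coeff e - (descPochhammer ℤ n).coeff e * n := by
      rw [descPochhammer_succ_right, mul_sub, coeff_sub]
      congr 1
      rw [show ((n : ℤ[X])) = C (n : ℤ) by simp, coeff_mul_C]
    have h2 : |(descPochhammer ℤ n * X).coeff e| ≤ (n.factorial : ℤ) := by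
      cases e with
      | zero => simp
      | succ e =>
        rw [coeff_mul_X]
        exact ih e
    have h3 : |(descPochhammer ℤ n).coeff e * n| ≤ (n.factorial : ℤ) * n := by
      rw [abs_mul, abs_of_nonneg hn0]
      exact mul_le_mul_of_nonneg_right (ih e) hn0
    rw [h1, Nat.factorial_succ]
    push_cast
    calc |(descPochhammer ℤ n * X).coeff e - (descPochhammer ℤ n).coeff e * n|
        ≤ |(descPochhammer ℤ n * X).coeff e| + |(descPochhammer ℤ n).coeff e * n| := abs_sub _ _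
      _ ≤ n.factorial + n.factorial * n := add_le_add h2 h3
      _ = (n + 1) * n.factorial := by ring

/-- The coefficients of the binomial polynomials. -/
private noncomputable def PolyB_r (d e : ℕ) : ℚ := ((descPochhammer ℤ d).coeff e : ℚ) / d.factorial

private theorem PolyB_coeff (d e : ℕ) : (bcP d).coeff e = ((PolyB_r d e : ℚ) : ℂ) := by
  unfold bcP PolyB_r
  rw [coeff_C_mul, ← descPochhammer_map (Int.castRingHom ℂ), coeff_map]
  push_cast
  rw [eq_intCast]
  ring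

private theorem PolyB_r_le (d e : ℕ) : ‖((PolyB_r d e : ℚ) : ℂ)‖ ≤ 1 := by
  unfold PolyB_r
  have h1 := PolyB_desc d e
  have h2 : (0 : ℝ) < d.factorial := by exact_mod_cast d.factorial_pos
  have h3 : (|((descPochhammer ℤ d).coeff e : ℝ)|) ≤ d.factorial := by exact_mod_cast h1
  push_cast
  rw [norm_div, Complex.norm_natCast, div_le_one h2]
  have h4 : ‖(((descPochhammer ℤ d).coeff e : ℤ) : ℂ)‖ = |((descPochhammer ℤ d).coeff e : ℝ)| := by
    rw [← Complex.ofReal_intCast, Complex.norm_real, Real.norm_eq_abs]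
  rw [h4]
  exact h3

private theorem PolyB_r_int {d k : ℕ} (hd : d ≤ k) (e : ℕ) :
    IsIntegral ℤ ((k.factorial : ℂ) * ((PolyB_r d e : ℚ) : ℂ)) := by
  obtain ⟨m, hm⟩ := Nat.factorial_dvd_factorial hd
  have h2 : (d.factorial : ℂ) ≠ 0 := by exact_mod_cast d.factorial_ne_zero
  have : (k.factorial : ℂ) * ((PolyB_r d e : ℚ) : ℂ) =
      algebraMap ℤ ℂ (m * (descPochhammer ℤ d).coeff e) := by
    unfold PolyB_r
    rw [hm, eq_intCast]
    push_cast
    field_simp
  rw [this]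
  exact isIntegral_algebraMap

private theorem PolyB_term {F : IntermediateField ℚ ℂ} (r : ℚ) : ((r : ℚ) : ℂ) ∈ F := by
  have := F.algebraMap_mem r
  rwa [eq_ratCast] at this

/-- PROOF: the coefficient `e` of `rp l' c ex (l a)` is `∑_{i, l' i = l a} c i * (l a)⁻¹ ^ ex i * (bcP (ex i)).coeff e`. `(bcP d).coeff e` is
`z / d !` with an integer `z`, and its absolute value is at most `1` (the sum of the absolute values of the coefficients of
`descPochhammer d` is at most `d !`; induction; compare `bcP_coeff_integral`, `FrozenUP/GapSeven.lean`), `d < k`, zero for `e > d`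
(`bcP_natDegree`). `(l a)⁻¹` is algebraic, in `F`, with a denominator `d1` and conjugates at most `G`: `D0' = D0 * k ! * d1 ^ k`, sizes
`k * 2 ^ H * G ^ k`, and `k ! ≤ 2 ^ (k ^ 2)`. -/
theorem rp_PB (l : Fin p → ℂ) (hl : Roots l) (F : IntermediateField ℚ ℂ) (hF : FD F l) :
    ∃ κ : ℕ, ∀ (k : ℕ) (l' c : Fin k → ℂ) (ex : Fin k → ℕ) (H : ℕ), (∀ i, ex i < k) → CB F c H →
      PB F (fun a => rp l' c ex (l a)) k (H + κ * (k + 1) ^ 2) := by
  classical
  have := hF.fin
  have hinv : ∀ a, (l a)⁻¹ ∈ F := fun a => F.inv_mem (hF.hl a)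
  -- a common denominator of the inverses
  have hden : ∃ d1 : ℕ, 0 < d1 ∧ ∀ a, IsIntegral ℤ ((d1 : ℂ) * (l a)⁻¹) := by
    have h1 : ∀ a, ∃ m : ℕ, 0 < m ∧ IsIntegral ℤ ((m : ℂ) * (l a)⁻¹) := by
      intro a
      have h2 : IsAlgebraic ℤ (l a)⁻¹ := by
        have h3 : IsAlgebraic ℚ (l a)⁻¹ := (hl.alg a).isAlgebraic.inv
        exact (IsFractionRing.isAlgebraic_iff ℤ ℚ ℂ).2 h3
      obtain ⟨y, hy, hy'⟩ := h2.exists_integral_multiple
      refine ⟨y.natAbs, Int.natAbs_pos.2 hy, ?_⟩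
      rcases Int.natAbs_eq y with h4 | h4
      · have : ((y.natAbs : ℕ) : ℂ) * (l a)⁻¹ = y • (l a)⁻¹ := by
          rw [zsmul_eq_mul]
          congr 1
          conv_rhs => rw [h4]
          simp
        rw [this]
        exact hy'
      · have : ((y.natAbs : ℕ) : ℂ) * (l a)⁻¹ = - (y • (l a)⁻¹) := by
          rw [zsmul_eq_mul, ← neg_mul]
          congr 1
          conv_rhs => rw [h4]
          simp
        rw [this]
        exact hy'.neg
    choose m hm hm' using h1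
    refine ⟨∏ a, m a, prod_pos fun a _ => hm a, fun a => ?_⟩
    have : ((∏ b, m b : ℕ) : ℂ) * (l a)⁻¹ =
        algebraMap ℤ ℂ ((∏ b ∈ univ.erase a, m b : ℕ) : ℤ) * ((m a : ℂ) * (l a)⁻¹) := by
      rw [← mul_prod_erase univ m (mem_univ a), eq_intCast]
      push_cast
      ring
    rw [this]
    exact isIntegral_algebraMap.mul (hm' a)
  obtain ⟨d1, hd1, hd1'⟩ := hden
  -- a bound for the conjugates of the inverses
  have hG : ∃ g : ℕ, ∀ a (φ : F →ₐ[ℚ] ℂ), ‖φ ⟨(l a)⁻¹, hinv a⟩‖ ≤ 2 ^ g := by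
    have hfin : Finite (F →ₐ[ℚ] ℂ) := inferInstance
    have := Fintype.ofFinite (F →ₐ[ℚ] ℂ)
    obtain ⟨g, hg⟩ := pow_unbounded_of_one_lt
      (∑ a, ∑ φ : F →ₐ[ℚ] ℂ, ‖φ ⟨(l a)⁻¹, hinv a⟩‖) (one_lt_two : (1 : ℝ) < 2)
    refine ⟨g, fun a φ => le_trans ?_ hg.le⟩
    refine le_trans ?_ (single_le_sum (f := fun a => ∑ φ : F →ₐ[ℚ] ℂ, ‖φ ⟨(l a)⁻¹, hinv a⟩‖)
      (fun a _ => sum_nonneg fun φ _ => norm_nonneg _) (mem_univ a))
    exact single_le_sum (f := fun φ : F →ₐ[ℚ] ℂ => ‖φ ⟨(l a)⁻¹, hinv a⟩‖)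
      (fun φ _ => norm_nonneg _) (mem_univ φ)
  obtain ⟨g, hg⟩ := hG
  refine ⟨1 + d1 + g, fun k l' c ex H hex hc => ?_⟩
  have hco : ∀ a e, (rp l' c ex (l a)).coeff e =
      ∑ i with l' i = l a, c i * ((l a)⁻¹) ^ ex i * ((PolyB_r (ex i) e : ℚ) : ℂ) := by
    intro a e
    unfold rp
    rw [finsetSum_coeff]
    refine sum_congr rfl fun i _ => ?_
    rw [coeff_C_mul, PolyB_coeff, inv_pow, div_eq_mul_inv]
  have hk2 : (1 + d1 + g) * (k + 1) ^ 2 ≥ k ^ 2 + k + d1 * k + g * k := by nlinarith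
  refine ⟨fun a => ?_, fun a e => ?_, ?_, fun a e h φ => ?_⟩
  · unfold rp
    refine natDegree_sum_le_of_forall_le _ _ fun i _ => ?_
    refine (natDegree_C_mul_le _ _).trans ?_
    unfold bcP
    refine (natDegree_C_mul_le _ _).trans ?_
    rw [descPochhammer_natDegree]
    exact (hex i).le
  · rw [hco]
    exact sum_mem fun i _ => mul_mem (mul_mem (hc.mem i) (pow_mem (hinv a) _)) (PolyB_term _)
  · obtain ⟨D0, hD0, hD0', hD⟩ := hc.den
    refine ⟨D0 * k.factorial * d1 ^ k, by positivity, ?_, fun a e => ?_⟩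
    · have h1 : k.factorial ≤ 2 ^ (k ^ 2) := by
        calc k.factorial ≤ k ^ k := Nat.factorial_le_pow k
          _ ≤ (2 ^ k) ^ k := Nat.pow_le_pow_left Nat.lt_two_pow_self.le k
          _ = 2 ^ (k ^ 2) := by rw [← pow_mul, sq]
      have h2 : d1 ^ k ≤ 2 ^ (d1 * k) := by
        rw [pow_mul]
        exact Nat.pow_le_pow_left Nat.lt_two_pow_self.le k
      calc D0 * k.factorial * d1 ^ k ≤ 2 ^ H * 2 ^ (k ^ 2) * 2 ^ (d1 * k) := by gcongr
        _ = 2 ^ (H + k ^ 2 + d1 * k) := by rw [pow_add, pow_add]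
        _ ≤ 2 ^ (H + (1 + d1 + g) * (k + 1) ^ 2) := by
          refine Nat.pow_le_pow_right (by norm_num) ?_
          have : 0 ≤ g * k := Nat.zero_le _
          omega
    · rw [hco, mul_sum]
      refine IsIntegral.sum _ fun i _ => ?_
      have h1 : ((D0 * k.factorial * d1 ^ k : ℕ) : ℂ) *
          (c i * ((l a)⁻¹) ^ ex i * ((PolyB_r (ex i) e : ℚ) : ℂ)) =
          ((D0 : ℂ) * c i) * (((k.factorial : ℕ) : ℂ) * ((PolyB_r (ex i) e : ℚ) : ℂ)) *
            (algebraMap ℤ ℂ (d1 ^ (k - ex i) : ℤ) * ((d1 : ℂ) * (l a)⁻¹) ^ ex i) := by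
        have h2 : (d1 : ℂ) ^ k = (d1 : ℂ) ^ (k - ex i) * (d1 : ℂ) ^ ex i := by
          rw [← pow_add]
          congr 1
          have := hex i
          omega
        rw [eq_intCast, mul_pow]
        push_cast
        rw [h2]
        ring
      rw [h1]
      exact ((hD i).mul (PolyB_r_int (hex i).le e)).mul
        (isIntegral_algebraMap.mul ((hd1' a).pow _))
  · have h1 : (⟨(rp l' c ex (l a)).coeff e, h⟩ : F) =
        ∑ i with l' i = l a, (⟨c i, hc.mem i⟩ : F) * (⟨(l a)⁻¹, hinv a⟩ : F) ^ ex i *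
          ((PolyB_r (ex i) e : ℚ) : F) := by
      apply Subtype.ext
      refine (hco a e).trans ?_
      push_cast
      rfl
    rw [h1, map_sum]
    have h2 : ∀ i ∈ univ.filter (fun i => l' i = l a),
        ‖φ ((⟨c i, hc.mem i⟩ : F) * (⟨(l a)⁻¹, hinv a⟩ : F) ^ ex i *
          ((PolyB_r (ex i) e : ℚ) : F))‖ ≤ 2 ^ H * 2 ^ (g * k) := by
      intro i _
      rw [map_mul, map_mul, map_pow, map_ratCast, norm_mul, norm_mul, norm_pow]
      have h3 := hc.size i (hc.mem i) φ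
      have h4 := hg a φ
      have h5 : ‖φ ⟨(l a)⁻¹, hinv a⟩‖ ^ ex i ≤ 2 ^ (g * k) := by
        calc ‖φ ⟨(l a)⁻¹, hinv a⟩‖ ^ ex i ≤ (2 ^ g) ^ ex i :=
              pow_le_pow_left₀ (norm_nonneg _) h4 _
          _ = 2 ^ (g * ex i) := by rw [pow_mul]
          _ ≤ 2 ^ (g * k) := pow_le_pow_right₀ (by norm_num) (Nat.mul_le_mul_left _ (hex i).le)
      calc ‖φ ⟨c i, hc.mem i⟩‖ * ‖φ ⟨(l a)⁻¹, hinv a⟩‖ ^ ex i * ‖((PolyB_r (ex i) e : ℚ) : ℂ)‖
          ≤ 2 ^ H * 2 ^ (g * k) * 1 := by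
            gcongr
            exact PolyB_r_le _ _
        _ = 2 ^ H * 2 ^ (g * k) := mul_one _
    calc ‖∑ i with l' i = l a, φ ((⟨c i, hc.mem i⟩ : F) * (⟨(l a)⁻¹, hinv a⟩ : F) ^ ex i *
          ((PolyB_r (ex i) e : ℚ) : F))‖
        ≤ ∑ i with l' i = l a, ‖φ ((⟨c i, hc.mem i⟩ : F) * (⟨(l a)⁻¹, hinv a⟩ : F) ^ ex i *
          ((PolyB_r (ex i) e : ℚ) : F))‖ := norm_sum_le _ _
      _ ≤ ∑ i with l' i = l a, (2 : ℝ) ^ H * 2 ^ (g * k) := sum_le_sum h2
      _ = ((univ.filter (fun i => l' i = l a)).card : ℝ) * (2 ^ H * 2 ^ (g * k)) := by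
        rw [sum_const, nsmul_eq_mul]
      _ ≤ 2 ^ k * (2 ^ H * 2 ^ (g * k)) := by
        refine mul_le_mul_of_nonneg_right ?_ (by positivity)
        have h6 : (univ.filter (fun i => l' i = l a)).card ≤ 2 ^ k :=
          (card_le_univ _).trans (by simpa using Nat.lt_two_pow_self.le)
        exact_mod_cast h6
      _ = 2 ^ (k + (H + g * k)) := by rw [pow_add, pow_add]
      _ ≤ 2 ^ (H + (1 + d1 + g) * (k + 1) ^ 2) := by
        refine pow_le_pow_right₀ (by norm_num) ?_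
        have h7 : 0 ≤ d1 * k := Nat.zero_le _
        have h8 : 0 ≤ k ^ 2 := Nat.zero_le _
        omega

end Pool.Agent.FixLam
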