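import Pool.Agent.FixLam.Defs
import Pool.Agent.FrozenUP.Expand
import Pool.Agent.FrozenUP.Real

/-! The polynomial coefficients: frozen sequences and symmetry. -/

set_option autoImplicit false

namespace Pool.Agent.FixLam

open Complex Polynomial Pool.Agent.FixRec Pool.Agent.FrUP Finset

variable {p : ℕ}

/-- PROOF: `frozen_rp`/`rp_sum` in `FrozenUP/Expand.lean`: the sum over the nonzero values of `l'` is the sum over `a` (`Roots.inj`; `rp = 0` at a number
which is not a value of `l'`); `fc`. -/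
theorem fs_eq_fr (l : Fin p → ℂ) (hl : Roots l) {k : ℕ} (l' c : Fin k → ℂ) (ex : Fin k → ℕ)
    (hr : ∀ i, l' i ≠ 0 → ∃ a, l a = l' i) (x : ℝ) (n : ℕ) :
    fs l' c ex x n = fr l (fun a => rp l' c ex (l a)) x n := by
  classical
  have h1 : fr l (fun a => rp l' c ex (l a)) x n =
      ∑ z ∈ (univ : Finset (Fin p)).image l, (rp l' c ex z).eval (x : ℂ) * z ^ n := by
    rw [fr, Finset.sum_image (fun a _ b _ h => hl.inj h)]
  have h2 : ∑ z ∈ (univ.filter fun i => l' i ≠ 0).image l', (rp l' c ex z).eval (x : ℂ) * z ^ n =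
      ∑ z ∈ (univ : Finset (Fin p)).image l, (rp l' c ex z).eval (x : ℂ) * z ^ n := by
    apply Finset.sum_subset
    · intro z hz
      obtain ⟨i, hi, rfl⟩ := Finset.mem_image.mp hz
      obtain ⟨a, ha⟩ := hr i (Finset.mem_filter.mp hi).2
      rw [← ha]
      exact Finset.mem_image_of_mem _ (Finset.mem_univ _)
    · intro z hz hz'
      obtain ⟨a, _, rfl⟩ := Finset.mem_image.mp hz
      have h3 : rp l' c ex (l a) = 0 := by
        unfold rp
        apply Finset.sum_eq_zero
        intro i hi
        exfalso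
        have h4 : l' i = l a := (Finset.mem_filter.mp hi).2
        apply hz'
        rw [← h4]
        apply Finset.mem_image_of_mem
        rw [Finset.mem_filter]
        exact ⟨Finset.mem_univ _, by rw [h4]; exact hl.ne a⟩
      rw [h3, eval_zero, zero_mul]
  rw [h1, ← h2, rp_sum l' c ex (x : ℂ) n, fs]
  refine Finset.sum_congr rfl fun i _ => ?_
  rw [fc]
  by_cases h : l' i = 0
  · rw [if_neg (not_not.mpr h), if_pos h, zero_mul]
  · rw [if_pos h, if_neg h, bcP_eval_real]
    ring

private lemma PolyC_gP {k : ℕ} (l' c : Fin k → ℂ) (ex : Fin k → ℕ) (hex : ∀ i, ex i < k) (z : ℂ)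
    (hz : z ≠ 0) : gP l' c ex 1 k z = C (z ^ k) * rp l' c ex z := by
  classical
  unfold gP rp
  rw [Finset.mul_sum]
  refine Finset.sum_congr ?_ fun i hi => ?_
  · ext i
    simp only [Finset.mem_filter, Finset.mem_univ, true_and, pow_one]
  · have h1 : l' i = z := by
      have := (Finset.mem_filter.mp hi).2
      exact this
    rw [← mul_assoc, ← C_mul, h1]
    congr 2
    have h2 : z ^ k = z ^ ex i * z ^ (k - ex i) := by
      rw [← pow_add]
      congr 1
      have := hex i
      omega
    have h3 := pow_ne_zero (ex i) hz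
    rw [h2]
    field_simp

/-- PROOF: `gP_conj` (`FrozenUP/Real.lean`) with `n0 = 1`, `j = k`: `gP l' c ex 1 k z = C (z ^ k) * rp l' c ex z` for `z ≠ 0`; so the values of
`rp l' c ex (conj z)` and of the conjugate of `rp l' c ex z` agree at all real `x` (with `C` of the conjugate power), hence the polynomials
are equal. -/
theorem sym_rp (l : Fin p → ℂ) (hl : Roots l) {k : ℕ} (l' c : Fin k → ℂ) (ex : Fin k → ℕ)
    (hex : ∀ i, ex i < k) (v : ℕ → ℝ)
    (hv : ∀ n, ∑ i, c i * (n.choose (ex i) : ℂ) * l' i ^ (n - ex i) = (v n : ℂ)) :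
    Sym l (fun a => rp l' c ex (l a)) := by
  classical
  have hevc : ∀ (P : ℂ[X]) (y : ℂ), (P.map (starRingEnd ℂ)).eval y =
      (starRingEnd ℂ) (P.eval ((starRingEnd ℂ) y)) := by
    intro P y
    have h1 := Polynomial.eval_map_apply (starRingEnd ℂ) (p := P) ((starRingEnd ℂ) y)
    rw [Complex.conj_conj] at h1
    exact h1
  intro a b hab
  dsimp only
  have hz : l a ≠ 0 := hl.ne a
  have hz' : (starRingEnd ℂ) (l a) ≠ 0 := (_root_.map_ne_zero _).mpr hz
  rw [hab]
  have hx : ∀ x : ℝ, (rp l' c ex ((starRingEnd ℂ) (l a))).eval (x : ℂ) =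
      ((rp l' c ex (l a)).map (starRingEnd ℂ)).eval (x : ℂ) := by
    intro x
    have h1 := gP_conj l' c ex 1 k one_pos hex v hv (l a) hz x
    rw [PolyC_gP l' c ex hex _ hz, PolyC_gP l' c ex hex _ hz', eval_mul, eval_mul, eval_C, eval_C,
      map_mul, map_pow, Complex.conj_conj] at h1
    have h2 := mul_left_cancel₀ (pow_ne_zero k hz) h1
    rw [hevc, Complex.conj_ofReal, ← h2, Complex.conj_conj]
  apply Polynomial.eq_of_infinite_eval_eq
  exact Set.infinite_of_injective_forall_mem (f := fun x : ℝ => (x : ℂ))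
    Complex.ofReal_injective hx

end Pool.Agent.FixLam
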