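import Mathlib

/-! The growth of the threshold. -/

set_option autoImplicit false

namespace Pool.Agent.FixLam

/-- PROOF: `log (n + 1) ≤ 2 √(n + 1)`; with `T = E + H + 1`, `n ≥ κ T ^ 2`: `K₀ E log (n + 1) ≤ 2 K₀ T √(n + 1) ≤ n / (4 N)` if
`κ ≥ 1000 N ^ 2 (K₀ + 1) ^ 2`, and `K₀ (1 + g T) ≤ n / (4 N) - 1`. -/
theorem threshold_sq (K₀ g : ℝ) (hK₀ : 0 < K₀) (hg : 0 ≤ g) (N : ℕ) (hN : 0 < N) :
    ∃ κ : ℕ, ∀ E H n : ℕ, κ * (E + H + 1) ^ 2 ≤ n →
      K₀ * (1 + (g * (E + H + 1) + E * Real.log (n + 1))) ≤ ((n / N : ℕ) : ℝ) := by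
  obtain ⟨s, hs⟩ := exists_nat_ge (2 * (N : ℝ) * (K₀ * (1 + g) + 4 * K₀) + 2 * N)
  refine ⟨s ^ 2, fun E H n hn => ?_⟩
  have hN1 : (1 : ℝ) ≤ N := by exact_mod_cast hN
  have hA0 : 0 ≤ K₀ * (1 + g) := by positivity
  have hB0 : 0 ≤ 2 * (N : ℝ) * (K₀ * (1 + g) + 4 * K₀) := by positivity
  have hs1 : 2 * (N : ℝ) * (K₀ * (1 + g) + 4 * K₀) ≤ s := by linarith
  have hs2 : 2 * (N : ℝ) ≤ s := by linarith
  have hs3 : (2 : ℝ) ≤ s := by linarith
  have hE0 : (0 : ℝ) ≤ E := Nat.cast_nonneg E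
  have hH0 : (0 : ℝ) ≤ H := Nat.cast_nonneg H
  have hn0 : (0 : ℝ) ≤ n := Nat.cast_nonneg n
  have hT1 : (1 : ℝ) ≤ (E : ℝ) + H + 1 := by linarith
  have hET : (E : ℝ) ≤ (E : ℝ) + H + 1 := by linarith
  have hnr : ((s : ℝ) * ((E : ℝ) + H + 1)) ^ 2 ≤ n := by
    have h : ((s ^ 2 * (E + H + 1) ^ 2 : ℕ) : ℝ) ≤ n := by exact_mod_cast hn
    push_cast at h
    rw [mul_pow]
    exact h
  generalize (E : ℝ) + H + 1 = T at *
  have hq2 : Real.sqrt n ^ 2 = n := Real.sq_sqrt hn0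
  have hq0 : 0 ≤ Real.sqrt n := Real.sqrt_nonneg _
  have hsT : (s : ℝ) * T ≤ Real.sqrt n := Real.le_sqrt_of_sq_le hnr
  have hsTs : (s : ℝ) ≤ s * T := by nlinarith
  have hq1 : 1 ≤ Real.sqrt n := by linarith
  have hlog : Real.log (n + 1) ≤ 4 * Real.sqrt n := by
    have h1 : Real.log (n + 1) = 2 * Real.log (Real.sqrt (n + 1)) := by
      rw [Real.log_sqrt (by positivity)]
      ring
    have h2 : Real.log (Real.sqrt (n + 1)) ≤ Real.sqrt (n + 1) - 1 :=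
      Real.log_le_sub_one_of_pos (Real.sqrt_pos.2 (by positivity))
    have h3 : Real.sqrt ((n : ℝ) + 1) ≤ 2 * Real.sqrt n := by
      rw [Real.sqrt_le_left (by positivity)]
      nlinarith
    linarith
  have hfl : (n : ℝ) / (2 * N) ≤ ((n / N : ℕ) : ℝ) := by
    have h1 : (n : ℝ) < N * (((n / N : ℕ) : ℝ) + 1) := by
      have h := Nat.lt_mul_div_succ n hN
      exact_mod_cast h
    have h2 : 2 * (N : ℝ) ≤ n := by nlinarith
    rw [div_le_iff₀ (by positivity)]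
    nlinarith
  refine le_trans ?_ hfl
  rw [le_div_iff₀ (by positivity)]
  have h1 : K₀ * (1 + (g * T + E * Real.log (n + 1))) ≤
      (K₀ * (1 + g) + 4 * K₀) * (T * Real.sqrt n) := by
    have h2 : (E : ℝ) * Real.log (n + 1) ≤ T * (4 * Real.sqrt n) :=
      mul_le_mul hET hlog (Real.log_nonneg (by linarith)) (by linarith)
    have h3 : T ≤ T * Real.sqrt n := by nlinarith
    have h4 : K₀ * (1 + (g * T + E * Real.log (n + 1))) ≤
        K₀ * (T + (g * T + T * (4 * Real.sqrt n))) :=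
      mul_le_mul_of_nonneg_left (by linarith) hK₀.le
    have h5 : K₀ * (T + (g * T + T * (4 * Real.sqrt n))) =
        K₀ * (1 + g) * T + 4 * K₀ * (T * Real.sqrt n) := by ring
    have h6 : K₀ * (1 + g) * T ≤ K₀ * (1 + g) * (T * Real.sqrt n) :=
      mul_le_mul_of_nonneg_left h3 hA0
    have h7 : (K₀ * (1 + g) + 4 * K₀) * (T * Real.sqrt n) =
        K₀ * (1 + g) * (T * Real.sqrt n) + 4 * K₀ * (T * Real.sqrt n) := by ring
    linarith
  have h8 : 0 ≤ T * Real.sqrt n := mul_nonneg (by linarith) hq0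
  calc K₀ * (1 + (g * T + E * Real.log (n + 1))) * (2 * N)
      ≤ (K₀ * (1 + g) + 4 * K₀) * (T * Real.sqrt n) * (2 * N) :=
        mul_le_mul_of_nonneg_right h1 (by positivity)
    _ = (2 * (N : ℝ) * (K₀ * (1 + g) + 4 * K₀)) * (T * Real.sqrt n) := by ring
    _ ≤ s * (T * Real.sqrt n) := mul_le_mul_of_nonneg_right hs1 h8
    _ = s * T * Real.sqrt n := by ring
    _ ≤ Real.sqrt n * Real.sqrt n := mul_le_mul_of_nonneg_right hsT hq0
    _ = n := by rw [← sq, hq2]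

end Pool.Agent.FixLam
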