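import Pool.Agent.FixLam.Grp
import Pool.Agent.FixLam.ThrSq
import Pool.Agent.FixRec.PosFix

/-! The `n`-th term is positive if the sequence frozen at `n` is ultimately positive. -/

set_option autoImplicit false

namespace Pool.Agent.FixLam

open Complex Filter Polynomial Pool.Agent.FixRec
open Pool.Agent.DD7719 Pool.Agent.DD7719.M Pool.Agent.DD7719.M.GS

variable {p : ℕ}

/-- PROOF: the proof of `pos_fixed` (`FixRec/PosFix.lean`) or `up_of_frozen` (`FrozenUP/SubUP.lean`), with the classes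
`n = J + N m`, `J = n % N < N`, `m = n / N` (no lower bound for `J` is needed because the terms are `(P a).eval n * l a ^ n`): `N` from
`exists_common_torsion l`, `Λ` the set of the `N`-th powers, `φ` the inclusion of `F`, `x y = ∑_{a, l a ^ N = y} D0 d ^ N (P a).eval n * l a ^ J`
(`d` a common denominator of the `l a`; algebraic integers because `D0 * (P a).coeff e` and `(d l a) ^ J` are), all conjugates at most
`p * 2 ^ H * d ^ N * (E + 1) 2 ^ H (n + 1) ^ E * G`, so `log B ≤ g (E + H + 1) + E log (n + 1)`. `threshold` and `threshold_sq`; the condition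
on conjugates from `Sym`. -/
theorem pos_lam (l : Fin p → ℂ) (hl : Roots l) (F : IntermediateField ℚ ℂ) (hF : FD F l) :
    ∃ κ : ℕ, ∀ (P : Fin p → ℂ[X]) (E H : ℕ), PB F P E H → Sym l P → ∀ n : ℕ,
      κ * (E + H + 1) ^ 2 ≤ n → UPx l P (n : ℝ) → 0 < (fr l P (n : ℝ) n).re := by
  classical
  obtain ⟨N, hN, htor⟩ := exists_common_torsion l
  have : FiniteDimensional ℚ F := hF.fin
  have : NumberField F := ⟨⟩
  let φ : F →+* ℂ := algebraMap F ℂ
  let lK : Fin p → F := fun i => ⟨l i, hF.hl i⟩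
  have hφl : ∀ i, φ (lK i) = l i := fun _ => rfl
  have hφ : NumberField.ComplexEmbedding.conjugate φ ≠ φ := by
    intro h
    have h1 : φ ⟨Complex.I, hF.hI⟩ = Complex.I := rfl
    have h2 := congrArg (fun f : F →+* ℂ => f ⟨Complex.I, hF.hI⟩) h
    simp only [NumberField.ComplexEmbedding.conjugate_coe_eq, h1, Complex.conj_I] at h2
    have h3 := congrArg Complex.im h2
    simp at h3
    norm_num at h3
  have hlK0 : ∀ i, lK i ≠ 0 := fun i h => hl.ne i (congrArg φ h)
  obtain ⟨si, hsi⟩ : ∃ si : Fin p → Fin p, ∀ i, l (si i) = (starRingEnd ℂ) (l i) :=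
    ⟨fun i => (hl.conj i).choose, fun i => (hl.conj i).choose_spec⟩
  have hsisi : ∀ i, si (si i) = i := by
    intro i
    apply hl.inj
    rw [hsi, hsi, Complex.conj_conj]
  -- the powers
  set Λ : Finset F := Finset.univ.image fun i => lK i ^ N with hΛ
  have hΛmem : ∀ x : Λ, ∃ i, lK i ^ N = x.1 := by
    intro x
    obtain ⟨i, _, hi⟩ := Finset.mem_image.mp x.2
    exact ⟨i, hi⟩
  have hΛ0 : ∀ x : Λ, x.1 ≠ 0 := by
    intro x
    obtain ⟨i, hi⟩ := hΛmem x
    rw [← hi]
    exact pow_ne_zero _ (hlK0 i)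
  have hτex : ∀ x : Λ, ∃ y : Λ, φ y.1 = (starRingEnd ℂ) (φ x.1) := by
    intro x
    obtain ⟨i, hi⟩ := hΛmem x
    refine ⟨⟨lK (si i) ^ N, Finset.mem_image_of_mem _ (Finset.mem_univ _)⟩, ?_⟩
    rw [map_pow, hφl, hsi, ← hi, map_pow, map_pow, hφl]
  choose τ hτ using hτex
  obtain ⟨K₀, hK₀, hthr⟩ := threshold φ hφ (fun x : Λ => x.1) hΛ0
    (by
      intro x y hxy n hn h
      apply hxy
      obtain ⟨i, hi⟩ := hΛmem x
      obtain ⟨j, hj⟩ := hΛmem y
      rw [div_pow, div_eq_one_iff_eq (pow_ne_zero _ (hΛ0 y)), ← hi, ← hj, ← pow_mul,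
        ← pow_mul] at h
      have h1 := congrArg φ h
      rw [map_pow, map_pow, hφl, hφl] at h1
      have h2 := htor i j ⟨N * n, by positivity, h1⟩
      apply Subtype.ext
      rw [← hi, ← hj]
      apply φ.injective
      rw [map_pow, map_pow, hφl, hφl]
      exact h2) τ hτ
  obtain ⟨d, hd, hdint⟩ := exists_denominator (K := F) lK
  have hdR : (1 : ℝ) ≤ d := by exact_mod_cast hd
  -- bound for the conjugates of the powers of the roots
  obtain ⟨G, hG0, hG⟩ : ∃ G : ℝ, 0 ≤ G ∧ ∀ (σ : F →+* ℂ) (i : Fin p) (j : ℕ), j < N →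
      ‖σ (lK i) ^ j‖ ≤ G := by
    refine ⟨∑ σ : F →+* ℂ, ∑ i : Fin p, ∑ j ∈ Finset.range N, ‖σ (lK i) ^ j‖, by positivity, ?_⟩
    intro σ i j hj
    have h1 : ‖σ (lK i) ^ j‖ ≤ ∑ j ∈ Finset.range N, ‖σ (lK i) ^ j‖ :=
      Finset.single_le_sum (f := fun j => ‖σ (lK i) ^ j‖) (fun _ _ => norm_nonneg _)
        (Finset.mem_range.2 hj)
    have h2 : ∑ j ∈ Finset.range N, ‖σ (lK i) ^ j‖ ≤
        ∑ i : Fin p, ∑ j ∈ Finset.range N, ‖σ (lK i) ^ j‖ :=
      Finset.single_le_sum (f := fun i => ∑ j ∈ Finset.range N, ‖σ (lK i) ^ j‖)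
        (fun _ _ => Finset.sum_nonneg fun _ _ => norm_nonneg _) (Finset.mem_univ i)
    have h3 : ∑ i : Fin p, ∑ j ∈ Finset.range N, ‖σ (lK i) ^ j‖ ≤
        ∑ σ : F →+* ℂ, ∑ i : Fin p, ∑ j ∈ Finset.range N, ‖σ (lK i) ^ j‖ :=
      Finset.single_le_sum (f := fun σ : F →+* ℂ => ∑ i : Fin p, ∑ j ∈ Finset.range N,
        ‖σ (lK i) ^ j‖) (fun _ _ => Finset.sum_nonneg fun _ _ => Finset.sum_nonneg
          fun _ _ => norm_nonneg _) (Finset.mem_univ σ)
    exact h1.trans (h2.trans h3)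
  have hlog4 : 0 < Real.log 4 := Real.log_pos (by norm_num)
  have hpR : (0 : ℝ) ≤ p := Nat.cast_nonneg p
  set W : ℝ := (1 + p) * (d : ℝ) ^ N * (1 + G) with hW
  have hdN : (1 : ℝ) ≤ (d : ℝ) ^ N := one_le_pow₀ hdR
  have hW1 : 1 ≤ W := by
    have h1 : (1 : ℝ) ≤ (1 + p) * (d : ℝ) ^ N := by nlinarith
    rw [hW]
    nlinarith
  have hWlog : 0 ≤ Real.log W := Real.log_nonneg hW1
  set gg : ℝ := Real.log W + 1 + Real.log 4 with hgg
  obtain ⟨κ, hκ⟩ := threshold_sq K₀ gg hK₀ (by positivity) N hN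
  refine ⟨κ, fun P E H hP hsym n hn h => ?_⟩
  obtain ⟨D0, hD0, hD0le, hD0int⟩ := hP.den
  -- the values of the polynomials
  let eK : Fin p → F := fun i => ∑ e ∈ Finset.range (E + 1),
    (⟨(P i).coeff e, hP.mem i e⟩ : F) * (n : F) ^ e
  have heK : ∀ i, φ (eK i) = (P i).eval ((n : ℝ) : ℂ) := by
    intro i
    rw [map_sum, Polynomial.eval_eq_sum_range' (Nat.lt_succ_of_le (hP.deg i))]
    refine Finset.sum_congr rfl fun e _ => ?_
    rw [map_mul, map_pow, map_natCast, Complex.ofReal_natCast]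
    rfl
  have hbound : ∀ (σ : F →+* ℂ) i, ‖σ (eK i)‖ ≤ (E + 1) * (2 ^ H * ((n : ℝ) + 1) ^ E) := by
    intro σ i
    rw [map_sum]
    refine (norm_sum_le _ _).trans ?_
    have h1 : ∀ e ∈ Finset.range (E + 1),
        ‖σ ((⟨(P i).coeff e, hP.mem i e⟩ : F) * (n : F) ^ e)‖ ≤ 2 ^ H * ((n : ℝ) + 1) ^ E := by
      intro e he
      rw [map_mul, map_pow, map_natCast, norm_mul, norm_pow, Complex.norm_natCast]
      have h2 := hP.size i e (hP.mem i e) σ.toRatAlgHom
      have h3 : σ.toRatAlgHom ⟨(P i).coeff e, hP.mem i e⟩ =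
        σ ⟨(P i).coeff e, hP.mem i e⟩ := rfl
      rw [h3] at h2
      refine mul_le_mul h2 ?_ (by positivity) (by positivity)
      have hn0 : (0 : ℝ) ≤ n := Nat.cast_nonneg n
      calc (n : ℝ) ^ e ≤ ((n : ℝ) + 1) ^ e := by gcongr; linarith
        _ ≤ ((n : ℝ) + 1) ^ E := pow_le_pow_right₀ (by linarith)
            (Nat.lt_succ_iff.1 (Finset.mem_range.1 he))
    refine (Finset.sum_le_sum h1).trans ?_
    rw [Finset.sum_const, Finset.card_range, nsmul_eq_mul]
    push_cast
    exact le_rfl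
  -- the residue class
  set J : ℕ := n % N with hJ
  set m : ℕ := n / N with hm
  have hJN : J < N := Nat.mod_lt _ hN
  have hnJ : n = J + N * m := (Nat.mod_add_div n N).symm
  have hgint : ∀ i, IsIntegral ℤ (((D0 : F) * eK i) * ((d : F) ^ N * lK i ^ J)) := by
    intro i
    refine IsIntegral.mul ?_ ?_
    · have h1 : (D0 : F) * eK i = ∑ e ∈ Finset.range (E + 1),
          ((D0 : F) * (⟨(P i).coeff e, hP.mem i e⟩ : F)) * (n : F) ^ e := by
        show (D0 : F) * ∑ e ∈ Finset.range (E + 1), _ = _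
        rw [Finset.mul_sum]
        refine Finset.sum_congr rfl fun e _ => ?_
        ring
      rw [h1]
      refine IsIntegral.sum _ fun e _ => ?_
      refine IsIntegral.mul ?_ ((isIntegral_algebraMap (R := ℤ) (x := (n : ℤ))).pow e |> fun h => by
        simpa using h)
      have h2 : IsIntegral ℤ (algebraMap F ℂ ((D0 : F) * (⟨(P i).coeff e, hP.mem i e⟩ : F))) := by
        have h3 := hD0int i e
        have h4 : algebraMap F ℂ ((D0 : F) * (⟨(P i).coeff e, hP.mem i e⟩ : F)) =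
            (D0 : ℂ) * (P i).coeff e := by
          rw [map_mul, map_natCast]
          rfl
        rw [h4]
        exact h3
      exact (isIntegral_algebraMap_iff (algebraMap F ℂ).injective).1 h2
    · have h1 : (d : F) ^ N * lK i ^ J = (d : F) ^ (N - J) * ((d : F) * lK i) ^ J := by
        rw [mul_pow, ← mul_assoc, ← pow_add, Nat.sub_add_cancel hJN.le]
      rw [h1]
      refine IsIntegral.mul ?_ ((hdint i).pow J)
      have h2 : IsIntegral ℤ ((d : F)) := by
        have h3 := isIntegral_algebraMap (R := ℤ) (A := F) (x := (d : ℤ))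
        simpa using h3
      exact h2.pow _
  let g : Fin p → NumberField.RingOfIntegers F := fun i => ⟨_, hgint i⟩
  have hgK : ∀ i, ((g i : NumberField.RingOfIntegers F) : F) =
      ((D0 : F) * eK i) * ((d : F) ^ N * lK i ^ J) := fun i => rfl
  set q₀ : ℝ := (D0 : ℝ) * (d : ℝ) ^ N with hq₀
  have hq₀R : 0 < q₀ := by
    have : (0 : ℝ) < D0 := by exact_mod_cast hD0
    positivity
  have hφg : ∀ i, φ (g i : F) = (q₀ : ℂ) * ((P i).eval ((n : ℝ) : ℂ) * l i ^ J) := by
    intro i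
    rw [hgK, map_mul, map_mul, map_mul, map_pow, map_pow, map_natCast, map_natCast, heK, hφl, hq₀]
    push_cast
    ring
  have hgle : ∀ i (σ : F →+* ℂ), ‖σ (g i : F)‖ ≤
      2 ^ H * ((E + 1) * (2 ^ H * ((n : ℝ) + 1) ^ E)) * ((d : ℝ) ^ N * G) := by
    intro i σ
    rw [hgK, map_mul, map_mul, map_mul, map_pow, map_pow, map_natCast, map_natCast, norm_mul,
      norm_mul, norm_mul, norm_pow, Complex.norm_natCast, Complex.norm_natCast]
    have h3 : (D0 : ℝ) ≤ 2 ^ H := by exact_mod_cast hD0le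
    refine mul_le_mul (mul_le_mul h3 (hbound σ i) (norm_nonneg _) (by positivity))
      (mul_le_mul_of_nonneg_left (hG σ i J hJN) (by positivity)) (by positivity) (by positivity)
  set x : Λ → NumberField.RingOfIntegers F := fun y => ∑ i with lK i ^ N = y.1, g i with hx
  have hxK : ∀ y : Λ, (x y : F) = ∑ i with lK i ^ N = y.1, (g i : F) := by
    intro y
    simp only [hx]
    push_cast
    rfl
  have hφx : ∀ y : Λ, φ (x y : F) =
      (q₀ : ℂ) * ∑ i with l i ^ N = φ y.1, (P i).eval ((n : ℝ) : ℂ) * l i ^ J := by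
    intro y
    rw [hxK, map_sum, Finset.mul_sum]
    have hset : (Finset.univ.filter fun i => lK i ^ N = y.1) =
        (Finset.univ.filter fun i => l i ^ N = φ y.1) := by
      ext i
      simp only [Finset.mem_filter, Finset.mem_univ, true_and]
      rw [← hφl i, ← map_pow]
      exact φ.injective.eq_iff.symm
    rw [hset]
    exact Finset.sum_congr rfl fun i _ => hφg i
  have hsum : ∀ m' : ℕ, φ (∑ y : Λ, (x y : F) * y.1 ^ m') =
      (q₀ : ℂ) * fr l P (n : ℝ) (J + N * m') := by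
    intro m'
    have e1 : ∑ y : Λ, (x y : F) * y.1 ^ m' = ∑ i, (g i : F) * (lK i ^ N) ^ m' := by
      have e2 : ∑ y : Λ, (x y : F) * y.1 ^ m' =
          ∑ y ∈ Λ, (∑ i with lK i ^ N = y, (g i : F)) * y ^ m' := by
        rw [← Finset.sum_coe_sort Λ (fun y => (∑ i with lK i ^ N = y, (g i : F)) * y ^ m')]
        exact Finset.sum_congr rfl fun y _ => by rw [hxK]
      rw [e2, ← Finset.sum_fiberwise_of_maps_to (s := Finset.univ) (t := Λ) (g := fun i => lK i ^ N)
        (fun i _ => Finset.mem_image_of_mem _ (Finset.mem_univ i))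
        (fun i => (g i : F) * (lK i ^ N) ^ m')]
      refine Finset.sum_congr rfl fun y _ => ?_
      rw [Finset.sum_mul]
      refine Finset.sum_congr rfl fun i hi => ?_
      rw [(Finset.mem_filter.1 hi).2]
    rw [e1, map_sum, fr, Finset.mul_sum]
    refine Finset.sum_congr rfl fun i _ => ?_
    rw [map_mul, map_pow, map_pow, hφg, hφl, pow_add, pow_mul]
    ring
  set B : ℝ := W * 4 ^ H * (E + 1) * ((n : ℝ) + 1) ^ E with hB
  have hn0 : (0 : ℝ) ≤ n := Nat.cast_nonneg n
  have hn1 : (1 : ℝ) ≤ ((n : ℝ) + 1) ^ E := one_le_pow₀ (by linarith)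
  have h4H : (1 : ℝ) ≤ 4 ^ H := one_le_pow₀ (by norm_num)
  have hE0 : (0 : ℝ) ≤ E := Nat.cast_nonneg E
  have hH0 : (0 : ℝ) ≤ H := Nat.cast_nonneg H
  have hW4 : 1 ≤ W * 4 ^ H := by nlinarith
  have hW4E : 1 ≤ W * 4 ^ H * (E + 1) := by nlinarith
  have hB1 : 1 ≤ B := by
    rw [hB]
    nlinarith
  have hBlog : Real.log B ≤ gg * (E + H + 1) + E * Real.log ((n : ℝ) + 1) := by
    rw [hB, Real.log_mul (by linarith) (by linarith), Real.log_mul (by linarith) (by linarith),
      Real.log_mul (by linarith) (by linarith), Real.log_pow, Real.log_pow]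
    have h2 : Real.log ((E : ℝ) + 1) ≤ E := by
      have h3 := Real.log_le_sub_one_of_pos (show (0 : ℝ) < E + 1 by linarith)
      linarith
    have h5 : Real.log W ≤ Real.log W * (E + H + 1) := by nlinarith
    have h6 : (H : ℝ) * Real.log 4 ≤ Real.log 4 * (E + H + 1) := by nlinarith
    have h7 : (E : ℝ) ≤ E + H + 1 := by linarith
    have h8 : gg * (E + H + 1) = Real.log W * (E + H + 1) + (E + H + 1) +
        Real.log 4 * (E + H + 1) := by
      rw [hgg]
      ring
    rw [h8]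
    linarith
  have h1 := hthr x B hB1 (by
    intro σ y
    rw [hxK, map_sum]
    refine (norm_sum_le _ _).trans ?_
    refine (Finset.sum_le_sum fun i _ => hgle i σ).trans ?_
    rw [Finset.sum_const, nsmul_eq_mul]
    have h4 : ((Finset.univ.filter fun i => lK i ^ N = y.1).card : ℝ) ≤ p := by
      have := (Finset.univ.filter fun i => lK i ^ N = y.1).card_le_univ
      rw [Fintype.card_fin] at this
      exact_mod_cast this
    have h6 : (2 : ℝ) ^ H * 2 ^ H = 4 ^ H := by
      rw [← mul_pow]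
      norm_num
    have h5 : 2 ^ H * (((E : ℝ) + 1) * (2 ^ H * ((n : ℝ) + 1) ^ E)) * ((d : ℝ) ^ N * G) =
        ((d : ℝ) ^ N * G) * (4 ^ H * (E + 1) * ((n : ℝ) + 1) ^ E) := by
      rw [← h6]
      ring
    rw [h5]
    have h7 : B = W * (4 ^ H * (E + 1) * ((n : ℝ) + 1) ^ E) := by
      rw [hB]
      ring
    rw [h7, ← mul_assoc]
    refine mul_le_mul_of_nonneg_right ?_ (by positivity)
    calc ((Finset.univ.filter fun i => lK i ^ N = y.1).card : ℝ) * ((d : ℝ) ^ N * G)
        ≤ p * ((d : ℝ) ^ N * G) := mul_le_mul_of_nonneg_right h4 (by positivity)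
      _ ≤ W := by
          rw [hW]
          have h8 : 0 ≤ (d : ℝ) ^ N := by positivity
          nlinarith [mul_nonneg h8 hG0, mul_nonneg hpR h8]) (by
    intro y
    rw [hφx, hφx, map_mul, Complex.conj_ofReal, map_sum]
    congr 1
    refine Finset.sum_nbij' si si ?_ ?_ ?_ ?_ ?_
    · intro i hi
      rw [Finset.mem_filter] at hi ⊢
      refine ⟨Finset.mem_univ _, ?_⟩
      rw [hsi, ← map_pow, hi.2, hτ, Complex.conj_conj]
    · intro i hi
      rw [Finset.mem_filter] at hi ⊢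
      refine ⟨Finset.mem_univ _, ?_⟩
      rw [hsi, ← map_pow, hi.2, hτ]
    · intro i _
      exact hsisi i
    · intro i _
      exact hsisi i
    · intro i _
      have h3 : (starRingEnd ℂ) ((P (si i)).eval ((n : ℝ) : ℂ)) = (P i).eval ((n : ℝ) : ℂ) := by
        have h4 := hsym (si i) i (by rw [hsi, Complex.conj_conj])
        rw [h4, ← Complex.conj_ofReal (n : ℝ), Polynomial.eval_map, Polynomial.eval₂_at_apply,
          Complex.conj_ofReal]
      rw [map_mul, map_pow, h3, hsi, Complex.conj_conj]) (by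
    obtain ⟨M, hM⟩ := h
    refine ⟨M, fun m' hm' => ?_⟩
    rw [hsum]
    have h3 := hM (J + N * m') (by nlinarith)
    rw [Complex.re_ofReal_mul]
    positivity) m (by
    refine le_trans ?_ (hκ E H n hn)
    refine mul_le_mul_of_nonneg_left ?_ hK₀.le
    linarith)
  rw [hsum, ← hnJ, Complex.re_ofReal_mul] at h1
  exact (mul_pos_iff_of_pos_left hq₀R).mp h1

end Pool.Agent.FixLam
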