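import Pool.Agent.FixLam.RootU
import Pool.Agent.FrozenUP.GapSeven

/-! Sizes of the coefficients of the level functions. -/

set_option autoImplicit false

namespace Pool.Agent.FixLam

open Complex Polynomial Pool.Agent.FixRec

variable {p : ℕ}

/-- A complex number algebraic over `ℚ` has a positive denominator. -/
private theorem lev_den1_Lev (x : ℂ) (hx : IsAlgebraic ℚ x) :
    ∃ e : ℕ, 0 < e ∧ IsIntegral ℤ ((e : ℂ) * x) := by
  have h2 : IsAlgebraic ℤ x := (IsFractionRing.isAlgebraic_iff ℤ ℚ ℂ).mpr hx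
  obtain ⟨y, hy, hy'⟩ := h2.exists_integral_multiple
  refine ⟨y.natAbs, Int.natAbs_pos.mpr hy, ?_⟩
  have h4 : IsIntegral ℤ ((y : ℂ) * x) := by simpa [zsmul_eq_mul] using hy'
  rcases Int.natAbs_eq y with h5 | h5
  · have h6 : ((y.natAbs : ℕ) : ℂ) = (y : ℂ) := by
      conv_rhs => rw [h5]
      simp
    rw [h6]; exact h4
  · have h6 : ((y.natAbs : ℕ) : ℂ) = -(y : ℂ) := by
      conv_rhs => rw [h5]
      simp
    rw [h6, neg_mul]; exact h4.neg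

/-- A common positive denominator. -/
private theorem lev_den_Lev {k : ℕ} (l : Fin k → ℂ) (hal : ∀ i, IsAlgebraic ℚ (l i)) :
    ∃ d : ℕ, 0 < d ∧ ∀ i, IsIntegral ℤ ((d : ℂ) * l i) := by
  classical
  choose e he hei using fun i => lev_den1_Lev (l i) (hal i)
  refine ⟨∏ J, e J, Finset.prod_pos fun J _ => he J, fun J => ?_⟩
  rw [← Finset.mul_prod_erase _ _ (Finset.mem_univ J)]
  have h7 : (((e J * ∏ x ∈ Finset.univ.erase J, e x : ℕ)) : ℂ) * l J =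
      ((∏ x ∈ Finset.univ.erase J, e x : ℕ) : ℂ) * ((e J : ℂ) * l J) := by
    push_cast; ring
  rw [h7]
  refine IsIntegral.mul ?_ (hei J)
  have := isIntegral_algebraMap (R := ℤ) (A := ℂ)
    (x := ((∏ x ∈ Finset.univ.erase J, e x : ℕ) : ℤ))
  simpa using this

/-- `d ^ J * x ^ e` is integral when `d * x` is and `e ≤ J`. -/
private theorem lev_int_Lev (x : ℂ) (d : ℕ) (h : IsIntegral ℤ ((d : ℂ) * x)) {e J : ℕ}
    (he : e ≤ J) :
    IsIntegral ℤ ((d : ℂ) ^ J * x ^ e) := by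
  have h1 : (d : ℂ) ^ J * x ^ e = (d : ℂ) ^ (J - e) * ((d : ℂ) * x) ^ e := by
    rw [mul_pow, ← mul_assoc, ← pow_add, Nat.sub_add_cancel he]
  rw [h1]
  refine IsIntegral.mul (IsIntegral.pow ?_ _) (h.pow _)
  have := isIntegral_algebraMap (R := ℤ) (A := ℂ) (x := (d : ℤ))
  simpa using this

open scoped Classical in
/-- PROOF: as `CB_pw` (`FixRec/Pw.lean`): `d > 0` a common denominator of the `l a`, `G` a bound for all conjugates of all
`l a ^ j`, `j ≤ J`; `D0' = D0 * d ^ J`, `2 ^ m ≥ d ^ J, G`. -/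
theorem exists_levL (l : Fin p → ℂ) (F : IntermediateField ℚ ℂ) (hF : FD F l) (J : ℕ) :
    ∃ m : ℕ, ∀ (P : Fin p → ℂ[X]) (E H : ℕ), PB F P E H → ∀ j ≤ J, ∀ ρ : ℝ,
      ∃ (cc : Fin p → ℕ → F) (D0 : ℕ), 0 < D0 ∧ D0 ≤ 2 ^ (H + m) ∧
        (∀ a e, (cc a e : ℂ) = if ‖l a‖ = ρ then (P a).coeff e * l a ^ j else 0) ∧
        (∀ a e, IsIntegral ℤ ((D0 : ℂ) * (cc a e : ℂ))) ∧
        ∀ a e, ∀ φ : F →ₐ[ℚ] ℂ, ‖φ (cc a e)‖ ≤ 2 ^ (H + m) := by
  have := hF.fin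
  have hal : ∀ i, IsAlgebraic ℚ (l i) := fun i => by
    have h1 : IsAlgebraic ℚ (⟨l i, hF.hl i⟩ : F) := Algebra.IsAlgebraic.isAlgebraic _
    exact (isAlgebraic_algebraMap_iff (A := ℂ) (FaithfulSMul.algebraMap_injective F ℂ)).mpr h1
  obtain ⟨d, hd, hdi⟩ := lev_den_Lev l hal
  have : Finite (F →ₐ[ℚ] ℂ) := inferInstance
  have := Fintype.ofFinite (F →ₐ[ℚ] ℂ)
  set G : ℝ := ∑ φ : (F →ₐ[ℚ] ℂ), ∑ i, ∑ e ∈ Finset.range (J + 1),
    ‖φ (⟨l i, hF.hl i⟩ : F)‖ ^ e with hG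
  have hGb : ∀ (φ : F →ₐ[ℚ] ℂ) (i : Fin p) (e : ℕ), e ≤ J →
      ‖φ (⟨l i, hF.hl i⟩ : F)‖ ^ e ≤ G := by
    intro φ i e he
    have h3 : ‖φ (⟨l i, hF.hl i⟩ : F)‖ ^ e ≤
        ∑ e ∈ Finset.range (J + 1), ‖φ (⟨l i, hF.hl i⟩ : F)‖ ^ e :=
      Finset.single_le_sum (f := fun e => ‖φ (⟨l i, hF.hl i⟩ : F)‖ ^ e)
        (fun _ _ => by positivity) (Finset.mem_range.mpr (by omega))
    have h2 : (∑ e ∈ Finset.range (J + 1), ‖φ (⟨l i, hF.hl i⟩ : F)‖ ^ e) ≤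
        ∑ i, ∑ e ∈ Finset.range (J + 1), ‖φ (⟨l i, hF.hl i⟩ : F)‖ ^ e :=
      Finset.single_le_sum
        (f := fun i => ∑ e ∈ Finset.range (J + 1), ‖φ (⟨l i, hF.hl i⟩ : F)‖ ^ e)
        (fun _ _ => by positivity) (Finset.mem_univ i)
    have h1 : (∑ i, ∑ e ∈ Finset.range (J + 1), ‖φ (⟨l i, hF.hl i⟩ : F)‖ ^ e) ≤ G :=
      Finset.single_le_sum
        (f := fun φ : (F →ₐ[ℚ] ℂ) => ∑ i, ∑ e ∈ Finset.range (J + 1),
          ‖φ (⟨l i, hF.hl i⟩ : F)‖ ^ e)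
        (fun _ _ => by positivity) (Finset.mem_univ φ)
    exact h3.trans (h2.trans h1)
  obtain ⟨m1, hm1⟩ := pow_unbounded_of_one_lt G (one_lt_two : (1 : ℝ) < 2)
  obtain ⟨m2, hm2⟩ := pow_unbounded_of_one_lt (((d ^ J : ℕ)) : ℝ) (one_lt_two : (1 : ℝ) < 2)
  refine ⟨m1 + m2, fun P E H hP j hj ρ => ?_⟩
  obtain ⟨-, hmem, ⟨D0, hD0, hD0H, hD0i⟩, hsize⟩ := hP
  refine ⟨fun a e => if ‖l a‖ = ρ then ⟨(P a).coeff e, hmem a e⟩ * (⟨l a, hF.hl a⟩ : F) ^ j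
    else 0, D0 * d ^ J, ?_, ?_, ?_, ?_, ?_⟩
  · positivity
  · have h1 : d ^ J ≤ 2 ^ m2 := by
      have : ((d ^ J : ℕ) : ℝ) ≤ ((2 ^ m2 : ℕ) : ℝ) := by
        push_cast; push_cast at hm2; exact hm2.le
      exact_mod_cast this
    calc D0 * d ^ J ≤ 2 ^ H * 2 ^ m2 := Nat.mul_le_mul hD0H h1
      _ = 2 ^ (H + m2) := by rw [pow_add]
      _ ≤ 2 ^ (H + (m1 + m2)) := Nat.pow_le_pow_right (by norm_num) (by omega)
  · intro a e
    dsimp only
    split_ifs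
    · rfl
    · rfl
  · intro a e
    dsimp only
    split_ifs
    · have h1 : (((D0 * d ^ J : ℕ)) : ℂ) * ((P a).coeff e * l a ^ j) =
          ((D0 : ℂ) * (P a).coeff e) * ((d : ℂ) ^ J * l a ^ j) := by
        push_cast; ring
      show IsIntegral ℤ ((((D0 * d ^ J : ℕ)) : ℂ) * ((P a).coeff e * l a ^ j))
      rw [h1]
      exact (hD0i a e).mul (lev_int_Lev _ d (hdi a) hj)
    · show IsIntegral ℤ ((((D0 * d ^ J : ℕ)) : ℂ) * 0)
      rw [mul_zero]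
      exact isIntegral_zero
  · intro a e φ
    dsimp only
    split_ifs
    · rw [map_mul, map_pow, norm_mul, norm_pow]
      calc ‖φ ⟨(P a).coeff e, hmem a e⟩‖ * ‖φ (⟨l a, hF.hl a⟩ : F)‖ ^ j
          ≤ 2 ^ H * 2 ^ m1 :=
            mul_le_mul (hsize a e (hmem a e) φ) ((hGb φ a _ hj).trans hm1.le)
              (by positivity) (by positivity)
        _ = 2 ^ (H + m1) := by rw [pow_add]
        _ ≤ 2 ^ (H + (m1 + m2)) := pow_le_pow_right₀ (by norm_num) (by omega)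
    · rw [map_zero, norm_zero]
      positivity

/-- PROOF: `poly_root_boundU`: the coefficients of `gQ l P n0 j (l a ^ n0)` are sums of at most `p` of the numbers
`(P b).coeff e * l b ^ j`, `l b ^ n0 = l a ^ n0` (then `‖l b‖ = ‖l a‖`, `norm_eq_of_pow_eq`), so `exists_levL` with `ρ = ‖l a‖` gives
membership, denominators and sizes `p * 2 ^ (H + m) ≤ 2 ^ (H + m + p)`. -/
theorem gQ_root_bound (l : Fin p → ℂ) (F : IntermediateField ℚ ℂ) (hF : FD F l) (n0 J : ℕ)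
    (hn0 : 0 < n0) :
    ∃ κ : ℕ, ∀ (P : Fin p → ℂ[X]) (E H : ℕ), PB F P E H → ∀ j ≤ J, ∀ a : Fin p, ∀ x : ℝ,
      (2 : ℝ) ^ (κ * (H + 1)) ≤ x → (gQ l P n0 j (l a ^ n0)).eval (x : ℂ) = 0 →
      gQ l P n0 j (l a ^ n0) = 0 := by
  classical
  have := hF.fin
  obtain ⟨m, hm⟩ := exists_levL l F hF J
  obtain ⟨κ0, hκ0⟩ := poly_root_boundU F
  refine ⟨κ0 * (m + p + 1), fun P E H hP j hj a x hx h0 => ?_⟩
  obtain ⟨cc, D0, hD0, hD1, hcc, hint, hsz⟩ := hm P E H hP j hj ‖l a‖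
  have hcoef : ∀ e, (gQ l P n0 j (l a ^ n0)).coeff e =
      ∑ b with l b ^ n0 = l a ^ n0, (cc b e : ℂ) := by
    intro e
    rw [gQ, Polynomial.finsetSum_coeff]
    refine Finset.sum_congr (by ext b; simp) fun b hb => ?_
    rw [Finset.mem_filter] at hb
    rw [Polynomial.coeff_C_mul, hcc,
      if_pos (Pool.Agent.DD7719.M.GS.norm_eq_of_pow_eq hn0 hb.2)]
    ring
  have hcoef' : ∀ e (h : (gQ l P n0 j (l a ^ n0)).coeff e ∈ F),
      (⟨_, h⟩ : F) = ∑ b with l b ^ n0 = l a ^ n0, cc b e := by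
    intro e h
    apply Subtype.ext
    rw [AddSubmonoidClass.coe_finsetSum]
    exact hcoef e
  refine hκ0 (H + m + p) D0 _ hD0 ?_ ?_ ?_ ?_ x ?_ h0
  · exact hD1.trans (Nat.pow_le_pow_right (by norm_num) (by omega))
  · intro e
    rw [hcoef]
    exact sum_mem fun b _ => (cc b e).2
  · intro e
    rw [hcoef, Finset.mul_sum]
    exact IsIntegral.sum _ fun b _ => hint b e
  · intro e h φ
    rw [hcoef' e h, map_sum]
    refine (norm_sum_le _ _).trans ?_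
    refine (Finset.sum_le_sum fun b _ => hsz b e φ).trans ?_
    rw [Finset.sum_const, nsmul_eq_mul, pow_add (2 : ℝ) (H + m) p, mul_comm]
    refine mul_le_mul_of_nonneg_left ?_ (by positivity)
    have h1 : (Finset.univ.filter fun b => l b ^ n0 = l a ^ n0).card ≤ p := by
      refine (Finset.card_le_univ _).trans ?_
      simp
    have h2 : (p : ℝ) ≤ 2 ^ p := by
      exact_mod_cast (Nat.lt_two_pow_self (n := p)).le
    exact (Nat.cast_le.2 h1).trans h2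
  · refine le_trans (pow_le_pow_right₀ (by norm_num) ?_) hx
    have : H + m + p + 1 ≤ (m + p + 1) * (H + 1) := by nlinarith
    calc κ0 * (H + m + p + 1) ≤ κ0 * ((m + p + 1) * (H + 1)) := Nat.mul_le_mul_left _ this
      _ = κ0 * (m + p + 1) * (H + 1) := by ring

end Pool.Agent.FixLam
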