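import Pool.Agent.FixLam.Grp
import Pool.Agent.FixRec.Lim

/-! The level functions are nonnegative for large parameters. -/

set_option autoImplicit false

namespace Pool.Agent.FixLam

open Complex Filter Topology Polynomial Pool.Agent.FixRec
open Pool.Agent.DD7719 Pool.Agent.DD7719.M Pool.Agent.DD7719.M.GS

variable {p : ℕ}

open scoped Classical in
/-- the frozen sequence divided by a power of `ρ` -/
private lemma fr_scaled_Lim (l : Fin p → ℂ) (P : Fin p → ℂ[X]) (n0 j : ℕ) (hn0 : 0 < n0)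
    (ρ : ℝ) (hρ : 0 < ρ) (hg : ∀ a, ρ < ‖l a‖ → gQ l P n0 j (l a ^ n0) = 0) (x : ℝ) (m : ℕ) :
    fr l P x (j + n0 * m) = ((ρ ^ (n0 * m) : ℝ) : ℂ) *
      ∑ a, (if ρ < ‖l a‖ then 0 else (P a).eval (x : ℂ) * l a ^ j *
        ((l a / (ρ : ℂ)) ^ n0) ^ m) := by
  have hinv : ∀ a b, l a ^ n0 = l b ^ n0 → ρ < ‖l a‖ → ρ < ‖l b‖ := by
    intro a b h h1
    have h2 : ‖l a‖ ^ n0 = ‖l b‖ ^ n0 := by rw [← norm_pow, h, norm_pow]
    rwa [← pow_left_injective₀_Lim hn0 (norm_nonneg _) (norm_nonneg _) h2]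
  have h1 := sum_zero_of_gQ l P n0 j (fun a => ρ < ‖l a‖) hinv hg (x : ℂ) m
  have hρc : (ρ : ℂ) ≠ 0 := by exact_mod_cast hρ.ne'
  have h3 : fr l P x (j + n0 * m) = ∑ a, ((if ρ < ‖l a‖ then
      (P a).eval (x : ℂ) * l a ^ (j + n0 * m) else 0) +
      (if ρ < ‖l a‖ then 0 else (P a).eval (x : ℂ) * l a ^ (j + n0 * m))) := by
    unfold fr
    refine Finset.sum_congr rfl fun a _ => ?_
    split_ifs
    · rw [add_zero]
    · rw [zero_add]
  rw [h3, Finset.sum_add_distrib, h1, zero_add, Finset.mul_sum]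
  refine Finset.sum_congr rfl fun a _ => ?_
  split_ifs
  · rw [mul_zero]
  · have h4 : (l a ^ n0) ^ m = ((ρ ^ (n0 * m) : ℝ) : ℂ) * ((l a / (ρ : ℂ)) ^ n0) ^ m := by
      push_cast
      rw [← pow_mul, ← pow_mul, ← mul_pow, mul_div_cancel₀ _ hρc]
    rw [pow_add, pow_mul, h4]
    ring
where
  pow_left_injective₀_Lim {n0 : ℕ} (hn0 : 0 < n0) {a b : ℝ} (ha : 0 ≤ a) (hb : 0 ≤ b)
      (h : a ^ n0 = b ^ n0) : a = b := (pow_left_inj₀ ha hb hn0.ne').mp h

open scoped Classical in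
private lemma nonneg_rat_Lim (l : Fin p → ℂ) (P : Fin p → ℂ[X]) (n0 j : ℕ) (hn0 : 0 < n0)
    (ρ : ℝ) (hρ : 0 < ρ) (hg : ∀ a, ρ < ‖l a‖ → gQ l P n0 j (l a ^ n0) = 0) (x : ℝ)
    (hup : UPx l P x) (w : Fin p → ℂ) (hw : w ∈ Tor0 (fun a => nz (l a) ^ n0)) :
    0 ≤ (∑ a, (if ‖l a‖ = ρ then (P a).eval (x : ℂ) * l a ^ j * w a else 0)).re := by
  obtain ⟨hw1, hw2⟩ := hw
  have hkr : ∀ t : ℕ, ∃ m : ℕ, t ≤ m ∧ ∀ a, ‖(nz (l a) ^ n0) ^ (1 * m) - w a‖ <
      1 / ((t : ℝ) + 1) := by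
    intro t
    refine kronecker (fun a => nz (l a) ^ n0) w (fun a => ?_) hw1 (fun g hgg => hw2 g hgg) 1
      one_pos t _ (by positivity)
    rw [norm_pow, norm_nz, one_pow]
  choose m hm1 hm2 using hkr
  have hmt : Tendsto m atTop atTop := tendsto_atTop_mono hm1 tendsto_id
  have hρc : (ρ : ℂ) ≠ 0 := by exact_mod_cast hρ.ne'
  have hlim : Tendsto (fun t => ∑ a, (if ρ < ‖l a‖ then 0 else
      (P a).eval (x : ℂ) * l a ^ j * ((l a / (ρ : ℂ)) ^ n0) ^ (m t)))
      atTop (𝓝 (∑ a, (if ‖l a‖ = ρ then (P a).eval (x : ℂ) * l a ^ j * w a else 0))) := by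
    refine tendsto_finsetSum _ fun a _ => ?_
    by_cases h1 : ρ < ‖l a‖
    · have h2 : ‖l a‖ ≠ ρ := h1.ne'
      simp only [if_pos h1, if_neg h2]
      exact tendsto_const_nhds
    · simp only [if_neg h1]
      by_cases h2 : ‖l a‖ = ρ
      · simp only [if_pos h2]
        refine tendsto_const_nhds.mul ?_
        have h3 : l a / (ρ : ℂ) = nz (l a) := by
          rw [div_eq_iff hρc, mul_comm, ← h2, nz_mul_norm]
        rw [h3]
        rw [tendsto_iff_norm_sub_tendsto_zero]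
        refine squeeze_zero (fun t => norm_nonneg _) (fun t => ?_)
          tendsto_one_div_add_atTop_nhds_zero_nat
        have h4 := hm2 t a
        rw [one_mul] at h4
        exact h4.le
      · simp only [if_neg h2]
        have h3 : ‖l a‖ < ρ := lt_of_le_of_ne (not_lt.mp h1) h2
        have h4 : ‖(l a / (ρ : ℂ)) ^ n0‖ < 1 := by
          rw [norm_pow, norm_div, Complex.norm_real, Real.norm_of_nonneg hρ.le]
          exact pow_lt_one₀ (by positivity) ((div_lt_one hρ).mpr h3) hn0.ne'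
        have h5 := (tendsto_pow_atTop_nhds_zero_of_norm_lt_one h4).comp hmt
        have h6 := h5.const_mul ((P a).eval (x : ℂ) * l a ^ j)
        rw [mul_zero] at h6
        exact h6
  have hre := (Complex.continuous_re.tendsto _).comp hlim
  refine ge_of_tendsto hre ?_
  obtain ⟨N, hN⟩ := hup
  filter_upwards [eventually_ge_atTop N] with t ht
  have h1 : N ≤ j + n0 * m t := by
    have h2 : m t ≤ n0 * m t := Nat.le_mul_of_pos_left _ hn0
    have h3 := hm1 t
    omega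
  have h2 := hN _ h1
  rw [fr_scaled_Lim l P n0 j hn0 ρ hρ hg x (m t), Complex.re_ofReal_mul] at h2
  have h3 : (0 : ℝ) < ρ ^ (n0 * m t) := by positivity
  exact ((mul_pos_iff_of_pos_left h3).mp h2).le

open scoped Classical in
/-- PROOF: as `nonneg_of_frozen` (`FixRec/Lim.lean`), with `(P a).eval x` instead of the coefficients and binomial
polynomials: for rational `x ≥ τ` and `n = j + n0 m`, `fr l P x n = ∑ (P a).eval x * l a ^ j * (l a ^ n0) ^ m`; the sum over `ρ < ‖l a‖`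
vanishes (`sum_zero_of_gQ`); divide by `ρ ^ (n0 m)`, `kronecker` with `E = 1`; then density of the rational numbers and
continuity of `x ↦ (P a).eval x`. -/
theorem nonneg_lam (l : Fin p → ℂ) (P : Fin p → ℂ[X]) (n0 j : ℕ) (hn0 : 0 < n0) (τ : ℝ)
    (hup : ∀ x : ℚ, τ ≤ x → UPx l P (x : ℝ)) (ρ : ℝ) (hρ : 0 < ρ)
    (hg : ∀ a, ρ < ‖l a‖ → gQ l P n0 j (l a ^ n0) = 0) (x : ℝ) (hx : τ < x)
    (w : Fin p → ℂ) (hw : w ∈ Tor0 (fun a => nz (l a) ^ n0)) :
    0 ≤ (∑ a, (if ‖l a‖ = ρ then (P a).eval (x : ℂ) * l a ^ j * w a else 0)).re := by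
  have hcont : Continuous fun y : ℝ =>
      (∑ a, (if ‖l a‖ = ρ then (P a).eval (y : ℂ) * l a ^ j * w a else 0)).re := by
    apply Complex.continuous_re.comp
    apply continuous_finsetSum
    intro a _
    split_ifs
    · exact (((P a).continuous.comp Complex.continuous_ofReal).mul
        continuous_const).mul continuous_const
    · exact continuous_const
  by_contra hneg
  push Not at hneg
  have h1 := (hcont.tendsto x).eventually (gt_mem_nhds hneg)
  rw [Metric.eventually_nhds_iff] at h1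
  obtain ⟨η, hη, h2⟩ := h1
  obtain ⟨q, hq1, hq2⟩ := exists_rat_btwn (show x < x + η by linarith)
  have h3 := nonneg_rat_Lim l P n0 j hn0 ρ hρ hg (q : ℝ) (hup q (by linarith)) w hw
  have h4 : dist (q : ℝ) x < η := by
    rw [Real.dist_eq, abs_of_pos (by linarith)]
    linarith
  exact absurd (h2 h4) (not_lt.mpr h3)

end Pool.Agent.FixLam
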