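import Pool.Agent.FixLam.SupY
import Pool.Agent.FixLam.BdY
import Pool.Agent.FixLam.Lev
import Pool.Agent.FixLam.Lim
import Pool.Agent.FixRec.Tor
import Pool.Agent.FixRec.Rep

/-! The frozen sequences are ultimately positive from an explicit parameter on. -/

set_option autoImplicit false

namespace Pool.Agent.FixLam

open Complex Polynomial Pool.Agent.FixRec
open Pool.Agent.DD7719 Pool.Agent.DD7719.M Pool.Agent.DD7719.M.GS Pool.Agent.FrUP

variable {p : ℕ}

/-- PROOF: the proof of `frozen_up_fixed` (`FixRec/UpFix.lean`) with `k = p`. If `p = 0` the sequence is zero. `exists_rep l`: `n0`, `A`, `s`, `y`;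
`ν a = nz (l a) ^ n0`, `B` from `exists_rel_bound ν`; `J = p + n0`; `κ1` from `gQ_root_bound`, `m` from `exists_levL`, `κ2` from
`bd_linY p B (finrank ℚ F)`; `κ` with `κ (E + H + 1) ≥ κ1 (H + 1), κ2 (E + H + m + 1)`. Apply `up_at` (`FrozenUP/Complete.lean`) to `l`,
`c a = (P a).eval x`, `ex = 0` (then `fc l c 0 x a = c a`, `bc 0 x = 1`, `fs l c 0 x n = fr l P x n`; `fr_real`; the `c a` are algebraic). For the
class `j`, `ClsOK`: if the whole sum vanishes for all `m` then (`gQ_eval_zero`, `gQ_root_bound`) all `gQ` are zero and (`sum_zero_of_gQ`)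
`fr l P x' (j + n0 m) = 0` for all `x'`, a contradiction for a large rational `x'`. Level `ρ`: `gQ = 0` above `ρ`, so `nonneg_lam` for all real
`t > τ`, `w ∈ Tor0 ν`, and `elim_supY` with `c = cc` (`exists_levL`; `∑ e ∈ range (E + 1), (P a).coeff e * t ^ e = (P a).eval t`,
`eval_eq_sum_range'`), `Hc = H + m`, `S = {g | (∀ i, |g i| ≤ B) ∧ IsRel ν g}`, `ζ = 1`, `t = x`, `w a = Wt A s z a`. -/
theorem up_lam (l : Fin p → ℂ) (hl : Roots l) (F : IntermediateField ℚ ℂ) (hF : FD F l) :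
    ∃ κ : ℕ, ∀ (P : Fin p → ℂ[X]) (E H : ℕ), PB F P E H → Sym l P →
      (∃ τ : ℝ, ∀ x : ℚ, τ ≤ x → UPx l P (x : ℝ)) →
      ∀ x : ℚ, (2 : ℝ) ^ (κ * (E + H + 1)) < x → UPx l P (x : ℝ) := by
  classical
  have := hF.fin
  rcases Nat.eq_zero_or_pos p with hp | hp
  · subst hp
    refine ⟨0, fun P E H _ _ hup x _ => ?_⟩
    obtain ⟨τ, hτ⟩ := hup
    obtain ⟨x', hx'⟩ := exists_rat_gt τ
    obtain ⟨N, hN⟩ := hτ x' hx'.le
    have h1 := hN N le_rfl
    rw [fr, Finset.univ_eq_empty, Finset.sum_empty, Complex.zero_re] at h1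
    exact absurd h1 (lt_irrefl _)
  obtain ⟨n0, hn0, htor, A, s, y, hrep, hWt⟩ := exists_rep l hp
  obtain ⟨B, hB⟩ := exists_rel_bound (fun i => nz (l i) ^ n0)
    (fun i => by simp only [norm_pow, norm_nz, one_pow])
  obtain ⟨κ1, hκ1⟩ := gQ_root_bound l F hF n0 (p + n0) hn0
  obtain ⟨m, hm⟩ := exists_levL l F hF (p + n0)
  obtain ⟨κ2, hκ2⟩ := bd_linY p B (Module.finrank ℚ F)
  refine ⟨κ1 + κ2 * (m + 1), fun P E H hP hsym hup x hx => ?_⟩
  have hx1 : (2 : ℝ) ^ (κ1 * (H + 1)) ≤ (x : ℝ) := by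
    refine le_trans (pow_le_pow_right₀ (by norm_num) ?_) hx.le
    exact Nat.mul_le_mul (Nat.le_add_right _ _) (by omega)
  have hx2 : (2 : ℝ) ^ (κ2 * (E + (H + m) + 1)) < (x : ℝ) := by
    refine lt_of_le_of_lt (pow_le_pow_right₀ (by norm_num) ?_) hx
    calc κ2 * (E + (H + m) + 1) ≤ κ2 * ((m + 1) * (E + H + 1)) := by
          apply Nat.mul_le_mul_left
          nlinarith [Nat.zero_le (m * H), Nat.zero_le (m * E)]
      _ = κ2 * (m + 1) * (E + H + 1) := (mul_assoc _ _ _).symm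
      _ ≤ (κ1 + κ2 * (m + 1)) * (E + H + 1) := Nat.mul_le_mul_right _ (Nat.le_add_left _ _)
  obtain ⟨c, hc⟩ : ∃ c : Fin p → ℂ, c = fun a => (P a).eval (((x : ℝ) : ℂ)) := ⟨_, rfl⟩
  obtain ⟨ex, hex⟩ : ∃ ex : Fin p → ℕ, ex = fun _ => 0 := ⟨_, rfl⟩
  have hfc : ∀ i, fc l c ex x i = (P i).eval (((x : ℝ) : ℂ)) := by
    intro i
    have h1 : bc 0 (x : ℝ) = 1 := by simp [bc]
    rw [fc, if_neg (hl.ne i), hex, hc, h1]
    simp only [pow_zero, Complex.ofReal_one, mul_one, div_one]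
  have hfs : ∀ n, fs l c ex x n = fr l P x n := by
    intro n
    rw [fs, fr]
    exact Finset.sum_congr rfl fun i _ => by rw [hfc]
  have hac : ∀ i, IsIntegral ℚ (fc l c ex x i) := by
    intro i
    rw [hfc, Polynomial.eval_eq_sum_range]
    refine IsIntegral.sum _ fun e _ => ?_
    have h1 : IsIntegral ℚ (⟨(P i).coeff e, hP.mem i e⟩ : F) := Algebra.IsIntegral.isIntegral _
    have h2 : IsIntegral ℚ (((x : ℝ) : ℂ)) := by
      have h3 : (((x : ℝ) : ℂ)) = algebraMap ℚ ℂ x := by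
        simp
      rw [h3]
      exact isIntegral_algebraMap
    exact (h1.map F.val).mul (h2.pow e)
  obtain ⟨τ, hτ⟩ := hup
  refine up_at l c ex hp (x : ℝ) n0 hn0 hac hl.alg htor
    (fun n => (fr l P x n).re) (fun n => (hfs n).trans (fr_real l hl P hsym x n)) ?_
  intro j hj hj'
  have hroot : ∀ i : Fin p, (gQ l P n0 j (l i ^ n0)).eval ((x : ℝ) : ℂ) = 0 →
      gQ l P n0 j (l i ^ n0) = 0 := fun i => hκ1 P E H hP j (by omega) i x hx1
  have hq1 : ∀ i i' : Fin p, l i ^ n0 = l i' ^ n0 → l i ≠ 0 → l i' ≠ 0 :=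
    fun _ i' _ _ => hl.ne i'
  refine ⟨A, s, y, hrep, fun hvan => ?_, fun ρ hρ hvan z hz => ?_⟩
  · have hg : ∀ a, l a ≠ 0 → gQ l P n0 j (l a ^ n0) = 0 := fun a ha =>
      hroot a (gQ_eval_zero l P n0 j (fun i => l i ≠ 0) hq1 (fun _ h => h) _
        (fun m' => by
          refine Eq.trans (Finset.sum_congr rfl fun i _ => ?_) (hvan m')
          rw [hfc]) a ha)
    obtain ⟨x', hx'⟩ := exists_rat_gt τ
    obtain ⟨N, hN⟩ := hτ x' hx'.le
    have h1 : fr l P (x' : ℝ) (j + n0 * N) = 0 := by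
      refine Eq.trans (Finset.sum_congr rfl fun i _ => ?_)
        (sum_zero_of_gQ l P n0 j (fun i => l i ≠ 0) hq1 hg ((x' : ℝ) : ℂ) N)
      rw [if_pos (hl.ne i)]
    have h3 := hN (j + n0 * N) (by nlinarith [Nat.zero_le j])
    rw [h1, Complex.zero_re] at h3
    exact absurd h3 (lt_irrefl _)
  · have hq2 : ∀ i i' : Fin p, l i ^ n0 = l i' ^ n0 → ρ < ‖l i‖ → ρ < ‖l i'‖ := by
      intro i i' h h'
      rwa [← norm_eq_of_pow_eq hn0 h]
    have hg : ∀ a, ρ < ‖l a‖ → gQ l P n0 j (l a ^ n0) = 0 := fun a ha =>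
      hroot a (gQ_eval_zero l P n0 j (fun i => ρ < ‖l i‖) hq2 (fun i _ => hl.ne i) _
        (fun m' => by
          refine Eq.trans (Finset.sum_congr rfl fun i _ => ?_) (hvan m')
          rw [hfc]) a ha)
    obtain ⟨cc, D0, hD0, hD0', hcc, hccI, hccb⟩ := hm P E H hP j (by omega) ρ
    have hlev : ∀ (t : ℝ) (i : Fin p), ∑ e ∈ Finset.range (E + 1), (cc i e : ℂ) * (t : ℂ) ^ e =
        if ‖l i‖ = ρ then (P i).eval (t : ℂ) * l i ^ j else 0 := by
      intro t i
      split_ifs with h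
      · rw [Polynomial.eval_eq_sum_range' (Nat.lt_succ_of_le (hP.deg i)), Finset.sum_mul]
        refine Finset.sum_congr rfl fun e _ => ?_
        rw [hcc, if_pos h]
        ring
      · apply Finset.sum_eq_zero
        intro e _
        rw [hcc, if_neg h, zero_mul]
    have hsum : ∀ (t : ℝ) (w : Fin p → ℂ), (∑ i, (∑ e ∈ Finset.range (E + 1),
        (cc i e : ℂ) * (t : ℂ) ^ e) * w i) =
        ∑ i, (if ‖l i‖ = ρ then (P i).eval (t : ℂ) * l i ^ j * w i else 0) := by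
      intro t w
      refine Finset.sum_congr rfl fun i _ => ?_
      rw [hlev]
      split_ifs
      · rfl
      · rw [zero_mul]
    have hmain := elim_supY F hF.conj hF.hI p B E (Module.finrank ℚ F) (H + m) D0 le_rfl hD0
      hD0' cc (fun i e _ => hccI i e) (fun i e _ => hccb i e)
      {g | (∀ i, |g i| ≤ B) ∧ IsRel (fun i => nz (l i) ^ n0) g} (fun g hg => hg.1)
      (fun _ => 1) (fun _ _ => ⟨1, one_pos, one_pow _⟩) ⟨τ, fun t ht w hw hw2 => by
        rw [hsum]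
        refine nonneg_lam l P n0 j hn0 τ hτ ρ hρ hg t ht w
          (hB w hw fun g hg1 hg2 => ?_)
        have := hw2 g ⟨hg1, hg2⟩
        rw [this]
        rfl⟩ x (by
        refine lt_of_le_of_lt ?_ hx2
        exact_mod_cast hκ2 E (H + m)) (fun i => Wt A s z i) (fun i => norm_Wt A s z hz i)
      (fun g hg => by
        rw [(hWt z hz).2 g hg.2]
        rfl)
    rw [hsum] at hmain
    refine hmain.trans_eq ?_
    congr 1
    refine Finset.sum_congr rfl fun i _ => ?_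
    rw [hfc]

end Pool.Agent.FixLam
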