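import Pool.Agent.FixLam.RootsQ
import Pool.Agent.FixLam.UpL
import Pool.Agent.FixLam.PosL
import Pool.Agent.FixLam.CoefF
import Pool.Agent.FixLam.PolyB
import Pool.Agent.FixLam.PolyC
import Pool.Agent.FrozenUP.Final

/-! The two thresholds for the instances with roots in a fixed finite set. -/

set_option autoImplicit false

namespace Pool.Agent.UltPos

open Pool.Agent.PT Pool.Agent.AllR Pool.Agent.DD7719.M Pool.Agent.DD7719 Finset Pool.Agent.FrUP
open Pool.Agent.FixRec Pool.Agent.FixLam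

/-- Thresholds for frozen positivity and positivity.
PROOF: `exists_roots`, `exists_FD`; `κ1` from `rp_PB`, `κ2` from `up_lam`, `κ3` from `pos_lam`. For `I` with `RootsIn Q` take root data with
algebraic numbers (`Inst.exists_rootData_alg`, `FrozenUP/Final.lean`); the `l' i` are roots of `charPoly` (first clause of `RootData` for `e = 0`), so they are
`0` or some `l a`. `coef_CB` with `L = I.enc.length` (sizes: last clause of `exists_parser`), `rp_PB` (`k ≤ L`): `PB F P k H` with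
`H = pcf L + κ1 (k + 1) ^ 2`; `sym_rp`, `fs_eq_fr`; `Inst.frozenPositive_iff`, `I.all'`; `fs_diag` (`FrozenUP/SubUP.lean`) for `n ≥ k`. All
the exponents are `≤ κ (L + 1) ^ 4` (`pcf L = 20 (L + 1) ^ 4`), and `κ3 (k + H + 1) ^ 2 ≤ 2 ^ (κ (L + 1) ^ 4)`. -/
theorem lam_data (Q : Polynomial ℚ) (hQ : Q ≠ 0) : ∃ κ : ℕ, ∀ I : Inst, I.RootsIn Q →
    I.FrozenPositive →
    (∃ (l c : ℕ → ℂ) (ex : ℕ → ℕ), RootData I.k (fun t => ((I.aQ t : ℚ) : ℝ))
        (fun t => ((I.uQ t : ℚ) : ℝ)) l c ex ∧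
      ∀ x : ℚ, (2 : ℝ) ^ (κ * (I.enc.length + 1) ^ 4) < x → ∃ N : ℕ, ∀ n, N ≤ n →
        0 < (fs (fun i : Fin I.k => l i) (fun i => c i) (fun i => ex i) (x : ℝ) n).re) ∧
    ∀ v : ℕ → ℚ, I.IsSeq v → ∀ n : ℕ, 2 ^ (κ * (I.enc.length + 1) ^ 4) < n → 0 < v n := by
  classical
  obtain ⟨p, l, hl, hroots⟩ := exists_roots Q hQ
  obtain ⟨F, hF⟩ := exists_FD l hl.alg
  obtain ⟨κ1, h1⟩ := rp_PB l hl F hF
  obtain ⟨κ2, h2⟩ := up_lam l hl F hF
  obtain ⟨κ3, h3⟩ := pos_lam l hl F hF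
  obtain ⟨g, hg⟩ : ∃ g : ℕ, g = 21 + κ1 := ⟨_, rfl⟩
  refine ⟨κ2 * g + κ3 + 2 * g, fun I hI hfp => ?_⟩
  obtain ⟨l', c, ex, hrd, -, -⟩ := I.exists_rootData_alg
  obtain ⟨L, hL⟩ : ∃ L : ℕ, L = I.enc.length := ⟨_, rfl⟩
  rw [← hL]
  obtain ⟨_, _, _, _, -, -, -, -, hpar⟩ := exists_parser
  have hkL : I.k ≤ L := by
    rw [hL]
    exact (hpar I).2.1
  have hb := (hpar I).2.2.2.2.2.2
  rw [← hL] at hb
  have ha : ∀ t (h : t < I.k), ((fun t => ((I.aQ t : ℚ) : ℝ)) t) = (I.a ⟨t, h⟩ : ℝ) := by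
    intro t h
    simp only [Inst.aQ, h, dif_pos]
  have hu : ∀ t (h : t < I.k), ((fun t => ((I.uQ t : ℚ) : ℝ)) t) = (I.u ⟨t, h⟩ : ℝ) := by
    intro t h
    simp only [Inst.uQ, h, dif_pos]
  -- the roots
  have hr : ∀ i : Fin I.k, l' i ≠ 0 → ∃ a, l a = l' i := by
    intro i hi
    apply hroots (l' i) hi
    apply hI
    have h4 : l' i ∈ I.rootSet := by
      rw [I.mem_rootSet_iff _ ha]
      exact hrd.root i i.2
    exact h4
  have hlF : ∀ i, i < I.k → l' i ∈ F := by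
    intro i hi
    by_cases h0 : l' i = 0
    · rw [h0]
      exact zero_mem F
    · obtain ⟨a, ha'⟩ := hr ⟨i, hi⟩ h0
      have h4 : l' i = l a := ha'.symm
      rw [h4]
      exact hF.hl a
  -- sizes
  have hCB : CB F (fun i : Fin I.k => c i) (pcf L) :=
    coef_CB I.k L hkL (fun t => if h : t < I.k then I.aNum ⟨t, h⟩ else 0)
      (fun t => if h : t < I.k then I.uNum ⟨t, h⟩ else 0)
      (fun t => if h : t < I.k then I.aDen ⟨t, h⟩ else 1)
      (fun t => if h : t < I.k then I.uDen ⟨t, h⟩ else 1)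
      (fun t ht => by
        simp only [ht, dif_pos]
        exact I.aDen_pos _)
      (fun t ht => by
        simp only [ht, dif_pos]
        exact I.uDen_pos _)
      (fun t ht => by
        simp only [ht, dif_pos]
        exact (hb ⟨t, ht⟩).1.le)
      (fun t ht => by
        simp only [ht, dif_pos]
        exact (hb ⟨t, ht⟩).2.1.le)
      (fun t ht => by
        simp only [ht, dif_pos]
        exact (hb ⟨t, ht⟩).2.2.1.le)
      (fun t ht => by
        simp only [ht, dif_pos]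
        exact (hb ⟨t, ht⟩).2.2.2.le)
      (fun t => ((I.aQ t : ℚ) : ℝ)) (fun t => ((I.uQ t : ℚ) : ℝ))
      (fun t ht => by
        simp only [Inst.aQ, ht, dif_pos, Inst.a]
        push_cast
        rfl)
      (fun t ht => by
        simp only [Inst.uQ, ht, dif_pos, Inst.u]
        push_cast
        rfl)
      l' c ex hrd F hlF
  have hPB := h1 I.k (fun i => l' i) (fun i => c i) (fun i => ex i) (pcf L)
    (fun i => hrd.1 i i.2) hCB
  obtain ⟨H, hH⟩ : ∃ H : ℕ, H = pcf L + κ1 * (I.k + 1) ^ 2 := ⟨_, rfl⟩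
  rw [← hH] at hPB
  obtain ⟨P, hP⟩ : ∃ P : Fin p → Polynomial ℂ, P = fun a =>
    rp (fun i : Fin I.k => l' i) (fun i => c i) (fun i => ex i) (l a) := ⟨_, rfl⟩
  rw [← hP] at hPB
  obtain ⟨N4, hN4⟩ : ∃ N4 : ℕ, N4 = (L + 1) ^ 4 := ⟨_, rfl⟩
  have hbound : I.k + H + 1 ≤ g * N4 := by
    have h5 : L + 1 ≤ (L + 1) ^ 4 := Nat.le_self_pow (by norm_num) _
    have h6 : (I.k + 1) ^ 2 ≤ (L + 1) ^ 4 :=
      (Nat.pow_le_pow_left (by omega) 2).trans (Nat.pow_le_pow_right (by omega) (by norm_num))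
    have h7 : pcf L = 20 * (L + 1) ^ 4 := rfl
    have h8 : κ1 * (I.k + 1) ^ 2 ≤ κ1 * (L + 1) ^ 4 := Nat.mul_le_mul_left _ h6
    rw [hH, hg, hN4, h7, Nat.add_mul]
    omega
  rw [← hN4]
  have hfsfr : ∀ (x : ℝ) (n : ℕ), fs (fun i : Fin I.k => l' i) (fun i => c i) (fun i => ex i) x n =
      fr l P x n := by
    intro x n
    rw [hP]
    exact fs_eq_fr l hl (fun i : Fin I.k => l' i) (fun i => c i) (fun i => ex i) hr x n
  have hpart : ∀ v : ℕ → ℚ, I.IsSeq v → Sym l P ∧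
      ∀ x : ℚ, (2 : ℝ) ^ ((κ2 * g + κ3 + 2 * g) * N4) < x → UPx l P (x : ℝ) := by
    intro v hv
    have hall := I.all' _ _ ha hu v hv hrd
    have hsym : Sym l P := by
      rw [hP]
      exact sym_rp l hl (fun i : Fin I.k => l' i) (fun i => c i) (fun i => ex i)
        (fun i => hrd.1 i i.2) (fun n => ((v n : ℚ) : ℝ)) hall
    refine ⟨hsym, fun x hx => ?_⟩
    have h5 := (I.frozenPositive_iff v hv _ _ _ (fun i => hrd.1 i i.2) hall).1 hfp
    obtain ⟨τ, hτ⟩ := h5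
    refine h2 P I.k H hPB hsym ⟨τ, fun y hy => ?_⟩ x (lt_of_le_of_lt ?_ hx)
    · obtain ⟨N, hN⟩ := hτ y (by exact_mod_cast hy)
      exact ⟨N, fun n hn => by
        rw [← hfsfr]
        exact hN n hn⟩
    · refine pow_le_pow_right₀ (by norm_num) ?_
      calc κ2 * (I.k + H + 1) ≤ κ2 * (g * N4) := Nat.mul_le_mul_left _ hbound
        _ = κ2 * g * N4 := (mul_assoc _ _ _).symm
        _ ≤ (κ2 * g + κ3 + 2 * g) * N4 := Nat.mul_le_mul_right _ (by omega)
  obtain ⟨v0, hv0, -⟩ := I.exists_unique_seq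
  refine ⟨⟨l', c, ex, hrd, fun x hx => ?_⟩, fun v hv n hn => ?_⟩
  · obtain ⟨N, hN⟩ := (hpart v0 hv0).2 x hx
    exact ⟨N, fun n hn => by
      rw [hfsfr]
      exact hN n hn⟩
  · have hall := I.all' _ _ ha hu v hv hrd
    obtain ⟨hsym, hup⟩ := hpart v hv
    have hN4pos : 1 ≤ N4 := by
      rw [hN4]
      exact Nat.one_le_pow _ _ (Nat.succ_pos _)
    have h6 := h3 P I.k H hPB hsym n ?_ ?_
    · rw [← hfsfr, fs_diag (fun i : Fin I.k => l' i) (fun i => c i) (fun i => ex i)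
        (fun i => hrd.1 i i.2) (fun n => ((v n : ℚ) : ℝ)) hall n ?_, Complex.ofReal_re] at h6
      · exact_mod_cast h6
      · have h7 : I.k ≤ g * N4 := by omega
        have h8 : g * N4 ≤ (κ2 * g + κ3 + 2 * g) * N4 := Nat.mul_le_mul_right _ (by omega)
        exact (h7.trans h8).trans (Nat.lt_two_pow_self.le.trans hn.le)
    · obtain ⟨M, hM⟩ : ∃ M : ℕ, M = g * N4 := ⟨_, rfl⟩
      have h7 : (I.k + H + 1) ^ 2 ≤ (2 ^ M) ^ 2 := by
        refine Nat.pow_le_pow_left ?_ 2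
        rw [hM]
        exact hbound.trans Nat.lt_two_pow_self.le
      have h8 : κ3 ≤ 2 ^ κ3 := Nat.lt_two_pow_self.le
      calc κ3 * (I.k + H + 1) ^ 2 ≤ 2 ^ κ3 * (2 ^ M) ^ 2 := Nat.mul_le_mul h8 h7
        _ = 2 ^ (κ3 + M * 2) := by rw [← pow_mul, ← pow_add]
        _ ≤ 2 ^ ((κ2 * g + κ3 + 2 * g) * N4) := by
            refine Nat.pow_le_pow_right (by norm_num) ?_
            have h9 : κ3 ≤ κ3 * N4 := Nat.le_mul_of_pos_right _ hN4pos
            have h10 : (κ2 * g + κ3 + 2 * g) * N4 = κ2 * g * N4 + κ3 * N4 + 2 * (g * N4) := by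
              ring
            rw [h10, hM]
            omega
        _ ≤ n := hn.le
    · have h7 := hup (n : ℚ) (by exact_mod_cast hn)
      push_cast at h7
      exact h7

end Pool.Agent.UltPos
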