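import Pool.Agent.FixLam.ReL
import Pool.Agent.FixLam.InstL
import Pool.Agent.FixRec.Main

/-! Positivity of frozen positive recurrences with roots in a fixed finite set. -/

set_option autoImplicit false

namespace Pool.Agent.UltPos

open Pool.Agent.PT Pool.Agent.AllR Pool.Agent.DD7719.M Pool.Agent.DD7719 Finset Pool.Agent.FrUP

/-- the condition defining the language: the terms with index below `2 ^ ((L + 2) ^ 5)` are positive and
there is no certificate against frozen positivity beyond `2 ^ ((L + 2) ^ 5)` -/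
def Inst.InQ (I : Inst) : Prop :=
  (∀ v, I.IsSeq v → ∀ n, n < 2 ^ ((I.enc.length + 2) ^ 5) → 0 < v n) ∧
  ∀ t : ℝ, (2 : ℝ) ^ ((I.enc.length + 2) ^ 5) < t →
    ¬ I.FX I.enc.length (fun t => ((I.aQ t : ℚ) : ℝ)) (fun t => ((I.uQ t : ℚ) : ℝ)) t

/-- PROOF: as `isRE_InP` (`FixRec/Main.lean`) with exponent `5`. -/
theorem isRE_InQ : IsRE {w : List ISym | ∃ I : Inst, w = I.enc ∧ I.InQ} := by
  have hb : UF (Γ := ISym) (fun x _ => (x.length + 2) ^ 5) := (UF.len.add (UF.const 2)).pow 5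
  have h1 := (isRE_small (fun w => (w.length + 2) ^ 5) hb).inter
    (isRE_FX (fun w => (w.length + 2) ^ 5) hb)
  have h2 : {w : List ISym | ∃ I : Inst, w = I.enc ∧ I.InQ} =
      {w : List ISym | ∃ I : Inst, w = I.enc ∧ ∀ v, I.IsSeq v → ∀ n,
        n < 2 ^ ((w.length + 2) ^ 5) → 0 < v n} ∩
      {w : List ISym | ∃ I : Inst, w = I.enc ∧ ∀ t : ℝ, (2 : ℝ) ^ ((w.length + 2) ^ 5) < t →
      ¬ I.FX I.enc.length (fun t => ((I.aQ t : ℚ) : ℝ)) (fun t => ((I.uQ t : ℚ) : ℝ)) t} := by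
    ext w
    constructor
    · rintro ⟨I, rfl, h3, h4⟩
      exact ⟨⟨I, rfl, h3⟩, ⟨I, rfl, h4⟩⟩
    · rintro ⟨⟨I, rfl, h3⟩, ⟨J, h5, h4⟩⟩
      obtain rfl := enc_injective h5
      exact ⟨I, rfl, h3, h4⟩
  rw [h2]
  exact h1

private theorem lam_aux_a (I : Inst) (t : ℕ) (h : t < I.k) :
    ((fun t => ((I.aQ t : ℚ) : ℝ)) t) = (I.a ⟨t, h⟩ : ℝ) := by
  simp only [Inst.aQ, h, dif_pos]

private theorem lam_aux_u (I : Inst) (t : ℕ) (h : t < I.k) :
    ((fun t => ((I.uQ t : ℚ) : ℝ)) t) = (I.u ⟨t, h⟩ : ℝ) := by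
  simp only [Inst.uQ, h, dif_pos]

private theorem lam_aux_size (I : Inst) : I.k ≤ I.enc.length ∧
    ∀ i : Fin I.k, (I.aNum i).natAbs ≤ 2 ^ I.enc.length ∧ I.aDen i ≤ 2 ^ I.enc.length := by
  obtain ⟨kk, sg, nb, db, -, -, -, -, hI⟩ := exists_parser
  obtain ⟨-, e2, -, -, -, -, e7⟩ := hI I
  exact ⟨e2, fun i => ⟨(e7 i).1.le, (e7 i).2.1.le⟩⟩

private theorem lam_aux_lt (κ L : ℕ) (h : κ ≤ L) : κ * (L + 1) ^ 4 < (L + 2) ^ 5 := by
  calc κ * (L + 1) ^ 4 ≤ L * (L + 2) ^ 4 :=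
        Nat.mul_le_mul h (Nat.pow_le_pow_left (by omega) 4)
    _ < (L + 2) * (L + 2) ^ 4 := Nat.mul_lt_mul_of_pos_right (by omega) (by positivity)
    _ = (L + 2) ^ 5 := by ring

/-- PROOF: as `Inst.InP.frozenPositive`. -/
theorem Inst.InQ.frozenPositive {I : Inst} (h : I.InQ) : I.FrozenPositive := by
  obtain ⟨v, hv, -⟩ := I.exists_unique_seq
  exact I.frozenPositive_of_no I.enc.length (lam_aux_size I).1 (lam_aux_size I).2 _ _ (lam_aux_a I)
    (lam_aux_u I) v hv _ h.2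

/-- **Fixed sets of roots.** One language in `∀ℝ`, contained in Frozen Positivity, agrees with positivity and
frozen positivity for all but finitely many recurrences of any order with roots in a fixed finite set.
PROOF: as `fixed_main`: `P = {I.enc | I.InQ}`; `κ` from `lam_data`; for `L = I.enc.length ≥ κ`, `κ (L + 1) ^ 4 < (L + 2) ^ 5`; `Inst.no_FX`
with `T = 2 ^ (κ (L + 1) ^ 4)`. -/
theorem lam_main : ∃ P : Set (List ISym), InForallR P ∧
    (∀ w ∈ P, ∃ I : Inst, w = I.enc ∧ I.FrozenPositive) ∧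
    ∀ Q : Polynomial ℚ, Q ≠ 0 → {w : List ISym | ∃ I : Inst, w = I.enc ∧ I.RootsIn Q ∧
      ¬ (w ∈ P ↔ I.Positive ∧ I.FrozenPositive)}.Finite := by
  refine ⟨{w : List ISym | ∃ I : Inst, w = I.enc ∧ I.InQ}, isRE_InQ.inForallR, ?_, ?_⟩
  · rintro w ⟨I, rfl, hI⟩
    exact ⟨I, rfl, hI.frozenPositive⟩
  intro Q hQ
  obtain ⟨κ, hκ⟩ := lam_data Q hQ
  refine (List.finite_length_lt ISym κ).subset ?_
  rintro w ⟨I, rfl, ha, hne⟩
  by_contra hL
  simp only [Set.mem_setOf_eq, not_lt] at hL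
  have hlt : κ * (I.enc.length + 1) ^ 4 < (I.enc.length + 2) ^ 5 := lam_aux_lt κ _ hL
  have hltN : 2 ^ (κ * (I.enc.length + 1) ^ 4) < 2 ^ ((I.enc.length + 2) ^ 5) :=
    Nat.pow_lt_pow_right (by norm_num) hlt
  have hltR : (2 : ℝ) ^ (κ * (I.enc.length + 1) ^ 4) < (2 : ℝ) ^ ((I.enc.length + 2) ^ 5) :=
    pow_lt_pow_right₀ (by norm_num) hlt
  apply hne
  constructor
  · rintro ⟨J, hJ, hJP⟩
    obtain rfl := enc_injective hJ
    have hfp := hJP.frozenPositive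
    refine ⟨fun v hv n => ?_, hfp⟩
    rcases lt_or_ge n (2 ^ ((I.enc.length + 2) ^ 5)) with h | h
    · exact hJP.1 v hv n h
    · exact (hκ I ha hfp).2 v hv n (hltN.trans_le h)
  · rintro ⟨hpos, hfp⟩
    refine ⟨I, rfl, fun v hv n _ => hpos v hv n, fun t ht => ?_⟩
    obtain ⟨l, c, ex, hrd, hx⟩ := (hκ I ha hfp).1
    exact I.no_FX _ ⟨l, c, ex, hrd, hx⟩ t (hltR.trans ht)

/-- PROOF: as `fixed_frozen`: `isRE_roots Q`, `isRE_frozen`, `isRE_small` with `b w = κ (w.length + 1) ^ 4 + 1`; `lam_data`. -/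
theorem lam_frozen (Q : Polynomial ℚ) (hQ : Q ≠ 0) : InForallR {w : List ISym | ∃ I : Inst,
    w = I.enc ∧ I.RootsIn Q ∧ I.Positive ∧ I.FrozenPositive} := by
  obtain ⟨κ, hκ⟩ := lam_data Q hQ
  have hb : UF (Γ := ISym) (fun x _ => κ * (x.length + 1) ^ 4 + 1) :=
    ((UF.const κ).mul ((UF.len.add (UF.const 1)).pow 4)).add (UF.const 1)
  have h1 := ((isRE_roots Q).inter isRE_frozen).inter
    (isRE_small (fun w => κ * (w.length + 1) ^ 4 + 1) hb)
  have h2 : {w : List ISym | ∃ I : Inst, w = I.enc ∧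
      I.RootsIn Q ∧ I.Positive ∧ I.FrozenPositive} =
      ({w : List ISym | ∃ I : Inst, w = I.enc ∧ I.RootsIn Q} ∩
        {w : List ISym | ∃ I : Inst, w = I.enc ∧ I.FrozenPositive}) ∩
      {w : List ISym | ∃ I : Inst, w = I.enc ∧ ∀ v, I.IsSeq v → ∀ n,
        n < 2 ^ (κ * (w.length + 1) ^ 4 + 1) → 0 < v n} := by
    ext w
    constructor
    · rintro ⟨I, rfl, h3, h4, h5⟩
      exact ⟨⟨⟨I, rfl, h3⟩, ⟨I, rfl, h5⟩⟩, ⟨I, rfl, fun v hv n _ => h4 v hv n⟩⟩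
    · rintro ⟨⟨⟨I, rfl, h3⟩, ⟨J, hJ, h5⟩⟩, ⟨K, hK, h4⟩⟩
      obtain rfl := enc_injective hJ
      obtain rfl := enc_injective hK
      refine ⟨I, rfl, h3, fun v hv n => ?_, h5⟩
      rcases lt_or_ge n (2 ^ (κ * (I.enc.length + 1) ^ 4 + 1)) with h | h
      · exact h4 v hv n h
      · exact (hκ I h3 h5).2 v hv n
          (lt_of_lt_of_le (Nat.pow_lt_pow_right (by norm_num) (Nat.lt_succ_self _)) h)
  rw [h2]
  exact h1.inForallR

/-- PROOF: as `fixed_noncritical`. -/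
theorem lam_noncritical (Q : Polynomial ℚ) (hQ : Q ≠ 0) : InForallR {w : List ISym | ∃ I : Inst,
    w = I.enc ∧ I.RootsIn Q ∧ I.Positive ∧ ¬ I.Critical} := by
  obtain ⟨κ, hκ⟩ := lam_data Q hQ
  have hb : UF (Γ := ISym) (fun x _ => κ * (x.length + 1) ^ 4 + 1) :=
    ((UF.const κ).mul ((UF.len.add (UF.const 1)).pow 4)).add (UF.const 1)
  have h1 := ((isRE_roots Q).inter isRE_noncritical).inter
    (isRE_small (fun w => κ * (w.length + 1) ^ 4 + 1) hb)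
  have h2 : {w : List ISym | ∃ I : Inst, w = I.enc ∧
      I.RootsIn Q ∧ I.Positive ∧ ¬ I.Critical} =
      ({w : List ISym | ∃ I : Inst, w = I.enc ∧ I.RootsIn Q} ∩
        {w : List ISym | ∃ I : Inst, w = I.enc ∧ I.UltimatelyPositive ∧ ¬ I.CriticalM}) ∩
      {w : List ISym | ∃ I : Inst, w = I.enc ∧ ∀ v, I.IsSeq v → ∀ n,
        n < 2 ^ (κ * (w.length + 1) ^ 4 + 1) → 0 < v n} := by
    ext w
    constructor
    · rintro ⟨I, rfl, h3, h4, h5⟩
      have hup : I.UltimatelyPositive := fun v hv => ⟨0, fun n _ => h4 v hv n⟩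
      exact ⟨⟨⟨I, rfl, h3⟩, ⟨I, rfl, hup, fun hM => h5 (Inst.critical_ofM hup hM)⟩⟩,
        ⟨I, rfl, fun v hv n _ => h4 v hv n⟩⟩
    · rintro ⟨⟨⟨I, rfl, h3⟩, ⟨J, hJ, hup, hnc⟩⟩, ⟨K, hK, h4⟩⟩
      obtain rfl := enc_injective hJ
      obtain rfl := enc_injective hK
      have hfp := Inst.frozenPositive_of_not_critical hup hnc
      refine ⟨I, rfl, h3, fun v hv n => ?_, fun hC => hnc (Inst.critical_toM hC)⟩
      rcases lt_or_ge n (2 ^ (κ * (I.enc.length + 1) ^ 4 + 1)) with h | h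
      · exact h4 v hv n h
      · exact (hκ I h3 hfp).2 v hv n
          (lt_of_lt_of_le (Nat.pow_lt_pow_right (by norm_num) (Nat.lt_succ_self _)) h)
  rw [h2]
  exact h1.inForallR

end Pool.Agent.UltPos
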