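import Pool.Agent.FixLam.RootsQ
import Pool.Agent.FixRec.Re2

/-! The instances with roots in a fixed finite set. -/

set_option autoImplicit false

namespace Pool.Agent.UltPos

open Pool.Agent.PT Pool.Agent.AllR Pool.Agent.DD7719.M Pool.Agent.DD7719 Finset Pool.Agent.FrUP

/-- evaluation of a fixed rational polynomial -/
private theorem ReL_aeval {Γ : Type} (Q : Polynomial ℚ) {f : List Γ → (ℕ → ℕ) → (ℕ → ℝ) → ℂ}
    (hf : CF f) : CF (fun x e α => Polynomial.aeval (f x e α) Q) := by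
  induction Q using Polynomial.induction_on with
  | C a => exact (CF.rat a).congr fun x e α => by simp
  | add P R hP hR => exact (hP.add hR).congr fun x e α => by rw [map_add]
  | monomial n a _ =>
    exact ((CF.rat a).mul (hf.pow (UF.const (n + 1)))).congr fun x e α => by simp

/-- PROOF: the complement: `x` is not a code, or there is a complex number `z` (two real numbers) with
`z ^ k = ∑ t < k, a t * z ^ (k - 1 - t)` and `Q (z) ≠ 0`; compare the treatment of double roots (`DoubleRoot`, `hdbl`) in `inForallR_fixed`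
(`DD7719/MLang.lean`) and of the root equations in `re_rootData`. The coefficients of `Q` are rational constants (`RF.rat`); `Q (z)` is a fixed
finite sum. `aeval z I.charPoly = z ^ k - ∑ ...` (`Inst.charPoly`). -/
theorem isRE_roots (Q : Polynomial ℚ) :
    IsRE {w : List ISym | ∃ I : Inst, w = I.enc ∧ I.RootsIn Q} := by
  obtain ⟨kk, sg, nb, db, hkk, hsg, hnb, hdb, hI⟩ := exists_parser
  have hfa : ∀ (I : Inst) (t : ℕ) (ht : t < I.k), fieldR sg nb db 0 I.enc t = (I.a ⟨t, ht⟩ : ℝ) := by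
    intro I t ht
    obtain ⟨e1, e2, e3, e4, e5, e6, e7⟩ := hI I
    rw [Inst.a, fieldR]
    push_cast
    have h3 := congrArg (fun z : ℤ => (z : ℝ)) (e3 ⟨t, ht⟩)
    have h4 := congrArg (fun z : ℤ => (z : ℝ)) (e4 ⟨t, ht⟩)
    simp only at h3 h4
    push_cast at h3 h4
    rw [h3, h4]
  have hz : CF (Γ := ISym) (fun _ _ α => (⟨α 0, α 1⟩ : ℂ)) := CF.var (UF.const 0) (UF.const 1)
  have hsum : CF (Γ := ISym) (fun x _ α => ∑ t ∈ Finset.range (kk x),
      ((fieldR sg nb db 0 x t : ℝ) : ℂ) * (⟨α 0, α 1⟩ : ℂ) ^ (kk x - 1 - t)) := by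
    refine CF.sum (f := fun x _ α t => ((fieldR sg nb db 0 x t : ℝ) : ℂ) *
      (⟨α 0, α 1⟩ : ℂ) ^ (kk x - 1 - t)) hkk ?_
    exact (CF.ofReal (rf_fieldR 0 hsg hnb hdb)).mul
      (hz.pow ((hkk.sub (UF.const 1)).sub (UF.var 0)))
  have hR : RE (Γ := ISym) (fun x _ _ => ∃ z : ℂ, z ^ kk x = ∑ t ∈ Finset.range (kk x),
      ((fieldR sg nb db 0 x t : ℝ) : ℂ) * z ^ (kk x - 1 - t) ∧ Polynomial.aeval z Q ≠ 0) := by
    refine RE.exc (R := fun x _ _ z => z ^ kk x = ∑ t ∈ Finset.range (kk x),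
      ((fieldR sg nb db 0 x t : ℝ) : ℂ) * z ^ (kk x - 1 - t) ∧ Polynomial.aeval z Q ≠ 0) ?_
    exact (RE.ceq (hz.pow hkk) hsum).and (RE.cne (ReL_aeval Q hz) CF.zero)
  have hkey : ∀ I : Inst, I.RootsIn Q ↔ ¬ ∃ z : ℂ, z ^ kk I.enc = ∑ t ∈ Finset.range (kk I.enc),
      ((fieldR sg nb db 0 I.enc t : ℝ) : ℂ) * z ^ (kk I.enc - 1 - t) ∧
        Polynomial.aeval z Q ≠ 0 := by
    intro I
    rw [(hI I).1]
    have hev : ∀ z : ℂ, Polynomial.aeval z I.charPoly = z ^ I.k - ∑ t ∈ Finset.range I.k,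
        ((fieldR sg nb db 0 I.enc t : ℝ) : ℂ) * z ^ (I.k - 1 - t) := by
      intro z
      rw [Inst.charPoly, map_sub, map_pow, Polynomial.aeval_X, map_sum, Finset.sum_range]
      congr 1
      refine Finset.sum_congr rfl fun t _ => ?_
      rw [map_mul, map_pow, Polynomial.aeval_X, Polynomial.aeval_C, hfa I t t.2]
      simp
    constructor
    · rintro h ⟨z, h1, h2⟩
      exact h2 (h z (by rw [hev, h1, sub_self]))
    · intro h z h1
      rw [hev, sub_eq_zero] at h1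
      by_contra h2
      exact h ⟨z, h1, h2⟩
  refine ⟨_, (RE.up up_valid.not).or hR, fun x => ?_⟩
  constructor
  · rintro ⟨I, rfl, h1⟩ ⟨α, h4 | h4⟩
    · exact h4 ⟨I, rfl⟩
    · exact (hkey I).1 h1 h4
  · intro h
    have h1 : ∃ I : Inst, x = I.enc := by
      by_contra hcon
      exact h ⟨fun _ => 0, Or.inl hcon⟩
    obtain ⟨I, rfl⟩ := h1
    exact ⟨I, rfl, (hkey I).2 fun h4 => h ⟨fun _ => 0, Or.inr h4⟩⟩

end Pool.Agent.UltPos
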