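import Pool.Agent.FixLam.Defs
import Pool.Agent.UltPos.Defs

/-! Instances with roots in a fixed finite set. -/

set_option autoImplicit false

namespace Pool.Agent.UltPos

open Pool.Agent.FixLam

/-- All characteristic roots of the instance are roots of `Q`. -/
def Inst.RootsIn (Q : Polynomial ℚ) (I : Inst) : Prop :=
  ∀ z : ℂ, Polynomial.aeval z I.charPoly = 0 → Polynomial.aeval z Q = 0

/-- PROOF: enumerate the finite set of the nonzero roots of `Q` in `ℂ` (closed under conjugation because `Q` is real). -/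
theorem exists_roots (Q : Polynomial ℚ) (hQ : Q ≠ 0) : ∃ (p : ℕ) (l : Fin p → ℂ), Roots l ∧
    ∀ z : ℂ, z ≠ 0 → Polynomial.aeval z Q = 0 → ∃ a, l a = z := by
  classical
  obtain ⟨S, hS⟩ : ∃ S : Finset ℂ, S = (Q.map (algebraMap ℚ ℂ)).roots.toFinset.filter
      (fun z => z ≠ 0) := ⟨_, rfl⟩
  have hQ' : Q.map (algebraMap ℚ ℂ) ≠ 0 := by
    rw [Polynomial.map_ne_zero_iff (algebraMap ℚ ℂ).injective]
    exact hQ
  have hmem : ∀ z : ℂ, z ∈ S ↔ z ≠ 0 ∧ Polynomial.aeval z Q = 0 := by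
    intro z
    rw [hS, Finset.mem_filter, Multiset.mem_toFinset, Polynomial.mem_roots hQ',
      Polynomial.IsRoot.def, Polynomial.eval_map_algebraMap, and_comm]
  have hconj : ∀ z ∈ S, (starRingEnd ℂ) z ∈ S := by
    intro z hz
    obtain ⟨h1, h2⟩ := (hmem z).1 hz
    refine (hmem _).2 ⟨?_, ?_⟩
    · simpa using h1
    · have h3 := Polynomial.aeval_algHom_apply (starRingEnd ℂ).toRatAlgHom z Q
      rw [h2, map_zero] at h3
      exact h3
  refine ⟨S.card, fun i => ((S.equivFin.symm i : S) : ℂ), ⟨?_, ?_, ?_, ?_⟩, ?_⟩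
  · exact Subtype.val_injective.comp S.equivFin.symm.injective
  · exact fun i => ((hmem _).1 (S.equivFin.symm i).2).1
  · exact fun i => isAlgebraic_iff_isIntegral.1
      ⟨Q, hQ, ((hmem _).1 (S.equivFin.symm i).2).2⟩
  · intro i
    refine ⟨S.equivFin ⟨_, hconj _ (S.equivFin.symm i).2⟩, ?_⟩
    simp only [Equiv.symm_apply_apply]
  · intro z hz hz'
    refine ⟨S.equivFin ⟨z, (hmem z).2 ⟨hz, hz'⟩⟩, ?_⟩
    simp only [Equiv.symm_apply_apply]

end Pool.Agent.UltPos
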