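import Pool.Agent.FixLam.ElimY

/-! The last sign change; the exponent is linear in the degree and the size of the coefficients. -/

set_option autoImplicit false

namespace Pool.Agent.FixLam

open Pool.Agent.MX Pool.Agent.RElim Complex

/-- a sign change of a continuous function -/
private lemma last_change (m : ℝ → ℝ) (hm : Continuous m) (y0 : ℝ) (hy0 : 0 < y0) (hneg : m y0 < 0)
    (η : ℝ) (hη : 0 < η) (hpos : ∀ y, 0 < y → y < η → 0 ≤ m y) :
    ∃ y1, 0 < y1 ∧ y1 ≤ y0 ∧ m y1 = 0 ∧ ∃ u : ℕ → ℝ, Filter.Tendsto u Filter.atTop (nhds y1) ∧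
      ∀ n, 0 < u n ∧ u n ≤ y0 ∧ m (u n) < 0 := by
  set A : Set ℝ := {y | 0 < y ∧ y ≤ y0 ∧ m y < 0} with hA
  have hne : A.Nonempty := ⟨y0, hy0, le_rfl, hneg⟩
  have hlb : ∀ y ∈ A, η ≤ y := by
    rintro y ⟨h1, h2, h3⟩
    by_contra h
    exact absurd (hpos y h1 (not_le.mp h)) (not_le.mpr h3)
  have hbdd : BddBelow A := ⟨η, hlb⟩
  have hη1 : η ≤ sInf A := le_csInf hne hlb
  have hy1 : sInf A ≤ y0 := csInf_le hbdd ⟨hy0, le_rfl, hneg⟩
  obtain ⟨u, -, hu, huA⟩ := exists_seq_tendsto_sInf hne hbdd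
  have h0 : m (sInf A) ≤ 0 := by
    have h1 := (hm.tendsto (sInf A)).comp hu
    exact le_of_tendsto h1 (Filter.Eventually.of_forall fun n => (huA n).2.2.le)
  refine ⟨sInf A, lt_of_lt_of_le hη hη1, hy1, le_antisymm h0 ?_, u, hu, huA⟩
  by_contra h
  push Not at h
  have h1 := (hm.tendsto (sInf A)).eventually (gt_mem_nhds h)
  rw [Metric.eventually_nhds_iff] at h1
  obtain ⟨ε, hε, h2⟩ := h1
  have hpos1 : 0 < sInf A := lt_of_lt_of_le hη hη1
  set y := sInf A - min (ε / 2) (sInf A / 2) with hy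
  have h3 : 0 < min (ε / 2) (sInf A / 2) := lt_min (by linarith) (by linarith)
  have h4 : min (ε / 2) (sInf A / 2) ≤ ε / 2 := min_le_left _ _
  have h5 : min (ε / 2) (sInf A / 2) ≤ sInf A / 2 := min_le_right _ _
  have h6 : m y < 0 := h2 (by
    rw [Real.dist_eq, hy, abs_lt]
    constructor <;> linarith)
  have h7 : y ∈ A := ⟨by rw [hy]; linarith, by rw [hy]; linarith, h6⟩
  have h8 := csInf_le hbdd h7
  rw [hy] at h8
  linarith

private lemma fY_inv {F : IntermediateField ℚ ℂ} {p : ℕ} (E : ℕ) (c : Fin p → ℕ → F) (t : ℝ)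
    (ht : 0 < t) (x : Fin p → ℂ) : fY E c (1 / t) x = (1 / t) ^ E *
      (∑ i, (∑ e ∈ Finset.range (E + 1), (c i e : ℂ) * (t : ℂ) ^ e) * x i).re := by
  have htC : (t : ℂ) ≠ 0 := by exact_mod_cast ht.ne'
  rw [fY, ← Complex.re_ofReal_mul]
  congr 1
  rw [Finset.mul_sum]
  refine Finset.sum_congr rfl fun i _ => ?_
  rw [← mul_assoc, Finset.mul_sum]
  congr 1
  refine Finset.sum_congr rfl fun e he => ?_
  have he' : e ≤ E := by
    have := Finset.mem_range.mp he
    omega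
  have h1 : ((1 / t : ℝ) : ℂ) ^ E * (t : ℂ) ^ e = ((1 / t : ℝ) : ℂ) ^ (E - e) := by
    have h2 : E = (E - e) + e := by omega
    conv_lhs => rw [h2, pow_add]
    rw [mul_assoc, ← mul_pow]
    have h3 : ((1 / t : ℝ) : ℂ) * (t : ℂ) = 1 := by
      push_cast
      field_simp
    rw [h3, one_pow, mul_one]
  push_cast at h1 ⊢
  rw [← h1]
  ring

private lemma BdD_pos' (D n a : ℕ) : 1 ≤ BdD D n a := by
  unfold BdD
  exact Nat.mul_pos (Nat.factorial_pos _) (by positivity)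

private lemma continuous_fY {F : IntermediateField ℚ ℂ} {p : ℕ} (E : ℕ) (c : Fin p → ℕ → F) :
    Continuous fun z : ℝ × (Fin p → Circle) => fY E c z.1 (fun i => ((z.2 i : Circle) : ℂ)) := by
  unfold fY
  refine Complex.continuous_re.comp ?_
  refine continuous_finsetSum _ fun i _ => ?_
  refine Continuous.mul ?_ ?_
  · refine continuous_finsetSum _ fun e _ => ?_
    exact continuous_const.mul ((Complex.continuous_ofReal.comp continuous_fst).pow _)
  · exact continuous_subtype_val.comp ((continuous_apply i).comp continuous_snd)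

/-- The form is not negative beyond an explicit point.
PROOF: let `Bd` be the bound, `K` the coset (compact, see `exists_min` in `MX/ElimMin.lean`; nonempty, it contains `x`), `m y` the minimum of
`fY E c y` on `K`, a continuous function of `y` (`IsCompact.continuous_sInf`). For `y > 0`, `fY E c y x = y ^ E * form (1 / y)`. Suppose the
form is negative at `t, x`; put `y0 = 1 / t < 1 / Bd ^ Dg ≤ 1`, `A = {y | 0 < y ≤ y0, m y < 0}`, `y1 = sInf A`; `y1 ≥ 1 / max X 1 > 0` by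
`hX`. By continuity `m y1 = 0` and there is a sequence of `y ∈ A` tending to `y1`. For `y ∈ A` with `m y > -1`: for `δ ∈ (-m y, 1]` the
relation `exists_relY` at the minimal point gives `|evY F y δ q| ≤ Bd * (2 D0 (m y + δ))`, so `evY F y (-m y) q = 0` by continuity in `δ`.
Write `q = X ^ r * q'` with `r = q.natTrailingDegree`; then `evY F y (-m y) q' = 0` because `-m y ≠ 0`. In the limit `evY F y1 0 q' = 0`, i.e.
`(q.coeff r).eval₂ (RA F).subtype y1 = 0`, with `q.coeff r ≠ 0` and `pn (NR F) (q.coeff r) ≤ pn (pn (NR F)) q ≤ Bd`. `root_evY`: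
`1 ≤ y1 * Bd ^ Dg`, but `y1 ≤ y0 < 1 / Bd ^ Dg`. -/
theorem elim_supY (F : IntermediateField ℚ ℂ) [FiniteDimensional ℚ F]
    (hconj : ∀ z ∈ F, (starRingEnd ℂ) z ∈ F) (hI : I ∈ F) (p B E Dg Hc D0 : ℕ)
    (hDg : Module.finrank ℚ F ≤ Dg) (hD0 : 0 < D0)
    (hD0' : D0 ≤ 2 ^ Hc) (c : Fin p → ℕ → F)
    (hcI : ∀ i, ∀ e ≤ E, IsIntegral ℤ ((D0 : ℂ) * (c i e : ℂ)))
    (hcb : ∀ i, ∀ e ≤ E, ∀ φ : F →ₐ[ℚ] ℂ, ‖φ (c i e)‖ ≤ 2 ^ Hc) (S : Set (Fin p → ℤ))
    (hS : ∀ g ∈ S, ∀ i, |g i| ≤ B) (ζ : (Fin p → ℤ) → F)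
    (hζ : ∀ g ∈ S, ∃ n : ℕ, 0 < n ∧ ζ g ^ n = 1)
    (hX : ∃ X : ℝ, ∀ t : ℝ, X < t → ∀ x : Fin p → ℂ, (∀ i, ‖x i‖ = 1) →
      (∀ g ∈ S, ∏ i, x i ^ g i = (ζ g : ℂ)) →
      0 ≤ (∑ i, (∑ e ∈ Finset.range (E + 1), (c i e : ℂ) * (t : ℂ) ^ e) * x i).re)
    (t : ℝ) (ht : (BdD (4 * (p * B + 1)) (2 * p + 1)
      (2 ^ (20 * (p + 1) * (B + 1) + 4 * Hc + 2 * E)) : ℝ) ^ Dg < t)
    (x : Fin p → ℂ) (hx : ∀ i, ‖x i‖ = 1) (hx2 : ∀ g ∈ S, ∏ i, x i ^ g i = (ζ g : ℂ)) :
    0 ≤ (∑ i, (∑ e ∈ Finset.range (E + 1), (c i e : ℂ) * (t : ℂ) ^ e) * x i).re := by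
  classical
  set Bd : ℕ := BdD (4 * (p * B + 1)) (2 * p + 1)
    (2 ^ (20 * (p + 1) * (B + 1) + 4 * Hc + 2 * E)) with hBd
  have hBd1 : (1 : ℝ) ≤ Bd := by exact_mod_cast BdD_pos' _ _ _
  by_contra hcon
  push Not at hcon
  have ht1 : 1 < t := lt_of_le_of_lt (one_le_pow₀ hBd1) ht
  have ht0 : 0 < t := by linarith
  obtain ⟨X, hX⟩ := hX
  -- the coset
  set K : Set (Fin p → Circle) := {y | ∀ g ∈ S, ∏ i, ((y i : Circle) : ℂ) ^ g i = ζ g} with hK
  have hKc : IsClosed K := by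
    rw [hK, Set.ofPred_forall]
    refine isClosed_iInter fun g => ?_
    rw [Set.ofPred_forall]
    refine isClosed_iInter fun _ => ?_
    refine isClosed_eq ?_ continuous_const
    refine continuous_finsetProd _ fun i _ => ?_
    refine Continuous.zpow₀ ?_ _ ?_
    · exact continuous_subtype_val.comp (continuous_apply i)
    · intro y
      exact Or.inl (Circle.coe_ne_zero _)
  have hKcomp : IsCompact K := hKc.isCompact
  have hlift : ∀ x : Fin p → ℂ, (∀ i, ‖x i‖ = 1) →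
      ∃ y : Fin p → Circle, (fun i => ((y i : Circle) : ℂ)) = x := by
    intro x hx
    exact ⟨fun i => ⟨x i, by simp [Submonoid.unitSphere, hx i]⟩, rfl⟩
  obtain ⟨κ0, hκ0⟩ := hlift x hx
  have hκ0K : κ0 ∈ K := by
    intro g hg
    have h1 := hx2 g hg
    rw [← hκ0] at h1
    exact h1
  obtain ⟨f, hf, hfc⟩ : ∃ f : ℝ → (Fin p → Circle) → ℝ,
      (∀ y κ, f y κ = fY E c y (fun i => ((κ i : Circle) : ℂ))) ∧
      Continuous fun z : ℝ × (Fin p → Circle) => f z.1 z.2 :=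
    ⟨fun y κ => fY E c y (fun i => ((κ i : Circle) : ℂ)), fun _ _ => rfl, continuous_fY E c⟩
  obtain ⟨m, hmc, hmin⟩ : ∃ m : ℝ → ℝ, Continuous m ∧
      ∀ y, ∃ κ ∈ K, m y = f y κ ∧ ∀ κ' ∈ K, f y κ ≤ f y κ' := by
    refine ⟨fun y => sInf (f y '' K), hKcomp.continuous_sInf hfc, fun y => ?_⟩
    have hfy : Continuous fun κ => f y κ := hfc.comp (Continuous.prodMk_right y)
    exact hKcomp.exists_sInf_image_eq_and_le ⟨κ0, hκ0K⟩ hfy.continuousOn
  have hval : ∀ s : ℝ, 0 < s → ∀ κ : Fin p → Circle, f (1 / s) κ = (1 / s) ^ E *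
      (∑ i, (∑ e ∈ Finset.range (E + 1), (c i e : ℂ) * (s : ℂ) ^ e) * ((κ i : Circle) : ℂ)).re :=
    fun s hs κ => (hf _ _).trans (fY_inv E c s hs _)
  have hneg : m (1 / t) < 0 := by
    obtain ⟨κ, -, h1, h2⟩ := hmin (1 / t)
    rw [h1]
    refine lt_of_le_of_lt (h2 κ0 hκ0K) ?_
    rw [hval t ht0]
    have h3 : ∀ i, ((κ0 i : Circle) : ℂ) = x i := fun i => congrFun hκ0 i
    simp only [h3]
    exact mul_neg_of_pos_of_neg (by positivity) hcon
  have hM : (0 : ℝ) < max X 1 := lt_of_lt_of_le one_pos (le_max_right _ _)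
  have hpos : ∀ y, 0 < y → y < 1 / max X 1 → 0 ≤ m y := by
    intro y hy hy'
    obtain ⟨κ, hκ, h1, -⟩ := hmin y
    rw [h1]
    have h2 : y = 1 / (1 / y) := by rw [one_div_one_div]
    rw [h2, hval (1 / y) (by positivity)]
    refine mul_nonneg (by positivity) (hX (1 / y) ?_ _ (fun i => Circle.norm_coe _) hκ)
    refine lt_of_le_of_lt (le_max_left X 1) ?_
    rw [lt_div_iff₀ hy]
    rw [lt_div_iff₀ hM] at hy'
    linarith [mul_comm y (max X 1)]
  obtain ⟨y1, hy1, hy1t, hmy1, u, hu, huA⟩ := last_change m hmc (1 / t) (by positivity) hneg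
    (1 / max X 1) (by positivity) hpos
  have ht1' : 1 / t ≤ 1 := by
    rw [div_le_one ht0]
    exact ht1.le
  obtain ⟨q, hq0, hqN, hq⟩ := exists_relY F hconj hI p B E Hc D0 hD0 hD0' c hcI hcb S hS ζ hζ
  -- the relation satisfied by the minimum
  have hrel : ∀ y, 0 < y → y ≤ 1 → m y < 0 → -1 < m y → evY F y (-m y) q = 0 := by
    intro y hy0 hy1 hmy hmy1
    obtain ⟨κ, hκ, h1, h2⟩ := hmin y
    have hyabs : |y| ≤ 1 := by
      rw [abs_of_pos hy0]
      exact hy1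
    have hc1 : Continuous fun δ : ℝ => |evY F y δ q| :=
      continuous_abs.comp ((continuous_evY F q).comp (Continuous.prodMk_right y))
    have hc2 : Continuous fun δ : ℝ => (Bd : ℝ) * (2 * D0 * (m y + δ)) := by fun_prop
    have h3 : ∀ δ ∈ Set.Ioo (-m y) 1, |evY F y δ q| ≤ (Bd : ℝ) * (2 * D0 * (m y + δ)) := by
      rintro δ ⟨hδ1, hδ2⟩
      have h4 := hq y δ hyabs (by
        rw [abs_of_pos (by linarith)]
        exact hδ2.le) (by
        intro x' hx' hx2'
        obtain ⟨κ', hκ'⟩ := hlift x' hx'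
        have h5 : κ' ∈ K := by
          intro g hg
          have h6 := hx2' g hg
          rw [← hκ'] at h6
          exact h6
        have h6 := h2 κ' h5
        have h7 : f y κ' = fY E c y x' := by rw [hf, hκ']
        rw [← h7]
        linarith) (fun i => ((κ i : Circle) : ℂ)) (fun i => Circle.norm_coe _) hκ
      have h8 : fY E c y (fun i => ((κ i : Circle) : ℂ)) = m y := by rw [h1, hf]
      rw [h8] at h4
      exact h4
    have hcl : -m y ∈ closure (Set.Ioo (-m y) 1) := by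
      rw [closure_Ioo (by linarith)]
      exact ⟨le_rfl, by linarith⟩
    have h4 := le_on_closure h3 hc1.continuousOn hc2.continuousOn hcl
    simp only [add_neg_cancel, mul_zero] at h4
    exact abs_nonpos_iff.mp h4
  -- the trailing coefficient
  set r := q.natTrailingDegree with hr
  obtain ⟨q', hq'⟩ : Polynomial.X ^ r ∣ q :=
    Polynomial.X_pow_dvd_iff.mpr fun d hd => Polynomial.coeff_eq_zero_of_lt_natTrailingDegree hd
  have hcoef : q'.coeff 0 = q.coeff r := by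
    have h1 := Polynomial.coeff_X_pow_mul q' r 0
    rw [zero_add] at h1
    rw [← h1, ← hq']
  have hg0 : q.coeff r ≠ 0 := Polynomial.trailingCoeff_nonzero_iff_nonzero.mpr hq0
  have hev : ∀ y δ : ℝ, evY F y δ q = δ ^ r * evY F y δ q' := by
    intro y δ
    conv_lhs => rw [hq']
    rw [map_mul, map_pow]
    congr 2
    unfold evY
    rw [Polynomial.coe_eval₂RingHom, Polynomial.eval₂_X]
  have hlim : evY F y1 0 q' = 0 := by
    have h1 : Filter.Tendsto (fun n => evY F (u n) (-m (u n)) q') Filter.atTop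
        (nhds (evY F y1 (-m y1) q')) :=
      ((continuous_evY F q').tendsto (y1, -m y1)).comp
        (hu.prodMk_nhds ((hmc.tendsto y1).comp hu).neg)
    rw [hmy1, neg_zero] at h1
    have h2 : ∀ᶠ n in Filter.atTop, -1 < m (u n) := by
      have h3 := (hmc.tendsto y1).comp hu
      rw [hmy1] at h3
      exact h3.eventually (lt_mem_nhds (by norm_num))
    refine tendsto_nhds_unique h1 (tendsto_const_nhds.congr' ?_)
    filter_upwards [h2] with n hn
    obtain ⟨h4, h5, h6⟩ := huA n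
    have h7 := hrel (u n) h4 (h5.trans ht1') h6 hn
    rw [hev] at h7
    rcases mul_eq_zero.mp h7 with h8 | h8
    · exact absurd h8 (pow_ne_zero _ (by linarith))
    · exact h8.symm
  have hroot : (q.coeff r).eval₂ (RA F).subtype y1 = 0 := by
    rw [← hcoef]
    have h1 : evY F y1 0 q' = (q'.coeff 0).eval₂ (RA F).subtype y1 := by
      conv_lhs => rw [← Polynomial.divX_mul_X_add q']
      unfold evY
      rw [Polynomial.coe_eval₂RingHom, Polynomial.eval₂_add, Polynomial.eval₂_mul,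
        Polynomial.eval₂_X, Polynomial.eval₂_C, mul_zero, zero_add]
      rfl
    rw [← h1]
    exact hlim
  have hsize : pn (NR F) (q.coeff r) ≤ Bd := by
    refine le_trans ?_ hqN
    exact Finset.single_le_sum (f := fun i => pn (NR F) (q.coeff i)) (fun _ _ => Nat.zero_le _)
      (Polynomial.mem_support_iff.mpr hg0)
  have hfin := root_evY F (q.coeff r) hg0 Bd Dg hsize hDg y1 hy1 (hy1t.trans ht1') hroot
  have h9 : y1 * (Bd : ℝ) ^ Dg ≤ 1 / t * (Bd : ℝ) ^ Dg :=
    mul_le_mul_of_nonneg_right hy1t (by positivity)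
  have h10 : 1 / t * (Bd : ℝ) ^ Dg < 1 := by
    rw [div_mul_eq_mul_div, one_mul, div_lt_one ht0]
    exact ht
  linarith

end Pool.Agent.FixLam
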