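import Pool.Agent.MX.Sys
import Pool.Agent.MX.ElimD

/-! The polynomial system for the minimum of a linear form whose coefficients are polynomials in a
parameter, over a polynomial ring. -/

set_option autoImplicit false

namespace Pool.Agent.FixLam

open Pool.Agent.MX Pool.Agent.RElim Complex

/-- evaluation of polynomials in `y` and `δ` over `RA F` -/
noncomputable def evY (F : IntermediateField ℚ ℂ) (y δ : ℝ) :
    Polynomial (Polynomial (RA F)) →+* ℝ :=
  Polynomial.eval₂RingHom (Polynomial.eval₂RingHom (RA F).subtype y) δ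

/-- the linear form with coefficients `∑ e, c i e * y ^ (E - e)` -/
noncomputable def fY {F : IntermediateField ℚ ℂ} {p : ℕ} (E : ℕ) (c : Fin p → ℕ → F) (y : ℝ)
    (x : Fin p → ℂ) : ℝ :=
  (∑ i, (∑ e ∈ Finset.range (E + 1), (c i e : ℂ) * (y : ℂ) ^ (E - e)) * x i).re

section sys

variable {F : IntermediateField ℚ ℂ}

/-- twice the real part -/
private noncomputable def sysRe (hconj : ∀ z ∈ F, (starRingEnd ℂ) z ∈ F) (z : F)
    (hz : IsIntegral ℤ (z : ℂ)) : RA F :=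
  ⟨2 * (z : ℂ).re, by
    have h : ((2 * (z : ℂ).re : ℝ) : ℂ) = (z : ℂ) + (starRingEnd ℂ) (z : ℂ) := by
      rw [Complex.add_conj]
    refine ⟨?_, ?_⟩
    · rw [h]
      exact F.add_mem z.2 (hconj _ z.2)
    · rw [h]
      exact hz.add (hz.map ((starRingEnd ℂ).toIntAlgHom))⟩

/-- twice the imaginary part -/
private noncomputable def sysIm (hconj : ∀ z ∈ F, (starRingEnd ℂ) z ∈ F) (hI : I ∈ F) (z : F)
    (hz : IsIntegral ℤ (z : ℂ)) : RA F :=
  ⟨2 * (z : ℂ).im, by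
    have h : ((2 * (z : ℂ).im : ℝ) : ℂ) = -I * ((z : ℂ) - (starRingEnd ℂ) (z : ℂ)) := by
      rw [Complex.sub_conj]
      have h2 := Complex.I_mul_I
      push_cast
      linear_combination (2 * ((z : ℂ).im : ℂ)) * h2
    have hII : IsIntegral ℤ I := by
      refine ⟨Polynomial.X ^ 2 + 1, ?_, ?_⟩
      · monicity!
      · simp
    refine ⟨?_, ?_⟩
    · rw [h]
      exact F.mul_mem (F.neg_mem hI) (F.sub_mem z.2 (hconj _ z.2))
    · rw [h]
      exact hII.neg.mul (hz.sub (hz.map ((starRingEnd ℂ).toIntAlgHom)))⟩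

/-- complex conjugation on `F` -/
private noncomputable def sysConj (hconj : ∀ z ∈ F, (starRingEnd ℂ) z ∈ F) : F →ₐ[ℚ] F :=
  RingHom.toRatAlgHom
    { toFun := fun x => ⟨(starRingEnd ℂ) x, hconj _ x.2⟩
      map_one' := by ext; simp
      map_mul' := fun x y => by ext; simp
      map_zero' := by ext; simp
      map_add' := fun x y => by ext; simp }

private theorem sysConj_coe (hconj : ∀ z ∈ F, (starRingEnd ℂ) z ∈ F) (x : F) :
    ((sysConj hconj x : F) : ℂ) = (starRingEnd ℂ) (x : ℂ) := rfl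

variable [FiniteDimensional ℚ F]

private theorem NR_sysRe (hconj : ∀ z ∈ F, (starRingEnd ℂ) z ∈ F) (z : F)
    (hz : IsIntegral ℤ (z : ℂ)) (b : ℕ) (hb : ∀ φ : F →ₐ[ℚ] ℂ, ‖φ z‖ ≤ b) :
    NR F (sysRe hconj z hz) ≤ 2 * b := by
  apply NR_le
  intro φ
  have h : toF (sysRe hconj z hz) = z + sysConj hconj z := by
    apply Subtype.ext
    show ((2 * (z : ℂ).re : ℝ) : ℂ) = (z : ℂ) + (starRingEnd ℂ) (z : ℂ)
    rw [Complex.add_conj]
  rw [h, map_add]
  have h1 := hb φ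
  have h2 := hb (φ.comp (sysConj hconj))
  rw [AlgHom.comp_apply] at h2
  refine (norm_add_le _ _).trans ?_
  push_cast
  linarith

private theorem NR_sysIm (hconj : ∀ z ∈ F, (starRingEnd ℂ) z ∈ F) (hI : I ∈ F) (z : F)
    (hz : IsIntegral ℤ (z : ℂ)) (b : ℕ) (hb : ∀ φ : F →ₐ[ℚ] ℂ, ‖φ z‖ ≤ b) :
    NR F (sysIm hconj hI z hz) ≤ 2 * b := by
  apply NR_le
  intro φ
  have h : toF (sysIm hconj hI z hz) = -(⟨I, hI⟩ : F) * (z - sysConj hconj z) := by
    apply Subtype.ext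
    show ((2 * (z : ℂ).im : ℝ) : ℂ) = -I * ((z : ℂ) - (starRingEnd ℂ) (z : ℂ))
    rw [Complex.sub_conj]
    have h2 := Complex.I_mul_I
    push_cast
    linear_combination (2 * ((z : ℂ).im : ℂ)) * h2
  have hφI : ‖φ ⟨I, hI⟩‖ = 1 := by
    have h3 : (φ ⟨I, hI⟩) ^ 2 = -1 := by
      rw [← map_pow]
      have h4 : (⟨I, hI⟩ : F) ^ 2 = -1 := by
        apply Subtype.ext
        show I ^ 2 = -1
        exact Complex.I_sq
      rw [h4, map_neg, map_one]
    have h5 : ‖φ ⟨I, hI⟩‖ ^ 2 = 1 := by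
      rw [← norm_pow, h3, norm_neg, norm_one]
    nlinarith [norm_nonneg (φ ⟨I, hI⟩)]
  rw [h, map_mul, map_neg, map_sub, norm_mul, norm_neg, hφI, one_mul]
  have h1 := hb φ
  have h2 := hb (φ.comp (sysConj hconj))
  rw [AlgHom.comp_apply] at h2
  refine (norm_sub_le _ _).trans ?_
  push_cast
  linarith

end sys

section crep

variable {F : IntermediateField ℚ ℂ} {σ : Type}

open MvPolynomial

/-- complex polynomial functions with real and imaginary parts over `RA F` -/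
private def CRep (F : IntermediateField ℚ ℂ) (n W : ℕ) (f : (σ → ℝ) → ℂ) : Prop :=
  ∃ U V : MvPolynomial σ (RA F), U.totalDegree ≤ n ∧ V.totalDegree ≤ n ∧ mn (NR F) U ≤ W ∧
    mn (NR F) V ≤ W ∧ ∀ v, f v = ((U.eval₂ (RA F).subtype v : ℝ) : ℂ) +
      ((V.eval₂ (RA F).subtype v : ℝ) : ℂ) * I

private theorem CRep.mono {n n' W W' : ℕ} {f : (σ → ℝ) → ℂ} (h : CRep F n W f) (hn : n ≤ n')
    (hW : W ≤ W') : CRep F n' W' f := by
  obtain ⟨U, V, h1, h2, h3, h4, h5⟩ := h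
  exact ⟨U, V, h1.trans hn, h2.trans hn, h3.trans hW, h4.trans hW, h5⟩

variable [FiniteDimensional ℚ F]

private theorem mn_zero' : mn (NR F) (0 : MvPolynomial σ (RA F)) = 0 :=
  (isNrm_NR (F := F)).mn.zero

private theorem CRep.one : CRep F 0 1 (fun _ : σ → ℝ => 1) := by
  refine ⟨1, 0, ?_, ?_, (isNrm_NR (F := F)).mn.one, ?_, ?_⟩
  · simp
  · simp
  · rw [mn_zero']; exact Nat.zero_le _
  · intro v; simp

private theorem CRep.mul {n n' W W' : ℕ} {f g : (σ → ℝ) → ℂ} (h : CRep F n W f)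
    (h' : CRep F n' W' g) : CRep F (n + n') (2 * W * W') (fun v => f v * g v) := by
  obtain ⟨U, V, h1, h2, h3, h4, h5⟩ := h
  obtain ⟨U', V', h1', h2', h3', h4', h5'⟩ := h'
  have hN := (isNrm_NR (F := F)).mn (σ := σ)
  have hm : ∀ P Q : MvPolynomial σ (RA F), mn (NR F) P ≤ W → mn (NR F) Q ≤ W' →
      mn (NR F) (P * Q) ≤ W * W' := fun P Q hP hQ => (hN.mul P Q).trans (Nat.mul_le_mul hP hQ)
  have hd : ∀ P Q : MvPolynomial σ (RA F), P.totalDegree ≤ n → Q.totalDegree ≤ n' →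
      (P * Q).totalDegree ≤ n + n' := fun P Q hP hQ =>
    (totalDegree_mul P Q).trans (Nat.add_le_add hP hQ)
  refine ⟨U * U' - V * V', U * V' + V * U', ?_, ?_, ?_, ?_, ?_⟩
  · exact (totalDegree_sub _ _).trans (max_le (hd _ _ h1 h1') (hd _ _ h2 h2'))
  · exact (totalDegree_add _ _).trans (max_le (hd _ _ h1 h2') (hd _ _ h2 h1'))
  · rw [sub_eq_add_neg]
    refine (hN.add _ _).trans ?_
    have e1 := hm _ _ h3 h3'
    have e2 := (hN.neg (V * V')).trans (hm _ _ h4 h4')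
    nlinarith
  · refine (hN.add _ _).trans ?_
    have e1 := hm _ _ h3 h4'
    have e2 := hm _ _ h4 h3'
    nlinarith
  · intro v
    show f v * g v = _
    rw [h5 v, h5' v]
    simp only [eval₂_sub, eval₂_mul, eval₂_add]
    push_cast
    have h2 := Complex.I_mul_I
    linear_combination (((V.eval₂ (RA F).subtype v : ℝ) : ℂ) *
      ((V'.eval₂ (RA F).subtype v : ℝ) : ℂ)) * h2

private theorem CRep.sub {n W W' : ℕ} {f g : (σ → ℝ) → ℂ} (h : CRep F n W f)
    (h' : CRep F n W' g) : CRep F n (W + W') (fun v => f v - g v) := by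
  obtain ⟨U, V, h1, h2, h3, h4, h5⟩ := h
  obtain ⟨U', V', h1', h2', h3', h4', h5'⟩ := h'
  have hN := (isNrm_NR (F := F)).mn (σ := σ)
  refine ⟨U - U', V - V', ?_, ?_, ?_, ?_, ?_⟩
  · exact (totalDegree_sub _ _).trans (max_le h1 h1')
  · exact (totalDegree_sub _ _).trans (max_le h2 h2')
  · rw [sub_eq_add_neg]
    exact (hN.add _ _).trans (Nat.add_le_add h3 ((hN.neg _).trans h3'))
  · rw [sub_eq_add_neg]
    exact (hN.add _ _).trans (Nat.add_le_add h4 ((hN.neg _).trans h4'))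
  · intro v
    show f v - g v = _
    rw [h5 v, h5' v]
    simp only [eval₂_sub]
    push_cast
    ring

/-- twice a constant -/
private theorem CRep.const (hconj : ∀ z ∈ F, (starRingEnd ℂ) z ∈ F) (hI : I ∈ F) (z : F)
    (hz : IsIntegral ℤ (z : ℂ)) (b : ℕ) (hb : ∀ φ : F →ₐ[ℚ] ℂ, ‖φ z‖ ≤ b) :
    CRep F 0 (2 * b) (fun _ : σ → ℝ => 2 * (z : ℂ)) := by
  refine ⟨C (sysRe hconj z hz), C (sysIm hconj hI z hz), ?_, ?_, ?_, ?_, ?_⟩
  · rw [totalDegree_C]
  · rw [totalDegree_C]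
  · exact (mn_C isNrm_NR _).trans (NR_sysRe hconj z hz b hb)
  · exact (mn_C isNrm_NR _).trans (NR_sysIm hconj hI z hz b hb)
  · intro v
    rw [eval₂_C, eval₂_C]
    show 2 * (z : ℂ) = ((2 * (z : ℂ).re : ℝ) : ℂ) + ((2 * (z : ℂ).im : ℝ) : ℂ) * I
    conv_lhs => rw [← Complex.re_add_im (z : ℂ)]
    push_cast
    ring

/-- the square of the absolute value -/
private theorem CRep.normSq {n W : ℕ} {f : (σ → ℝ) → ℂ} (h : CRep F n W f) :
    ∃ P : MvPolynomial σ (RA F), P.totalDegree ≤ 2 * n ∧ mn (NR F) P ≤ 2 * W ^ 2 ∧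
      ∀ v, P.eval₂ (RA F).subtype v = Complex.normSq (f v) := by
  obtain ⟨U, V, h1, h2, h3, h4, h5⟩ := h
  have hN := (isNrm_NR (F := F)).mn (σ := σ)
  refine ⟨U * U + V * V, ?_, ?_, ?_⟩
  · refine (totalDegree_add _ _).trans (max_le ?_ ?_)
    · exact (totalDegree_mul _ _).trans (by omega)
    · exact (totalDegree_mul _ _).trans (by omega)
  · refine (hN.add _ _).trans ?_
    have e1 := (hN.mul U U).trans (Nat.mul_le_mul h3 h3)
    have e2 := (hN.mul V V).trans (Nat.mul_le_mul h4 h4)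
    nlinarith
  · intro v
    rw [h5 v, Complex.normSq_apply]
    simp only [eval₂_add, eval₂_mul]
    simp

variable {p : ℕ}

private theorem CRep.ptx (i : Fin p) :
    CRep F 1 1 (fun v : Option (Fin p ⊕ Fin p) → ℝ => MX.ptx v i) := by
  refine ⟨X (some (Sum.inl i)), X (some (Sum.inr i)), ?_, ?_, mn_X isNrm_NR _, mn_X isNrm_NR _, ?_⟩
  · exact (totalDegree_X _).le
  · exact (totalDegree_X _).le
  · intro v
    rw [eval₂_X, eval₂_X]
    rfl

private theorem CRep.ptx_pow (i : Fin p) (k : ℕ) :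
    CRep F k (2 ^ k) (fun v : Option (Fin p ⊕ Fin p) → ℝ => MX.ptx v i ^ k) := by
  induction k with
  | zero => simpa using CRep.one (F := F) (σ := Option (Fin p ⊕ Fin p))
  | succ k ih =>
    have h := ih.mul (CRep.ptx (F := F) i)
    refine CRep.mono ?_ (le_refl (k + 1)) (le_of_eq (by ring : 2 * 2 ^ k * 1 = 2 ^ (k + 1)))
    simpa only [pow_succ] using h

private theorem CRep.ptx_prod (k : Fin p → ℕ) (T : Finset (Fin p)) :
    CRep F (∑ i ∈ T, k i) (2 ^ (∑ i ∈ T, (k i + 1)))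
      (fun v : Option (Fin p ⊕ Fin p) → ℝ => ∏ i ∈ T, MX.ptx v i ^ k i) := by
  classical
  induction T using Finset.induction_on with
  | empty => simpa using CRep.one (F := F) (σ := Option (Fin p ⊕ Fin p))
  | insert a s ha ih =>
    simp only [Finset.sum_insert ha, Finset.prod_insert ha]
    refine CRep.mono ((CRep.ptx_pow (F := F) a (k a)).mul ih) le_rfl (le_of_eq ?_)
    rw [pow_add, pow_succ]
    ring

end crep

/-- a relation -/
private theorem rel_iff {p : ℕ} (x : Fin p → ℂ) (hx : ∀ i, x i ≠ 0) (g : Fin p → ℤ) (ζ : ℂ) :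
    ∏ i, x i ^ g i = ζ ↔ ∏ i, x i ^ (g i).toNat = ζ * ∏ i, x i ^ (-g i).toNat := by
  have h1 : ∀ i, x i ^ g i = x i ^ (g i).toNat / x i ^ (-g i).toNat := by
    intro i
    rw [eq_div_iff (pow_ne_zero _ (hx i)), ← zpow_natCast, ← zpow_natCast, ← zpow_add₀ (hx i)]
    congr 1
    omega
  have h2 : ∏ i, x i ^ (-g i).toNat ≠ 0 :=
    Finset.prod_ne_zero_iff.mpr fun i _ => pow_ne_zero _ (hx i)
  rw [Finset.prod_congr rfl fun i _ => h1 i, Finset.prod_div_distrib, div_eq_iff h2]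

open MvPolynomial in
/-- the circle conditions and the relations -/
private theorem exists_H0 (F : IntermediateField ℚ ℂ) [FiniteDimensional ℚ F]
    (hconj : ∀ z ∈ F, (starRingEnd ℂ) z ∈ F) (hI : I ∈ F) (p B : ℕ) (S : Finset (Fin p → ℤ))
    (hS : ∀ g ∈ S, ∀ i, |g i| ≤ B) (ζ : (Fin p → ℤ) → F)
    (hζ : ∀ g ∈ S, ∃ n : ℕ, 0 < n ∧ ζ g ^ n = 1) :
    ∃ h : MvPolynomial (Option (Fin p ⊕ Fin p)) (RA F),
      h.totalDegree ≤ 4 * (p * B + 1) ∧
      mn (NR F) h ≤ p * 9 + 2 ^ (7 + 3 * (p * (B + 1))) ∧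
      ∀ v : Option (Fin p ⊕ Fin p) → ℝ, h.eval₂ (RA F).subtype v =
        (∑ i, (‖ptx v i‖ ^ 2 - 1) ^ 2) +
      (∑ g ∈ S, Complex.normSq (2 * ∏ i, ptx v i ^ (g i).toNat -
        2 * (ζ g : ℂ) * ∏ i, ptx v i ^ (-g i).toNat)) := by
  classical
  have hN := (isNrm_NR (F := F)).mn (σ := Option (Fin p ⊕ Fin p))
  -- the circle conditions
  set Q : Fin p → MvPolynomial (Option (Fin p ⊕ Fin p)) (RA F) := fun i =>
    X (some (Sum.inl i)) * X (some (Sum.inl i)) + X (some (Sum.inr i)) * X (some (Sum.inr i)) - 1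
    with hQ
  have hQd : ∀ i, (Q i).totalDegree ≤ 2 := by
    intro i
    rw [hQ]
    refine (totalDegree_sub _ _).trans (max_le ((totalDegree_add _ _).trans (max_le ?_ ?_)) ?_)
    · refine (totalDegree_mul _ _).trans ?_
      rw [totalDegree_X]
    · refine (totalDegree_mul _ _).trans ?_
      rw [totalDegree_X]
    · rw [totalDegree_one]; omega
  have hQm : ∀ i, mn (NR F) (Q i) ≤ 3 := by
    intro i
    have e1 : ∀ s : Option (Fin p ⊕ Fin p), mn (NR F) (X s * X s) ≤ 1 := fun s =>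
      (hN.mul _ _).trans (Nat.mul_le_mul (mn_X isNrm_NR s) (mn_X isNrm_NR s))
    rw [hQ]
    show mn (NR F) (X (some (Sum.inl i)) * X (some (Sum.inl i)) +
      X (some (Sum.inr i)) * X (some (Sum.inr i)) - 1) ≤ 3
    rw [sub_eq_add_neg]
    have e2 := hN.add (X (some (Sum.inl i)) * X (some (Sum.inl i)) +
      X (some (Sum.inr i)) * X (some (Sum.inr i))) (-1)
    have e3 := hN.add (X (some (Sum.inl i)) * X (some (Sum.inl i)))
      (X (some (Sum.inr i)) * X (some (Sum.inr i)))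
    have e4 := (hN.neg 1).trans hN.one
    have e5 := e1 (some (Sum.inl i))
    have e6 := e1 (some (Sum.inr i))
    omega
  have hQe : ∀ i v, (Q i).eval₂ (RA F).subtype v = ‖ptx v i‖ ^ 2 - 1 := by
    intro i v
    have h1 : ‖ptx v i‖ ^ 2 = v (some (Sum.inl i)) ^ 2 + v (some (Sum.inr i)) ^ 2 := by
      rw [← Complex.normSq_eq_norm_sq, ptx, Complex.normSq_add_mul_I]
    rw [h1]
    rw [hQ]
    simp only [eval₂_sub, eval₂_add, eval₂_mul, eval₂_X, eval₂_one]
    ring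
  -- the relations
  have hrel : ∀ g ∈ S, ∃ P : MvPolynomial (Option (Fin p ⊕ Fin p)) (RA F),
      P.totalDegree ≤ 2 * (p * B) ∧ mn (NR F) P ≤ 2 * (8 * 2 ^ (p * (B + 1))) ^ 2 ∧
      ∀ v, P.eval₂ (RA F).subtype v = Complex.normSq (2 * ∏ i, ptx v i ^ (g i).toNat -
        2 * (ζ g : ℂ) * ∏ i, ptx v i ^ (-g i).toNat) := by
    intro g hg
    obtain ⟨m, hm0, hm⟩ := hζ g hg
    have hζn : ∀ φ : F →ₐ[ℚ] ℂ, ‖φ (ζ g)‖ ≤ ((1 : ℕ) : ℝ) := by
      intro φ
      have e1 : φ (ζ g) ^ m = 1 := by rw [← map_pow, hm, map_one]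
      have e2 : ‖φ (ζ g)‖ ^ m = 1 := by rw [← norm_pow, e1, norm_one]
      rw [(pow_eq_one_iff_of_nonneg (norm_nonneg _) hm0.ne').mp e2]
      simp
    have hζi : IsIntegral ℤ ((ζ g : F) : ℂ) := by
      refine IsIntegral.of_pow hm0 ?_
      have e1 : ((ζ g : F) : ℂ) ^ m = 1 := by
        have := congrArg (fun x : F => (x : ℂ)) hm
        simpa using this
      rw [e1]
      exact isIntegral_one
    have h1n : ∀ φ : F →ₐ[ℚ] ℂ, ‖φ (1 : F)‖ ≤ ((1 : ℕ) : ℝ) := by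
      intro φ
      simp
    have h1i : IsIntegral ℤ ((1 : F) : ℂ) := by
      simpa using (isIntegral_one (R := ℤ) (B := ℂ))
    have hsum : ∀ k : Fin p → ℕ, (∀ i, k i ≤ B) →
        CRep F (p * B) (2 ^ (p * (B + 1)))
          (fun v : Option (Fin p ⊕ Fin p) → ℝ => ∏ i, ptx v i ^ k i) := by
      intro k hk
      refine (CRep.ptx_prod (F := F) k Finset.univ).mono ?_ ?_
      · refine (Finset.sum_le_card_nsmul _ _ B fun i _ => hk i).trans ?_
        simp
      · apply Nat.pow_le_pow_right (by norm_num)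
        refine (Finset.sum_le_card_nsmul _ _ (B + 1) fun i _ => Nat.add_le_add_right (hk i) 1).trans
          ?_
        simp
    have hB := hS g hg
    have hp := hsum (fun i => (g i).toNat) (fun i => by
      have := hB i
      have := le_abs_self (g i)
      omega)
    have hm' := hsum (fun i => (-g i).toNat) (fun i => by
      have := hB i
      have := neg_le_abs (g i)
      omega)
    have hone := CRep.const (F := F) (σ := Option (Fin p ⊕ Fin p)) hconj hI 1 h1i 1 h1n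
    have hz := CRep.const (F := F) (σ := Option (Fin p ⊕ Fin p)) hconj hI (ζ g) hζi 1 hζn
    have hdiff := ((hone.mul hp).mono (Nat.zero_add (p * B)).le
      (le_refl _)).sub ((hz.mul hm').mono (Nat.zero_add (p * B)).le (le_refl _))
    obtain ⟨P, hP1, hP2, hP3⟩ := hdiff.normSq
    refine ⟨P, hP1, ?_, ?_⟩
    · refine hP2.trans (le_of_eq ?_)
      ring
    · intro v
      rw [hP3 v]
      simp
  choose! P hPd hPm hPe using hrel
  set H : MvPolynomial (Option (Fin p ⊕ Fin p)) (RA F) :=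
    (∑ i, Q i * Q i) + (∑ g ∈ S, P g) with hH
  refine ⟨H, ?_, ?_, ?_⟩
  · rw [hH]
    refine (totalDegree_add _ _).trans (max_le ?_ ?_)
    · refine totalDegree_finsetSum_le fun i _ => (totalDegree_mul _ _).trans ?_
      have := hQd i
      omega
    · refine totalDegree_finsetSum_le fun g hg => (hPd g hg).trans ?_
      omega
  · have hcard : S.card ≤ 2 ^ (p * (B + 1)) := by
      have h1 : S ⊆ Fintype.piFinset fun _ : Fin p => Finset.Icc (-(B : ℤ)) B := by
        intro g hg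
        rw [Fintype.mem_piFinset]
        intro i
        rw [Finset.mem_Icc]
        exact abs_le.mp (hS g hg i)
      refine (Finset.card_le_card h1).trans ?_
      rw [Fintype.card_piFinset]
      simp only [Int.card_Icc, Finset.prod_const, Finset.card_univ, Fintype.card_fin]
      have h2 : ((B : ℤ) + 1 - -(B : ℤ)).toNat = 2 * B + 1 := by omega
      rw [h2, mul_comm p, pow_mul]
      apply Nat.pow_le_pow_left
      have h3 : ∀ n : ℕ, 2 * n + 1 ≤ 2 ^ (n + 1) := by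
        intro n
        induction n with
        | zero => norm_num
        | succ n ih => rw [pow_succ]; omega
      exact h3 B
    have e1 : mn (NR F) (∑ i, Q i * Q i) ≤ p * 9 := by
      refine (mn_sum isNrm_NR _ _).trans ?_
      refine (Finset.sum_le_card_nsmul _ _ 9 fun i _ => ?_).trans ?_
      · exact (hN.mul _ _).trans (Nat.mul_le_mul (hQm i) (hQm i))
      · simp
    have e2 : mn (NR F) (∑ g ∈ S, P g) ≤ 2 ^ (7 + 3 * (p * (B + 1))) := by
      refine (mn_sum isNrm_NR _ _).trans ?_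
      refine (Finset.sum_le_card_nsmul _ _ _ fun g hg => hPm g hg).trans ?_
      rw [smul_eq_mul]
      refine (Nat.mul_le_mul_right _ hcard).trans (le_of_eq ?_)
      rw [pow_add, show 3 * (p * (B + 1)) = p * (B + 1) + (p * (B + 1) + p * (B + 1)) by ring,
        pow_add, pow_add]
      ring
    rw [hH]
    exact (hN.add _ _).trans (Nat.add_le_add e1 e2)
  · intro v
    rw [hH]
    simp only [eval₂_add, eval₂_mul, eval₂_sum]
    rw [Finset.sum_congr rfl fun g hg => hPe g hg v]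
    simp only [hQe, ← sq]

private theorem evY_comp (F : IntermediateField ℚ ℂ) (y δ : ℝ) :
    (evY F y δ).comp ((Polynomial.C : Polynomial (RA F) →+* _).comp Polynomial.C) =
      (RA F).subtype := by
  ext a
  simp [evY]

/-- the monomial `z y ^ k` as coefficient -/
private noncomputable def cY {F : IntermediateField ℚ ℂ} (k : ℕ) (z : RA F) :
    Polynomial (Polynomial (RA F)) :=
  Polynomial.C (Polynomial.monomial k z)

private theorem evY_cY {F : IntermediateField ℚ ℂ} (k : ℕ) (z : RA F) (y δ : ℝ) :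
    evY F y δ (cY k z) = (z : ℝ) * y ^ k := by
  simp [evY, cY, Polynomial.eval₂_monomial]

private theorem pn_cY {F : IntermediateField ℚ ℂ} [FiniteDimensional ℚ F] (k : ℕ) (z : RA F) :
    pn (pn (NR F)) (cY k z) ≤ NR F z :=
  (pn_C isNrm_NR.pn _).trans (pn_monomial isNrm_NR _ _)

open MvPolynomial in
private theorem exists_gen {A K : Type} [CommRing A] [CommRing K] [Nontrivial K] {NA : A → ℕ}
    {NK : K → ℕ}
    (hA : IsNrm NA) (hK : IsNrm NK) (ι : A →+* K) (hι : ∀ a, NK (ι a) ≤ NA a) (p d0 m0 w w' : ℕ)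
    (H0 : MvPolynomial (Option (Fin p ⊕ Fin p)) A) (h01 : H0.totalDegree ≤ d0) (hd0 : 4 ≤ d0)
    (h02 : mn NA H0 ≤ m0) (r s : Fin p → K) (t : K) (hr : ∀ i, NK (r i) ≤ w)
    (hs : ∀ i, NK (s i) ≤ w) (ht : NK t ≤ w') :
    ∃ H : MvPolynomial (Option (Fin p ⊕ Fin p)) K, H.totalDegree ≤ d0 ∧
      mn NK H ≤ m0 + (p * (2 * w) + w' + 1) * (p * (2 * w) + w' + 1) ∧
      ∀ (e : K →+* ℝ) (v : Option (Fin p ⊕ Fin p) → ℝ), H.eval₂ e v =
        H0.eval₂ (e.comp ι) v + (v none * ((∑ i, (e (r i) * v (some (Sum.inl i)) -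
          e (s i) * v (some (Sum.inr i)))) + e t) - 1) ^ 2 := by
  classical
  have hN := hK.mn (σ := Option (Fin p ⊕ Fin p))
  set Lf : MvPolynomial (Option (Fin p ⊕ Fin p)) K := (∑ i,
    (C (r i) * X (some (Sum.inl i)) - C (s i) * X (some (Sum.inr i)))) + C t with hLf
  have hLd : Lf.totalDegree ≤ 1 := by
    rw [hLf]
    refine (totalDegree_add _ _).trans (max_le ?_ ?_)
    · refine totalDegree_finsetSum_le fun i _ => (totalDegree_sub _ _).trans (max_le ?_ ?_)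
      · refine (totalDegree_mul _ _).trans ?_
        have := totalDegree_C (σ := Option (Fin p ⊕ Fin p)) (r i)
        have := totalDegree_X (R := K) (some (Sum.inl i) : Option (Fin p ⊕ Fin p))
        omega
      · refine (totalDegree_mul _ _).trans ?_
        have := totalDegree_C (σ := Option (Fin p ⊕ Fin p)) (s i)
        have := totalDegree_X (R := K) (some (Sum.inr i) : Option (Fin p ⊕ Fin p))
        omega
    · rw [totalDegree_C]
      omega
  have hLm : mn NK Lf ≤ p * (2 * w) + w' := by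
    rw [hLf]
    refine (hN.add _ _).trans (Nat.add_le_add ?_ ((mn_C hK _).trans ht))
    refine (mn_sum hK _ _).trans ?_
    refine (Finset.sum_le_card_nsmul _ _ (2 * w) fun i _ => ?_).trans ?_
    · rw [sub_eq_add_neg]
      refine (hN.add _ _).trans ?_
      have e1 := (hN.mul (C (r i)) (X (some (Sum.inl i)))).trans
        (Nat.mul_le_mul ((mn_C hK _).trans (hr i)) (mn_X hK _))
      have e2 := ((hN.neg _).trans (hN.mul (C (s i)) (X (some (Sum.inr i))))).trans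
        (Nat.mul_le_mul ((mn_C hK _).trans (hs i)) (mn_X hK _))
      omega
    · simp
  set R : MvPolynomial (Option (Fin p ⊕ Fin p)) K := X none * Lf - 1 with hR
  have hRd : R.totalDegree ≤ 2 := by
    rw [hR]
    refine (totalDegree_sub _ _).trans (max_le ?_ ?_)
    · refine (totalDegree_mul _ _).trans ?_
      have := totalDegree_X (R := K) (none : Option (Fin p ⊕ Fin p))
      omega
    · rw [totalDegree_one]; omega
  have hRm : mn NK R ≤ p * (2 * w) + w' + 1 := by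
    rw [hR, sub_eq_add_neg]
    refine (hN.add _ _).trans ?_
    have e1 := (hN.mul (X none) Lf).trans (Nat.mul_le_mul (mn_X hK none) hLm)
    have e2 := (hN.neg 1).trans hN.one
    omega
  have hLe : ∀ (e : K →+* ℝ) (v : Option (Fin p ⊕ Fin p) → ℝ), Lf.eval₂ e v =
      (∑ i, (e (r i) * v (some (Sum.inl i)) - e (s i) * v (some (Sum.inr i)))) + e t := by
    intro e v
    rw [hLf]
    simp only [eval₂_add, eval₂_sum, eval₂_sub, eval₂_mul, eval₂_C, eval₂_X]
  have hRe : ∀ (e : K →+* ℝ) (v : Option (Fin p ⊕ Fin p) → ℝ), R.eval₂ e v =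
      v none * Lf.eval₂ e v - 1 := by
    intro e v
    rw [hR]
    simp only [eval₂_sub, eval₂_mul, eval₂_one, eval₂_X]
  clear_value R Lf
  refine ⟨MvPolynomial.map ι H0 + R * R, ?_, ?_, ?_⟩
  · refine (totalDegree_add _ _).trans (max_le ?_ ?_)
    · refine le_trans ?_ h01
      rw [totalDegree, totalDegree]
      exact Finset.sup_mono (support_map_subset ι H0)
    · refine (totalDegree_mul _ _).trans ?_
      omega
  · refine (hN.add _ _).trans (Nat.add_le_add ((mn_map hA hK ι hι H0).trans h02) ?_)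
    exact (hN.mul _ _).trans (Nat.mul_le_mul hRm hRm)
  · intro e v
    rw [eval₂_add, eval₂_mul, hRe, hLe, sq, eval₂_map]

/-- the coefficients of the linear form -/
private noncomputable def rY {F : IntermediateField ℚ ℂ} (E : ℕ) (z : ℕ → RA F) :
    Polynomial (Polynomial (RA F)) :=
  ∑ e ∈ Finset.range (E + 1), cY (E - e) (z e)

private theorem evY_rY {F : IntermediateField ℚ ℂ} (E : ℕ) (z : ℕ → RA F) (y δ : ℝ) :
    evY F y δ (rY E z) = ∑ e ∈ Finset.range (E + 1), (z e : ℝ) * y ^ (E - e) := by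
  rw [rY, map_sum]
  exact Finset.sum_congr rfl fun e _ => evY_cY _ _ _ _

private theorem pn_rY {F : IntermediateField ℚ ℂ} [FiniteDimensional ℚ F] (E w : ℕ)
    (z : ℕ → RA F) (h : ∀ e, NR F (z e) ≤ w) : pn (pn (NR F)) (rY E z) ≤ (E + 1) * w := by
  refine ((isNrm_NR (F := F)).pn.pn.sum _ _).trans ?_
  refine (Finset.sum_le_card_nsmul _ _ w fun e _ => (pn_cY _ _).trans (h e)).trans ?_
  simp

private theorem exists_Lf (F : IntermediateField ℚ ℂ) [FiniteDimensional ℚ F]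
    (hconj : ∀ z ∈ F, (starRingEnd ℂ) z ∈ F) (hI : I ∈ F) (p E Hc D0 : ℕ)
    (hD0' : D0 ≤ 2 ^ Hc) (c : Fin p → ℕ → F)
    (hcI : ∀ i e, IsIntegral ℤ ((D0 : ℂ) * (c i e : ℂ)))
    (hcb : ∀ i e, ∀ φ : F →ₐ[ℚ] ℂ, ‖φ (c i e)‖ ≤ 2 ^ Hc) :
    ∃ (r s : Fin p → Polynomial (Polynomial (RA F))) (t : Polynomial (Polynomial (RA F))),
      (∀ i, pn (pn (NR F)) (r i) ≤ (E + 1) * (2 * 4 ^ Hc)) ∧
      (∀ i, pn (pn (NR F)) (s i) ≤ (E + 1) * (2 * 4 ^ Hc)) ∧
      pn (pn (NR F)) t ≤ 2 * 2 ^ Hc ∧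
      ∀ (y δ : ℝ) (v : Option (Fin p ⊕ Fin p) → ℝ),
        ((∑ i, (evY F y δ (r i) * v (some (Sum.inl i)) -
          evY F y δ (s i) * v (some (Sum.inr i)))) + evY F y δ t) =
        2 * D0 * (fY E c y (ptx v) + δ) := by
  have hNK : IsNrm (pn (pn (NR F))) := (isNrm_NR (F := F)).pn.pn
  have hci : ∀ i e, IsIntegral ℤ ((((D0 : F) * c i e : F)) : ℂ) := by
    intro i e
    have : ((((D0 : F) * c i e : F)) : ℂ) = (D0 : ℂ) * (c i e : ℂ) := by push_cast; rfl
    rw [this]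
    exact hcI i e
  have hcb' : ∀ i e, ∀ φ : F →ₐ[ℚ] ℂ, ‖φ ((D0 : F) * c i e)‖ ≤ ((4 ^ Hc : ℕ) : ℝ) := by
    intro i e φ
    rw [map_mul, map_natCast, norm_mul, Complex.norm_natCast]
    have e1 : (D0 : ℝ) ≤ 2 ^ Hc := by exact_mod_cast hD0'
    have e2 := hcb i e φ
    calc (D0 : ℝ) * ‖φ (c i e)‖ ≤ 2 ^ Hc * 2 ^ Hc :=
          mul_le_mul e1 e2 (norm_nonneg _) (by positivity)
      _ = ((4 ^ Hc : ℕ) : ℝ) := by
          push_cast
          rw [← mul_pow]
          norm_num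
  refine ⟨fun i => rY E fun e => sysRe hconj ((D0 : F) * c i e) (hci i e),
    fun i => rY E fun e => sysIm hconj hI ((D0 : F) * c i e) (hci i e),
    ((2 * D0 : ℕ) : Polynomial (Polynomial (RA F))) * Polynomial.X, ?_, ?_, ?_, ?_⟩
  · intro i
    exact pn_rY _ _ _ fun e => NR_sysRe hconj _ (hci i e) _ (hcb' i e)
  · intro i
    exact pn_rY _ _ _ fun e => NR_sysIm hconj hI _ (hci i e) _ (hcb' i e)
  · refine (hNK.mul _ _).trans ?_
    have e1 := hNK.natCast (2 * D0)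
    have e2 := pn_X (isNrm_NR (F := F)).pn
    refine (Nat.mul_le_mul e1 e2).trans ?_
    omega
  · intro y δ v
    rw [map_mul, map_natCast]
    have hX : evY F y δ Polynomial.X = δ := by simp [evY]
    rw [hX, mul_add]
    congr 1
    · rw [fY, Complex.re_sum, Finset.mul_sum]
      refine Finset.sum_congr rfl fun i _ => ?_
      rw [evY_rY, evY_rY, Finset.sum_mul, Finset.sum_mul, Finset.sum_mul, Complex.re_sum,
        Finset.mul_sum, ← Finset.sum_sub_distrib]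
      refine Finset.sum_congr rfl fun e _ => ?_
      show 2 * (((D0 : F) * c i e : F) : ℂ).re * y ^ (E - e) * v (some (Sum.inl i)) -
        2 * (((D0 : F) * c i e : F) : ℂ).im * y ^ (E - e) * v (some (Sum.inr i)) = _
      have e1 : ((((D0 : F) * c i e : F)) : ℂ) = (D0 : ℂ) * (c i e : ℂ) := by push_cast; rfl
      have hre : (((y : ℝ) : ℂ) ^ (E - e)).re = y ^ (E - e) := by
        rw [← Complex.ofReal_pow, Complex.ofReal_re]
      have him : (((y : ℝ) : ℂ) ^ (E - e)).im = 0 := by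
        rw [← Complex.ofReal_pow, Complex.ofReal_im]
      have hDr : ((D0 : ℂ)).re = (D0 : ℝ) := Complex.natCast_re D0
      have hDi : ((D0 : ℂ)).im = 0 := Complex.natCast_im D0
      have hpr : (ptx v i).re = v (some (Sum.inl i)) := by
        simp [ptx]
      have hpi : (ptx v i).im = v (some (Sum.inr i)) := by
        simp [ptx]
      rw [e1]
      simp only [Complex.mul_re, Complex.mul_im, hre, him, hDr, hDi, hpr, hpi]
      ring
    · push_cast
      ring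

open MvPolynomial in
private theorem exists_systemY' (F : IntermediateField ℚ ℂ) [FiniteDimensional ℚ F]
    (hconj : ∀ z ∈ F, (starRingEnd ℂ) z ∈ F) (hI : I ∈ F) (p B E Hc D0 : ℕ)
    (hD0' : D0 ≤ 2 ^ Hc) (c : Fin p → ℕ → F)
    (hcI : ∀ i e, IsIntegral ℤ ((D0 : ℂ) * (c i e : ℂ)))
    (hcb : ∀ i e, ∀ φ : F →ₐ[ℚ] ℂ, ‖φ (c i e)‖ ≤ 2 ^ Hc) (S : Finset (Fin p → ℤ))
    (hS : ∀ g ∈ S, ∀ i, |g i| ≤ B) (ζ : (Fin p → ℤ) → F)
    (hζ : ∀ g ∈ S, ∃ n : ℕ, 0 < n ∧ ζ g ^ n = 1) :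
    ∃ h : MvPolynomial (Option (Fin p ⊕ Fin p)) (Polynomial (Polynomial (RA F))),
      (∀ b ∈ h.support, b.degree ≤ 4 * (p * B + 1)) ∧
      mn (pn (pn (NR F))) h ≤ 2 ^ (20 * (p + 1) * (B + 1) + 4 * Hc + 2 * E) ∧
      (∀ (y δ : ℝ) (v : Option (Fin p ⊕ Fin p) → ℝ), 0 ≤ h.eval₂ (evY F y δ) v) ∧
      ∀ (y δ : ℝ) (v : Option (Fin p ⊕ Fin p) → ℝ), h.eval₂ (evY F y δ) v = 0 ↔
        (∀ i, ‖ptx v i‖ = 1) ∧ (∀ g ∈ S, ∏ i, ptx v i ^ g i = (ζ g : ℂ)) ∧
        v none * (2 * D0 * (fY E c y (ptx v) + δ)) = 1 := by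
  classical
  have hNK : IsNrm (pn (pn (NR F))) := (isNrm_NR (F := F)).pn.pn
  obtain ⟨H0, h01, h02, h03⟩ := exists_H0 F hconj hI p B S hS ζ hζ
  obtain ⟨r, s, t, hr, hs, ht, hL3⟩ := exists_Lf F hconj hI p E Hc D0 hD0' c hcI hcb
  obtain ⟨H, hd, hm, hHe'⟩ := exists_gen (isNrm_NR (F := F)) hNK
    ((Polynomial.C : Polynomial (RA F) →+* _).comp Polynomial.C)
    (fun a => (pn_C isNrm_NR.pn _).trans (pn_C isNrm_NR _)) p (4 * (p * B + 1)) _ _ _ H0 h01
    (by omega) h02 r s t hr hs ht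
  have hHe : ∀ (y δ : ℝ) (v : Option (Fin p ⊕ Fin p) → ℝ), H.eval₂ (evY F y δ) v =
      (∑ i, (‖ptx v i‖ ^ 2 - 1) ^ 2) +
      (∑ g ∈ S, Complex.normSq (2 * ∏ i, ptx v i ^ (g i).toNat -
        2 * (ζ g : ℂ) * ∏ i, ptx v i ^ (-g i).toNat)) +
      (v none * (2 * D0 * (fY E c y (ptx v) + δ)) - 1) ^ 2 := by
    intro y δ v
    rw [hHe', evY_comp, h03, hL3]
  have hs1 : ∀ v : Option (Fin p ⊕ Fin p) → ℝ, 0 ≤ ∑ i, (‖ptx v i‖ ^ 2 - 1) ^ 2 :=
    fun v => Finset.sum_nonneg fun i _ => sq_nonneg _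
  have hs2 : ∀ v : Option (Fin p ⊕ Fin p) → ℝ, 0 ≤ ∑ g ∈ S,
      Complex.normSq (2 * ∏ i, ptx v i ^ (g i).toNat -
        2 * (ζ g : ℂ) * ∏ i, ptx v i ^ (-g i).toNat) :=
    fun v => Finset.sum_nonneg fun g _ => Complex.normSq_nonneg _
  refine ⟨H, ?_, ?_, ?_, ?_⟩
  · -- the degree
    intro b hb
    have h1 := (le_totalDegree hb).trans hd
    rwa [Finsupp.degree_apply]
  · -- the size
    have e4 : mn (pn (pn (NR F))) H ≤ p * 9 + 2 ^ (7 + 3 * (p * (B + 1))) +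
        (p * ((E + 1) * (4 * 4 ^ Hc)) + 2 * 2 ^ Hc + 1) *
          (p * ((E + 1) * (4 * 4 ^ Hc)) + 2 * 2 ^ Hc + 1) := by
      refine hm.trans (le_of_eq ?_)
      ring
    refine e4.trans ?_
    set E' : ℕ := (p + 1) * (B + 1) with hE
    have hEp : p + 1 ≤ E' := by rw [hE]; nlinarith
    have hEpB : p * (B + 1) ≤ E' := by rw [hE]; nlinarith
    have hE1 : 1 ≤ E' := by omega
    have h2p : ∀ n : ℕ, n + 1 ≤ 2 ^ n := by
      intro n
      induction n with
      | zero => norm_num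
      | succ n ih => rw [pow_succ]; omega
    have hgoal : 20 * (p + 1) * (B + 1) + 4 * Hc + 2 * E = 20 * E' + 4 * Hc + 2 * E := by
      rw [hE]; ring
    rw [hgoal]
    have f1 : p * 9 ≤ 2 ^ (18 * E' + 4 * Hc + 2 * E) := by
      have : p * 9 ≤ 2 ^ 4 * 2 ^ E' := by
        have h1 : p + 1 ≤ 2 ^ E' := (h2p p).trans (Nat.pow_le_pow_right (by norm_num) (by omega))
        omega
      refine this.trans ?_
      rw [← pow_add]
      exact Nat.pow_le_pow_right (by norm_num) (by omega)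
    have f2 : 2 ^ (7 + 3 * (p * (B + 1))) ≤ 2 ^ (18 * E' + 4 * Hc + 2 * E) :=
      Nat.pow_le_pow_right (by norm_num) (by omega)
    have f3 : (p * ((E + 1) * (4 * 4 ^ Hc)) + 2 * 2 ^ Hc + 1) *
        (p * ((E + 1) * (4 * 4 ^ Hc)) + 2 * 2 ^ Hc + 1) ≤
        2 ^ (18 * E' + 4 * Hc + 2 * E) := by
      have h8 : (2 : ℕ) ^ Hc ≤ 4 ^ Hc := Nat.pow_le_pow_left (by norm_num) _
      have h9 : 1 ≤ (4 : ℕ) ^ Hc := Nat.one_le_pow _ _ (by norm_num)
      have h4 : 4 ^ Hc ≤ (E + 1) * 4 ^ Hc := Nat.le_mul_of_pos_left _ (Nat.succ_pos E)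
      have h1 : p * ((E + 1) * (4 * 4 ^ Hc)) + 2 * 2 ^ Hc + 1 ≤
          4 * (p + 1) * ((E + 1) * 4 ^ Hc) := by
        have h10 : 4 * (p + 1) * ((E + 1) * 4 ^ Hc) =
          p * ((E + 1) * (4 * 4 ^ Hc)) + 4 * ((E + 1) * 4 ^ Hc) := by ring
        rw [h10]
        omega
      have h5 : 4 * (p + 1) * ((E + 1) * 4 ^ Hc) ≤ 2 ^ (2 + E' + (E + 2 * Hc)) := by
        have h6 : p + 1 ≤ 2 ^ E' := (h2p p).trans (Nat.pow_le_pow_right (by norm_num) (by omega))
        have h7 : (4 : ℕ) ^ Hc = 2 ^ (2 * Hc) := by rw [pow_mul]; norm_num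
        rw [pow_add, pow_add, pow_add 2 E, h7]
        exact Nat.mul_le_mul (Nat.mul_le_mul_left _ h6) (Nat.mul_le_mul_right _ (h2p E))
      refine (Nat.mul_le_mul (h1.trans h5) (h1.trans h5)).trans ?_
      rw [← pow_add]
      exact Nat.pow_le_pow_right (by norm_num) (by omega)
    have f4 : 2 ^ (20 * E' + 4 * Hc + 2 * E) = 2 ^ (2 * E') * 2 ^ (18 * E' + 4 * Hc + 2 * E) := by
      rw [← pow_add]
      congr 1
      ring
    have f5 : 4 ≤ 2 ^ (2 * E') := by
      have : 2 ^ 2 ≤ 2 ^ (2 * E') := Nat.pow_le_pow_right (by norm_num) (by omega)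
      omega
    rw [f4]
    have f6 := Nat.mul_le_mul_right (2 ^ (18 * E' + 4 * Hc + 2 * E)) f5
    omega
  · intro y δ v
    rw [hHe]
    have := hs1 v
    have := hs2 v
    positivity
  · intro y δ v
    rw [hHe]
    have hz1 : (∑ i, (‖ptx v i‖ ^ 2 - 1) ^ 2) = 0 ↔ ∀ i, ‖ptx v i‖ = 1 := by
      rw [Finset.sum_eq_zero_iff_of_nonneg fun i _ => sq_nonneg _]
      constructor
      · intro h i
        have h1 := h i (Finset.mem_univ i)
        have h2 : ‖ptx v i‖ ^ 2 - 1 = 0 := by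
          exact pow_eq_zero_iff (two_ne_zero) |>.mp h1
        have h3 : ‖ptx v i‖ ^ 2 = 1 := by linarith
        exact (pow_eq_one_iff_of_nonneg (norm_nonneg _) two_ne_zero).mp h3
      · intro h i _
        rw [h i]
        norm_num
    have hz2 : (∀ i, ‖ptx v i‖ = 1) → ((∑ g ∈ S, Complex.normSq
        (2 * ∏ i, ptx v i ^ (g i).toNat - 2 * (ζ g : ℂ) * ∏ i, ptx v i ^ (-g i).toNat)) = 0 ↔
        ∀ g ∈ S, ∏ i, ptx v i ^ g i = (ζ g : ℂ)) := by
      intro hn
      have hne : ∀ i, ptx v i ≠ 0 := fun i h0 => by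
        have := hn i
        rw [h0, norm_zero] at this
        exact zero_ne_one this
      rw [Finset.sum_eq_zero_iff_of_nonneg fun g _ => Complex.normSq_nonneg _]
      refine forall₂_congr fun g _ => ?_
      rw [rel_iff _ hne, Complex.normSq_eq_zero, mul_assoc, ← mul_sub, mul_eq_zero]
      constructor
      · rintro (h | h)
        · exact absurd h two_ne_zero
        · exact sub_eq_zero.mp h
      · intro h
        exact Or.inr (sub_eq_zero.mpr h)
    constructor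
    · intro h
      have h1 := hs1 v
      have h2 := hs2 v
      have h3 : 0 ≤ (v none * (2 * D0 * (fY E c y (ptx v) + δ)) - 1) ^ 2 := sq_nonneg _
      have g1 : ∑ i, (‖ptx v i‖ ^ 2 - 1) ^ 2 = 0 := by linarith
      have g2 : (∑ g ∈ S, Complex.normSq
        (2 * ∏ i, ptx v i ^ (g i).toNat - 2 * (ζ g : ℂ) * ∏ i, ptx v i ^ (-g i).toNat)) = 0 := by
        linarith
      have g3 : (v none * (2 * D0 * (fY E c y (ptx v) + δ)) - 1) ^ 2 = 0 := by linarith
      have k1 := hz1.mp g1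
      refine ⟨k1, (hz2 k1).mp g2, ?_⟩
      have k3 := pow_eq_zero_iff (two_ne_zero) |>.mp g3
      linarith
    · rintro ⟨k1, k2, k3⟩
      rw [hz1.mpr k1, (hz2 k1).mpr k2, k3]
      norm_num

/-- the polynomial system for the minimum of the linear form with coefficients polynomial in `y`, on
a subset of a torus: circle conditions and relations over `RA F`, mapped to the coefficient ring
`Polynomial (Polynomial (RA F))`, and the condition on the value. -/
theorem exists_systemY (F : IntermediateField ℚ ℂ) [FiniteDimensional ℚ F]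
    (hconj : ∀ z ∈ F, (starRingEnd ℂ) z ∈ F) (hI : I ∈ F) (p B E Hc D0 : ℕ) (hD0 : 0 < D0)
    (hD0' : D0 ≤ 2 ^ Hc) (c : Fin p → ℕ → F)
    (hcI : ∀ i, ∀ e ≤ E, IsIntegral ℤ ((D0 : ℂ) * (c i e : ℂ)))
    (hcb : ∀ i, ∀ e ≤ E, ∀ φ : F →ₐ[ℚ] ℂ, ‖φ (c i e)‖ ≤ 2 ^ Hc) (S : Finset (Fin p → ℤ))
    (hS : ∀ g ∈ S, ∀ i, |g i| ≤ B) (ζ : (Fin p → ℤ) → F)
    (hζ : ∀ g ∈ S, ∃ n : ℕ, 0 < n ∧ ζ g ^ n = 1) :
    ∃ h : MvPolynomial (Option (Fin p ⊕ Fin p)) (Polynomial (Polynomial (RA F))),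
      (∀ b ∈ h.support, b.degree ≤ 4 * (p * B + 1)) ∧
      mn (pn (pn (NR F))) h ≤ 2 ^ (20 * (p + 1) * (B + 1) + 4 * Hc + 2 * E) ∧
      (∀ (y δ : ℝ) (v : Option (Fin p ⊕ Fin p) → ℝ), 0 ≤ h.eval₂ (evY F y δ) v) ∧
      ∀ (y δ : ℝ) (v : Option (Fin p ⊕ Fin p) → ℝ), h.eval₂ (evY F y δ) v = 0 ↔
        (∀ i, ‖ptx v i‖ = 1) ∧ (∀ g ∈ S, ∏ i, ptx v i ^ g i = (ζ g : ℂ)) ∧
        v none * (2 * D0 * (fY E c y (ptx v) + δ)) = 1 := by
  classical
  obtain ⟨c', hc'⟩ : ∃ c' : Fin p → ℕ → F, c' = fun i e => if e ≤ E then c i e else 0 := ⟨_, rfl⟩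
  have hc1 : ∀ i, ∀ e ≤ E, c' i e = c i e := fun i e he => by rw [hc']; exact if_pos he
  have hc2 : ∀ i e, ¬ e ≤ E → c' i e = 0 := fun i e he => by rw [hc']; exact if_neg he
  obtain ⟨h, h1, h2, h3, h4⟩ := exists_systemY' F hconj hI p B E Hc D0 hD0' c' (by
    intro i e
    by_cases he : e ≤ E
    · rw [hc1 i e he]
      exact hcI i e he
    · rw [hc2 i e he]
      simpa using (isIntegral_zero (R := ℤ) (B := ℂ))) (by
    intro i e φ
    by_cases he : e ≤ E
    · rw [hc1 i e he]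
      exact hcb i e he φ
    · rw [hc2 i e he, map_zero, norm_zero]
      positivity) S hS ζ hζ
  refine ⟨h, h1, h2, h3, fun y δ v => ?_⟩
  rw [h4 y δ v]
  have e1 : ∀ i, (∑ e ∈ Finset.range (E + 1), (c' i e : ℂ) * (y : ℂ) ^ (E - e)) =
      ∑ e ∈ Finset.range (E + 1), (c i e : ℂ) * (y : ℂ) ^ (E - e) := fun i =>
    Finset.sum_congr rfl fun e he => by rw [hc1 i e (by have := Finset.mem_range.1 he; omega)]
  simp only [fY, e1]

end Pool.Agent.FixLam
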